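import Pool.Agent.H34.FKS.CaroWei

/-!
# Extension of a random independent set: the averaging argument
-/

set_option autoImplicit false
set_option linter.unusedSectionVars false
set_option linter.unnecessarySeqFocus false

namespace Pool.Agent.H34.FKS

open Finset

variable {E : Type} [Fintype E] [DecidableEq E] {Ω : Type} [Fintype Ω]
variable (t : E → E → Prop) [DecidableRel t]

section defs
variable (F : Finset E) (μ : Ω → ℝ) (A : Ω → E → ℝ) (r : E → ℝ)
omit [Fintype E] [DecidableEq E]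

/-- Probability that `e` is free. -/
def ell (e : E) : ℝ := ∑ s, μ s * A s e

/-- Weight of the free closed neighbourhood at the outcome `s`. -/
def Rs (s : Ω) (e : E) : ℝ := ∑ f ∈ F, T t e f * (A s f * r f)

/-- Weight of the free pairs leaving the closed neighbourhood at the outcome `s`. -/
def Ths (s : Ω) (e : E) : ℝ :=
  ∑ f ∈ F, ∑ h ∈ F, T t e f * (1 - T t e h) * T t f h * (A s f * r f) * (A s h * r h)

/-- List mismatch. -/
def mm (e : E) : ℝ := ∑ f ∈ F, T t e f * r f * ∑ s, μ s * (A s f * (1 - A s e))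

/-- The defect. -/
noncomputable def Dd (e : E) : ℝ :=
  (∑ s, μ s * (A s e * (Rs t F A r s e - 1) ^ 2)) / ell μ A e +
  (∑ s, μ s * (A s e * Ths t F A r s e)) / ell μ A e + mm t F μ A r e

/-- The local defect at the outcome `s`. -/
def Z (s : Ω) (e : E) : ℝ :=
  (Rs t F A r s e - 1) ^ 2 + Ths t F A r s e +
    ∑ f ∈ F, T t e f * (A s f * r f) * ((Rs t F A r s f - 1) ^ 2 + mm t F μ A r f)

end defs

section lemmas
variable {F : Finset E} {μ : Ω → ℝ} {A : Ω → E → ℝ} {r y : E → ℝ}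

lemma A_nonneg (hA : ∀ s e, A s e = 0 ∨ A s e = 1) (s : Ω) (e : E) : 0 ≤ A s e := by
  rcases hA s e with h | h <;> rw [h] <;> norm_num

lemma A_le_one (hA : ∀ s e, A s e = 0 ∨ A s e = 1) (s : Ω) (e : E) : A s e ≤ 1 := by
  rcases hA s e with h | h <;> rw [h] <;> norm_num

lemma mm_nonneg (hμ0 : ∀ s, 0 ≤ μ s) (hA : ∀ s e, A s e = 0 ∨ A s e = 1)
    (hr : ∀ e ∈ F, 0 < r e) (e : E) : 0 ≤ mm t F μ A r e := by
  refine sum_nonneg fun f hf => mul_nonneg (mul_nonneg (T_nonneg t _ _) (hr f hf).le) ?_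
  refine sum_nonneg fun s _ => mul_nonneg (hμ0 s) (mul_nonneg (A_nonneg hA _ _) ?_)
  have := A_le_one hA s e
  linarith

lemma Rs_nonneg (hA : ∀ s e, A s e = 0 ∨ A s e = 1)
    (hr : ∀ e ∈ F, 0 < r e) (s : Ω) (e : E) : 0 ≤ Rs t F A r s e :=
  sum_nonneg fun f hf => mul_nonneg (T_nonneg t _ _)
    (mul_nonneg (A_nonneg hA _ _) (hr f hf).le)

lemma Ths_nonneg (hA : ∀ s e, A s e = 0 ∨ A s e = 1)
    (hr : ∀ e ∈ F, 0 < r e) (s : Ω) (e : E) : 0 ≤ Ths t F A r s e := by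
  refine sum_nonneg fun f hf => sum_nonneg fun h hh => ?_
  have h1 := T_nonneg t e f
  have h2 := T_le_one t e h
  have h3 := T_nonneg t f h
  have h4 := (hr f hf).le
  have h5 := (hr h hh).le
  have h6 := A_nonneg hA s f
  have h7 := A_nonneg hA s h
  have : 0 ≤ 1 - T t e h := by linarith
  positivity

lemma Ths_le (hA : ∀ s e, A s e = 0 ∨ A s e = 1)
    (hr : ∀ e ∈ F, 0 < r e) {Rm : ℝ} (hRm : 0 ≤ Rm) (H2 : ∀ s, ∀ e ∈ F, Rs t F A r s e ≤ Rm)
    (s : Ω) (e : E) (he : e ∈ F) : Ths t F A r s e ≤ Rm ^ 2 := by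
  have h0 : Ths t F A r s e ≤ ∑ f ∈ F, T t e f * (A s f * r f) * Rm := by
    unfold Ths
    refine sum_le_sum fun f hf => ?_
    have h4 := (hr f hf).le
    have h6 := A_nonneg hA s f
    have h1 := T_nonneg t e f
    calc ∑ h ∈ F, T t e f * (1 - T t e h) * T t f h * (A s f * r f) * (A s h * r h)
        ≤ ∑ h ∈ F, T t e f * (A s f * r f) * (T t f h * (A s h * r h)) := by
          refine sum_le_sum fun h hh => ?_
          have h2 := T_nonneg t e h
          have h3 := T_nonneg t f h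
          have h5 := (hr h hh).le
          have h7 := A_nonneg hA s h
          have : 0 ≤ T t e h * (T t e f * (A s f * r f) * (T t f h * (A s h * r h))) := by
            positivity
          nlinarith
      _ = T t e f * (A s f * r f) * Rs t F A r s f := by rw [← mul_sum]; rfl
      _ ≤ T t e f * (A s f * r f) * Rm :=
          mul_le_mul_of_nonneg_left (H2 s f hf) (by positivity)
  rw [← sum_mul] at h0
  have h1 : ∑ f ∈ F, T t e f * (A s f * r f) ≤ Rm := H2 s e he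
  nlinarith

/-- The averaged local defect is at most `D e + P e`. -/
lemma Z_avg (hμ0 : ∀ s, 0 ≤ μ s) (hA : ∀ s e, A s e = 0 ∨ A s e = 1)
    (hr : ∀ e ∈ F, 0 < r e) (hell : ∀ e ∈ F, 0 < ell μ A e)
    {δ : ℝ} (H3 : ∀ s, μ s ≠ 0 → ∀ e ∈ F, A s e = 1 → δ ≤ Z t F μ A r s e)
    {e : E} (he : e ∈ F) :
    δ * ell μ A e ≤ ell μ A e * Dd t F μ A r e +
      ∑ f ∈ F, T t e f * (r f * ell μ A f) * Dd t F μ A r f := by
  have hl := hell e he
  have h1 : δ * ell μ A e ≤ ∑ s, μ s * (A s e * Z t F μ A r s e) := by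
    unfold ell
    rw [mul_sum]
    refine sum_le_sum fun s _ => ?_
    by_cases hs : μ s = 0
    · simp [hs]
    · rcases hA s e with h | h
      · simp [h]
      · rw [h, one_mul, mul_one, mul_comm]
        exact mul_le_mul_of_nonneg_left (H3 s hs e he h) (hμ0 s)
  refine h1.trans ?_
  have h2 : ∑ s, μ s * (A s e * Z t F μ A r s e) =
      ∑ s, μ s * (A s e * (Rs t F A r s e - 1) ^ 2) + ∑ s, μ s * (A s e * Ths t F A r s e) +
      ∑ f ∈ F, T t e f * r f * ∑ s, μ s * (A s e * (A s f *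
        ((Rs t F A r s f - 1) ^ 2 + mm t F μ A r f))) := by
    simp only [mul_sum]
    rw [sum_comm (s := F), ← sum_add_distrib, ← sum_add_distrib]
    refine sum_congr rfl fun s _ => ?_
    unfold Z
    rw [mul_add, mul_add, mul_add, mul_add]
    congr 1
    rw [mul_sum, mul_sum]
    refine sum_congr rfl fun f _ => ?_
    ring
  rw [h2]
  have h3 : ∀ f ∈ F, T t e f * r f * ∑ s, μ s * (A s e * (A s f *
        ((Rs t F A r s f - 1) ^ 2 + mm t F μ A r f))) ≤
        T t e f * (r f * ell μ A f) * Dd t F μ A r f := by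
    intro f hf
    have hlf := hell f hf
    have hrf := (hr f hf).le
    have hT := T_nonneg t e f
    have hmm := mm_nonneg t (F := F) (r := r) hμ0 hA hr f
    have h4 : ∑ s, μ s * (A s e * (A s f *
        ((Rs t F A r s f - 1) ^ 2 + mm t F μ A r f))) ≤
        ∑ s, μ s * (A s f * (Rs t F A r s f - 1) ^ 2) + ell μ A f * mm t F μ A r f := by
      unfold ell
      rw [sum_mul, ← sum_add_distrib]
      refine sum_le_sum fun s _ => ?_
      have hx : 0 ≤ μ s * (A s f * ((Rs t F A r s f - 1) ^ 2 + mm t F μ A r f)) := by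
        have := hμ0 s
        have := A_nonneg hA s f
        positivity
      have h5 := A_le_one hA s e
      nlinarith
    have h6 : 0 ≤ ∑ s, μ s * (A s f * Ths t F A r s f) :=
      sum_nonneg fun s _ => mul_nonneg (hμ0 s) (mul_nonneg (A_nonneg hA _ _)
        (Ths_nonneg t hA hr s f))
    have h7 : ∑ s, μ s * (A s f * (Rs t F A r s f - 1) ^ 2) + ell μ A f * mm t F μ A r f ≤
        ell μ A f * Dd t F μ A r f := by
      unfold Dd
      rw [mul_add, mul_add, mul_div_cancel₀ _ hlf.ne', mul_div_cancel₀ _ hlf.ne']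
      linarith
    calc _ ≤ T t e f * r f * (ell μ A f * Dd t F μ A r f) :=
          mul_le_mul_of_nonneg_left (h4.trans h7) (by positivity)
      _ = _ := by ring
  have h8 := sum_le_sum h3
  have h9 : ∑ s, μ s * (A s e * (Rs t F A r s e - 1) ^ 2) +
      ∑ s, μ s * (A s e * Ths t F A r s e) ≤ ell μ A e * Dd t F μ A r e := by
    have hmm := mm_nonneg t (F := F) (r := r) hμ0 hA hr e
    unfold Dd
    rw [mul_add, mul_add, mul_div_cancel₀ _ hl.ne', mul_div_cancel₀ _ hl.ne']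
    nlinarith
  linarith

/-! ### The two processes -/

lemma Dd_nonneg (hμ0 : ∀ s, 0 ≤ μ s) (hA : ∀ s e, A s e = 0 ∨ A s e = 1)
    (hr : ∀ e ∈ F, 0 < r e) (hell : ∀ e ∈ F, 0 < ell μ A e) {e : E} (he : e ∈ F) :
    0 ≤ Dd t F μ A r e := by
  have hl := hell e he
  have h1 : 0 ≤ ∑ s, μ s * (A s e * (Rs t F A r s e - 1) ^ 2) :=
    sum_nonneg fun s _ => mul_nonneg (hμ0 s) (mul_nonneg (A_nonneg hA _ _) (sq_nonneg _))
  have h2 : 0 ≤ ∑ s, μ s * (A s e * Ths t F A r s e) :=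
    sum_nonneg fun s _ => mul_nonneg (hμ0 s) (mul_nonneg (A_nonneg hA _ _)
      (Ths_nonneg t hA hr s e))
  have h3 := mm_nonneg t (F := F) (r := r) hμ0 hA hr e
  unfold Dd
  positivity

lemma ell_le_one (hμ0 : ∀ s, 0 ≤ μ s) (hμ1 : ∑ s, μ s = 1)
    (hA : ∀ s e, A s e = 0 ∨ A s e = 1) (e : E) : ell μ A e ≤ 1 := by
  rw [← hμ1]
  refine sum_le_sum fun s _ => ?_
  have := hμ0 s
  have := A_le_one hA s e
  nlinarith

lemma Rs_sum (_hA : ∀ s e, A s e = 0 ∨ A s e = 1) (e : E) :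
    ∑ s, μ s * (A s e * Rs t F A r s e) =
      ∑ f ∈ F, T t e f * (r f * ell μ A f) - mm t F μ A r e := by
  unfold mm ell Rs
  rw [← sum_sub_distrib]
  simp only [mul_sum]
  rw [sum_comm]
  refine sum_congr rfl fun f _ => ?_
  rw [← sum_sub_distrib]
  refine sum_congr rfl fun s _ => ?_
  ring

lemma mm_le (hμ0 : ∀ s, 0 ≤ μ s) (hA : ∀ s e, A s e = 0 ∨ A s e = 1)
    (hr : ∀ e ∈ F, 0 < r e) (e : E) :
    mm t F μ A r e ≤ ∑ f ∈ F, T t e f * (r f * ell μ A f) := by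
  have h := Rs_sum (F := F) (μ := μ) (r := r) t hA e
  have h2 : 0 ≤ ∑ s, μ s * (A s e * Rs t F A r s e) :=
    sum_nonneg fun s _ => mul_nonneg (hμ0 s) (mul_nonneg (A_nonneg hA _ _)
      (Rs_nonneg t hA hr s e))
  linarith

lemma Dd_le (hμ0 : ∀ s, 0 ≤ μ s) (hμ1 : ∑ s, μ s = 1) (hA : ∀ s e, A s e = 0 ∨ A s e = 1)
    (hr : ∀ e ∈ F, 0 < r e) (hell : ∀ e ∈ F, 0 < ell μ A e) {Rm β : ℝ} (hRm : 2 ≤ Rm)
    (hβ0 : 0 ≤ β) (hβ1 : β ≤ 1)
    (H1 : ∀ e ∈ F, ∑ f ∈ F, T t e f * (r f * ell μ A f) ≤ (1 + β) * ell μ A e)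
    (H2 : ∀ s, ∀ e ∈ F, Rs t F A r s e ≤ Rm) {e : E} (he : e ∈ F) :
    Dd t F μ A r e ≤ 3 * Rm ^ 2 := by
  have hl := hell e he
  have hl1 := ell_le_one hμ0 hμ1 hA e
  have h1 : (∑ s, μ s * (A s e * (Rs t F A r s e - 1) ^ 2)) / ell μ A e ≤ Rm ^ 2 := by
    rw [div_le_iff₀ hl]
    unfold ell
    rw [mul_sum]
    refine sum_le_sum fun s _ => ?_
    have h2 : (Rs t F A r s e - 1) ^ 2 ≤ Rm ^ 2 := by
      have h3 := Rs_nonneg t (F := F) (r := r) hA hr s e
      have h4 := H2 s e he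
      nlinarith
    have := hμ0 s
    have := A_nonneg hA s e
    calc μ s * (A s e * (Rs t F A r s e - 1) ^ 2) ≤ μ s * (A s e * Rm ^ 2) := by gcongr
      _ = Rm ^ 2 * (μ s * A s e) := by ring
  have h2 : (∑ s, μ s * (A s e * Ths t F A r s e)) / ell μ A e ≤ Rm ^ 2 := by
    rw [div_le_iff₀ hl]
    unfold ell
    rw [mul_sum]
    refine sum_le_sum fun s _ => ?_
    have h3 := Ths_le t hA hr (by linarith) H2 s e he
    have := hμ0 s
    have := A_nonneg hA s e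
    calc μ s * (A s e * Ths t F A r s e) ≤ μ s * (A s e * Rm ^ 2) := by gcongr
      _ = Rm ^ 2 * (μ s * A s e) := by ring
  have h3 : mm t F μ A r e ≤ Rm ^ 2 := by
    have h4 := mm_le t (F := F) (r := r) hμ0 hA hr e
    have h5 := H1 e he
    nlinarith
  unfold Dd
  linarith

lemma Rw_filter (hA : ∀ s e, A s e = 0 ∨ A s e = 1) (s : Ω) (e : E) :
    Rw t r (F.filter fun f => A s f = 1) e = Rs t F A r s e := by
  unfold Rw Rs
  rw [sum_filter]
  refine sum_congr rfl fun f _ => ?_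
  rcases hA s f with h | h <;> simp [h]

lemma Th_filter (hA : ∀ s e, A s e = 0 ∨ A s e = 1) (s : Ω) (e : E) :
    Th t r (F.filter fun f => A s f = 1) e = Ths t F A r s e := by
  unfold Th Ths
  rw [sum_filter]
  refine sum_congr rfl fun f _ => ?_
  rw [sum_filter]
  rcases hA s f with h | h
  · simp [h]
  · rw [if_pos h]
    refine sum_congr rfl fun g _ => ?_
    rcases hA s g with h' | h' <;> simp [h, h']

lemma proc_ineq {R Rm κ Θ : ℝ} (hR : 0 < R) (hRm : R ≤ Rm) (hκ : 0 ≤ κ) (hΘ : 0 ≤ Θ) :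
    2 - R + (R - 1) ^ 2 / Rm + κ / Rm * Θ ≤ 1 / R * (1 + κ * Θ) := by
  have h1 : 1 / R = 2 - R + (R - 1) ^ 2 / R := by field_simp; ring
  have h2 : (R - 1) ^ 2 / Rm ≤ (R - 1) ^ 2 / R :=
    div_le_div_of_nonneg_left (sq_nonneg _) hR hRm
  have h3 : κ / Rm * Θ ≤ 1 / R * (κ * Θ) := by
    have : κ / Rm ≤ κ / R := div_le_div_of_nonneg_left hκ hR hRm
    calc κ / Rm * Θ ≤ κ / R * Θ := mul_le_mul_of_nonneg_right this hΘ
      _ = 1 / R * (κ * Θ) := by ring
  calc 2 - R + (R - 1) ^ 2 / Rm + κ / Rm * Θ ≤ 2 - R + (R - 1) ^ 2 / R + 1 / R * (κ * Θ) := by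
        linarith
    _ = 1 / R + 1 / R * (κ * Θ) := by rw [← h1]
    _ = _ := by ring

/-- First process: the original rates. -/
lemma process1 (tsymm : ∀ e f, t e f → t f e) (trefl : ∀ e, t e e)
    (hμ0 : ∀ s, 0 ≤ μ s) (hμ1 : ∑ s, μ s = 1) (hA : ∀ s e, A s e = 0 ∨ A s e = 1)
    (hr : ∀ e ∈ F, 0 < r e) (hell : ∀ e ∈ F, 0 < ell μ A e) {Rm β : ℝ} (hRm : 2 ≤ Rm)
    (H1 : ∀ e ∈ F, ∑ f ∈ F, T t e f * (r f * ell μ A f) ≤ (1 + β) * ell μ A e)
    (H2 : ∀ s, ∀ e ∈ F, Rs t F A r s e ≤ Rm) :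
    ∃ m : Ω → E → ℝ, (∀ s, Good t (F.filter fun e => A s e = 1) (m s)) ∧
      ∀ e ∈ F, r e * ell μ A e * (1 - β + 1 / (3 * Rm ^ 3) * Dd t F μ A r e) ≤
        ∑ s, μ s * (A s e * m s e) := by
  have hRm0 : 0 < Rm := by linarith
  set κ : ℝ := 1 / (3 * Rm ^ 2) with hκ
  have hκ0 : 0 < κ := by positivity
  have hex : ∀ s, ∃ m : E → ℝ, Good t (F.filter fun e => A s e = 1) m ∧
      ∀ e ∈ F.filter (fun e => A s e = 1),
        r e * (1 / Rs t F A r s e * (1 + κ * Ths t F A r s e)) ≤ m e := by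
    intro s
    obtain ⟨m, hm, hb⟩ := caroWei t tsymm trefl r hRm0 (F.filter fun e => A s e = 1)
      (fun e he => hr e (mem_filter.1 he).1)
      (fun e he => by rw [Rw_filter t hA]; exact H2 s e (mem_filter.1 he).1)
    refine ⟨m, hm, fun e he => ?_⟩
    have := hb e he
    rwa [Rw_filter t hA, Th_filter t hA] at this
  choose m hm hb using hex
  refine ⟨m, hm, fun e he => ?_⟩
  have hre := hr e he
  have hl := hell e he
  have hl1 := ell_le_one hμ0 hμ1 hA e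
  have hmm := mm_nonneg t (F := F) (r := r) hμ0 hA hr e
  have h1 : ∀ s ∈ univ, μ s * (A s e * (r e * (2 - Rs t F A r s e +
      (Rs t F A r s e - 1) ^ 2 / Rm + κ / Rm * Ths t F A r s e))) ≤ μ s * (A s e * m s e) := by
    intro s _
    refine mul_le_mul_of_nonneg_left ?_ (hμ0 s)
    rcases hA s e with h | h
    · simp [h]
    · rw [h, one_mul, one_mul]
      refine le_trans ?_ (hb s e (mem_filter.2 ⟨he, h⟩))
      refine mul_le_mul_of_nonneg_left ?_ hre.le
      have hRpos : 0 < Rs t F A r s e := by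
        have h1 : T t e e * (A s e * r e) ≤ Rs t F A r s e := by
          unfold Rs
          exact single_le_sum (f := fun f => T t e f * (A s f * r f))
            (fun f hf => mul_nonneg (T_nonneg t _ _)
              (mul_nonneg (A_nonneg hA _ _) (hr f hf).le)) he
        rw [T_of t e e (trefl e), h, one_mul, one_mul] at h1
        linarith
      exact proc_ineq hRpos (H2 s e he) hκ0.le (Ths_nonneg t hA hr s e)
  refine le_trans ?_ (sum_le_sum h1)
  have h2 : ∑ s, μ s * (A s e * (r e * (2 - Rs t F A r s e +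
      (Rs t F A r s e - 1) ^ 2 / Rm + κ / Rm * Ths t F A r s e))) =
      r e * (2 * ell μ A e - ∑ s, μ s * (A s e * Rs t F A r s e) +
        (∑ s, μ s * (A s e * (Rs t F A r s e - 1) ^ 2)) / Rm +
        κ / Rm * ∑ s, μ s * (A s e * Ths t F A r s e)) := by
    unfold ell
    rw [mul_sum (a := (2 : ℝ)), ← sum_sub_distrib, sum_div, mul_sum (a := κ / Rm),
      ← sum_add_distrib, ← sum_add_distrib, mul_sum]
    refine sum_congr rfl fun s _ => ?_
    ring
  rw [h2, Rs_sum t hA]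
  have h3 := H1 e he
  set V := ∑ s, μ s * (A s e * (Rs t F A r s e - 1) ^ 2) with hV
  set Tt := ∑ s, μ s * (A s e * Ths t F A r s e) with hTt
  have hV0 : 0 ≤ V :=
    sum_nonneg fun s _ => mul_nonneg (hμ0 s) (mul_nonneg (A_nonneg hA _ _) (sq_nonneg _))
  have hT0 : 0 ≤ Tt :=
    sum_nonneg fun s _ => mul_nonneg (hμ0 s) (mul_nonneg (A_nonneg hA _ _)
      (Ths_nonneg t hA hr s e))
  have hD : ell μ A e * Dd t F μ A r e = V + Tt + ell μ A e * mm t F μ A r e := by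
    unfold Dd
    rw [mul_add, mul_add, mul_div_cancel₀ _ hl.ne', mul_div_cancel₀ _ hl.ne']
  have h4 : r e * ell μ A e * (1 - β + 1 / (3 * Rm ^ 3) * Dd t F μ A r e) =
      r e * ((1 - β) * ell μ A e + 1 / (3 * Rm ^ 3) * (V + Tt + ell μ A e * mm t F μ A r e)) := by
    rw [← hD]; ring
  rw [h4]
  refine mul_le_mul_of_nonneg_left ?_ hre.le
  have hκ2 : κ / Rm = 1 / (3 * Rm ^ 3) := by rw [hκ]; field_simp
  rw [← hκ2]
  have h5 : κ / Rm * V ≤ V / Rm := by
    rw [div_mul_eq_mul_div]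
    refine div_le_div_of_nonneg_right ?_ hRm0.le
    have : κ ≤ 1 := by
      rw [hκ, div_le_one (by positivity)]; nlinarith
    nlinarith
  have h6 : κ / Rm * (ell μ A e * mm t F μ A r e) ≤ mm t F μ A r e := by
    have h7 : κ / Rm ≤ 1 := by
      rw [hκ2, div_le_one (by positivity)]; nlinarith [pow_pos hRm0 2, pow_pos hRm0 3]
    have h8 : κ / Rm * ell μ A e ≤ 1 := mul_le_one₀ h7 hl.le hl1
    calc κ / Rm * (ell μ A e * mm t F μ A r e) = (κ / Rm * ell μ A e) * mm t F μ A r e := by ring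
      _ ≤ 1 * mm t F μ A r e := mul_le_mul_of_nonneg_right h8 hmm
      _ = _ := one_mul _
  rw [mul_add, mul_add]
  linarith

/-- Second process: rates lowered where the defect is large. -/
lemma process2 (tsymm : ∀ e f, t e f → t f e) (trefl : ∀ e, t e e)
    (hμ0 : ∀ s, 0 ≤ μ s) (hμ1 : ∑ s, μ s = 1) (hA : ∀ s e, A s e = 0 ∨ A s e = 1)
    (hr : ∀ e ∈ F, 0 < r e) (hell : ∀ e ∈ F, 0 < ell μ A e) {Rm β : ℝ} (hRm : 2 ≤ Rm)
    (hβ0 : 0 ≤ β) (hβ1 : β ≤ 1)
    (H1 : ∀ e ∈ F, ∑ f ∈ F, T t e f * (r f * ell μ A f) ≤ (1 + β) * ell μ A e)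
    (H2 : ∀ s, ∀ e ∈ F, Rs t F A r s e ≤ Rm) :
    ∃ m : Ω → E → ℝ, (∀ s, Good t (F.filter fun e => A s e = 1) (m s)) ∧
      ∀ e ∈ F, r e * (ell μ A e * (1 - β) - 1 / (6 * Rm ^ 2) * (ell μ A e * Dd t F μ A r e) +
        1 / (12 * Rm ^ 2) * ∑ f ∈ F, T t e f * (r f * ell μ A f) * Dd t F μ A r f) ≤
        ∑ s, μ s * (A s e * m s e) := by
  have hRm0 : 0 < Rm := by linarith
  set η : ℝ := 1 / (6 * Rm ^ 2) with hη
  have hη0 : 0 < η := by positivity
  let r2 : E → ℝ := fun f => r f * (1 - η * Dd t F μ A r f)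
  have hD0 : ∀ f ∈ F, 0 ≤ Dd t F μ A r f := fun f hf => Dd_nonneg t hμ0 hA hr hell hf
  have hD1 : ∀ f ∈ F, η * Dd t F μ A r f ≤ 1 / 2 := by
    intro f hf
    have h1 := Dd_le t hμ0 hμ1 hA hr hell hRm hβ0 hβ1 H1 H2 hf
    calc η * Dd t F μ A r f ≤ η * (3 * Rm ^ 2) := mul_le_mul_of_nonneg_left h1 hη0.le
      _ = 1 / 2 := by rw [hη]; field_simp; norm_num
  have hr2 : ∀ f ∈ F, 0 < r2 f := by
    intro f hf
    have := hD1 f hf
    exact mul_pos (hr f hf) (by linarith)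
  have hr2r : ∀ f ∈ F, r2 f ≤ r f := by
    intro f hf
    have h1 := hD0 f hf
    have h2 := hr f hf
    have : 0 ≤ r f * (η * Dd t F μ A r f) := by positivity
    simp only [r2]; linarith
  have hR2 : ∀ s, ∀ e ∈ F, Rs t F A r2 s e ≤ Rm := by
    intro s e he
    refine le_trans ?_ (H2 s e he)
    unfold Rs
    refine sum_le_sum fun f hf => ?_
    have h1 := T_nonneg t e f
    have h2 := A_nonneg hA s f
    have h3 := hr2r f hf
    gcongr
  have hex : ∀ s, ∃ m : E → ℝ, Good t (F.filter fun e => A s e = 1) m ∧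
      ∀ e ∈ F.filter (fun e => A s e = 1), r2 e * (2 - Rs t F A r2 s e) ≤ m e := by
    intro s
    obtain ⟨m, hm, hb⟩ := caroWei t tsymm trefl r2 hRm0 (F.filter fun e => A s e = 1)
      (fun e he => hr2 e (mem_filter.1 he).1)
      (fun e he => by rw [Rw_filter t hA]; exact hR2 s e (mem_filter.1 he).1)
    refine ⟨m, hm, fun e he => ?_⟩
    have h1 := hb e he
    rw [Rw_filter t hA, Th_filter t hA] at h1
    refine le_trans ?_ h1
    obtain ⟨heF, hAe⟩ := mem_filter.1 he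
    refine mul_le_mul_of_nonneg_left ?_ (hr2 e heF).le
    have hRpos : 0 < Rs t F A r2 s e := by
      have h1 : T t e e * (A s e * r2 e) ≤ Rs t F A r2 s e := by
        unfold Rs
        exact single_le_sum (f := fun f => T t e f * (A s f * r2 f))
          (fun f hf => mul_nonneg (T_nonneg t _ _)
            (mul_nonneg (A_nonneg hA _ _) (hr2 f hf).le)) heF
      rw [T_of t e e (trefl e), hAe, one_mul, one_mul] at h1
      linarith [hr2 e heF]
    have h2 := proc_ineq (κ := 1 / (3 * Rm ^ 2)) hRpos (hR2 s e heF) (by positivity)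
      (Ths_nonneg t hA hr2 s e)
    have h3 : 0 ≤ (Rs t F A r2 s e - 1) ^ 2 / Rm := by positivity
    have h4 : 0 ≤ 1 / (3 * Rm ^ 2) / Rm * Ths t F A r2 s e :=
      mul_nonneg (by positivity) (Ths_nonneg t hA hr2 s e)
    linarith
  choose m hm hb using hex
  refine ⟨m, hm, fun e he => ?_⟩
  have hre := hr e he
  have hl := hell e he
  have hl1 := ell_le_one hμ0 hμ1 hA e
  have h1 : ∀ s ∈ univ, μ s * (A s e * (r2 e * (2 - Rs t F A r2 s e)))
      ≤ μ s * (A s e * m s e) := by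
    intro s _
    refine mul_le_mul_of_nonneg_left ?_ (hμ0 s)
    rcases hA s e with h | h
    · simp [h]
    · rw [h, one_mul, one_mul]
      exact hb s e (mem_filter.2 ⟨he, h⟩)
  refine le_trans ?_ (sum_le_sum h1)
  have h2 : ∑ s, μ s * (A s e * (r2 e * (2 - Rs t F A r2 s e))) =
      r2 e * (2 * ell μ A e - ∑ s, μ s * (A s e * Rs t F A r2 s e)) := by
    unfold ell
    rw [mul_sum (a := (2 : ℝ)), ← sum_sub_distrib, mul_sum]
    refine sum_congr rfl fun s _ => ?_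
    ring
  rw [h2, Rs_sum t hA]
  have hmm := mm_nonneg t (F := F) (r := r2) hμ0 hA hr2 e
  set P := ∑ f ∈ F, T t e f * (r f * ell μ A f) * Dd t F μ A r f with hP
  have hP0 : 0 ≤ P := by
    refine sum_nonneg fun f hf => ?_
    have h1 := T_nonneg t e f
    have h2 := (hr f hf).le
    have h3 := (hell f hf).le
    have h4 := hD0 f hf
    positivity
  have h3 : ∑ f ∈ F, T t e f * (r2 f * ell μ A f) =
      ∑ f ∈ F, T t e f * (r f * ell μ A f) - η * P := by
    rw [hP, mul_sum, ← sum_sub_distrib]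
    refine sum_congr rfl fun f _ => ?_
    simp only [r2]; ring
  rw [h3]
  have h4 := H1 e he
  set D := Dd t F μ A r e with hDdef
  have hDe0 : 0 ≤ D := hD0 e he
  have hDe1 : η * D ≤ 1 / 2 := hD1 e he
  have h5 : ell μ A e * (1 - β) + η * P ≤ 2 * ell μ A e -
      (∑ f ∈ F, T t e f * (r f * ell μ A f) - η * P - mm t F μ A r2 e) := by
    linarith
  have h6 : r e * (1 - η * D) * (ell μ A e * (1 - β) + η * P) ≤ r2 e * (2 * ell μ A e -
      (∑ f ∈ F, T t e f * (r f * ell μ A f) - η * P - mm t F μ A r2 e)) :=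
    mul_le_mul_of_nonneg_left h5 (hr2 e he).le
  refine le_trans ?_ h6
  rw [mul_assoc]
  refine mul_le_mul_of_nonneg_left ?_ hre.le
  have h7 : 1 / (12 * Rm ^ 2) = η / 2 := by rw [hη]; field_simp; norm_num
  rw [h7]
  have hηP : 0 ≤ η * P := by positivity
  have h8 : η * D * (η * P) ≤ 1 / 2 * (η * P) := mul_le_mul_of_nonneg_right hDe1 hηP
  have h9 : 0 ≤ η * D * ell μ A e * β := by positivity
  nlinarith

/-- The extension theorem, abstract form. -/
theorem avg_main (tsymm : ∀ e f, t e f → t f e) (trefl : ∀ e, t e e)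
    (hμ0 : ∀ s, 0 ≤ μ s) (hμ1 : ∑ s, μ s = 1) (hA : ∀ s e, A s e = 0 ∨ A s e = 1)
    (hr : ∀ e ∈ F, 0 < r e) (hell : ∀ e ∈ F, 0 < ell μ A e) {Rm β δ : ℝ} (hRm : 2 ≤ Rm)
    (hβ0 : 0 ≤ β) (hβ1 : β ≤ 1)
    (H1 : ∀ e ∈ F, ∑ f ∈ F, T t e f * (r f * ell μ A f) ≤ (1 + β) * ell μ A e)
    (H2 : ∀ s, ∀ e ∈ F, Rs t F A r s e ≤ Rm)
    (H3 : ∀ s, μ s ≠ 0 → ∀ e ∈ F, A s e = 1 → δ ≤ Z t F μ A r s e)
    (hβδ : 72 * Rm ^ 5 * β ≤ δ) :
    ∃ m : Ω → E → ℝ, (∀ s, Good t (F.filter fun e => A s e = 1) (m s)) ∧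
      ∀ e ∈ F, r e * ell μ A e ≤ ∑ s, μ s * (A s e * m s e) := by
  have hRm0 : 0 < Rm := by linarith
  obtain ⟨m1, hm1, hb1⟩ := process1 t tsymm trefl hμ0 hμ1 hA hr hell hRm H1 H2
  obtain ⟨m2, hm2, hb2⟩ := process2 t tsymm trefl hμ0 hμ1 hA hr hell hRm hβ0 hβ1 H1 H2
  set κ : ℝ := 1 / (3 * Rm ^ 3) with hκ
  set η : ℝ := 1 / (6 * Rm ^ 2) with hη
  have hκ0 : 0 < κ := by positivity
  have hη0 : 0 < η := by positivity
  have hκ1 : κ ≤ 1 / 24 := by
    rw [hκ]
    refine one_div_le_one_div_of_le (by norm_num) ?_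
    have : (2 : ℝ) ^ 3 ≤ Rm ^ 3 := pow_le_pow_left₀ (by norm_num) hRm 3
    linarith
  have hη1 : η ≤ 1 / 24 := by
    rw [hη]
    refine one_div_le_one_div_of_le (by norm_num) ?_
    have : (2 : ℝ) ^ 2 ≤ Rm ^ 2 := pow_le_pow_left₀ (by norm_num) hRm 2
    linarith
  refine ⟨fun s e => (1 - κ / 2) * m1 s e + κ / 2 * m2 s e, fun s =>
    (hm1 s).convex (hm2 s) (by positivity) (by linarith), fun e he => ?_⟩
  have hre := hr e he
  have hl := hell e he
  have h1 := hb1 e he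
  have h2 := hb2 e he
  have h3 := Z_avg t hμ0 hA hr hell H3 he
  set P := ∑ f ∈ F, T t e f * (r f * ell μ A f) * Dd t F μ A r f with hP
  set D := Dd t F μ A r e with hD
  have hD0 : 0 ≤ D := Dd_nonneg t hμ0 hA hr hell he
  have hsum : ∑ s, μ s * (A s e * ((1 - κ / 2) * m1 s e + κ / 2 * m2 s e)) =
      (1 - κ / 2) * ∑ s, μ s * (A s e * m1 s e) + κ / 2 * ∑ s, μ s * (A s e * m2 s e) := by
    rw [mul_sum, mul_sum, ← sum_add_distrib]
    exact sum_congr rfl fun s _ => by ring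
  rw [hsum]
  have h4 : (1 - κ / 2) * (r e * ell μ A e * (1 - β + κ * D)) ≤
      (1 - κ / 2) * ∑ s, μ s * (A s e * m1 s e) :=
    mul_le_mul_of_nonneg_left h1 (by linarith)
  have h5 := mul_le_mul_of_nonneg_left h2 (show 0 ≤ κ / 2 by positivity)
  refine le_trans ?_ (add_le_add h4 h5)
  have h6 : 1 / (12 * Rm ^ 2) = η / 2 := by rw [hη]; field_simp; norm_num
  rw [h6]
  have h7 : (1 - κ / 2) * (r e * ell μ A e * (1 - β + κ * D)) +
      κ / 2 * (r e * (ell μ A e * (1 - β) - η * (ell μ A e * D) + η / 2 * P)) =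
      r e * (ell μ A e * (1 - β) + ((1 - κ / 2) * κ - κ / 2 * η) * (ell μ A e * D) +
        κ * η / 4 * P) := by ring
  rw [h7]
  refine mul_le_mul_of_nonneg_left ?_ hre.le
  have h8 : κ * η / 4 ≤ (1 - κ / 2) * κ - κ / 2 * η := by nlinarith
  have h9 : κ * η / 4 * (ell μ A e * D) ≤ ((1 - κ / 2) * κ - κ / 2 * η) * (ell μ A e * D) :=
    mul_le_mul_of_nonneg_right h8 (by positivity)
  have h10 : κ * η / 4 * (δ * ell μ A e) ≤ κ * η / 4 * (ell μ A e * D + P) :=
    mul_le_mul_of_nonneg_left h3 (by positivity)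
  have h11 : κ * η / 4 = 1 / (72 * Rm ^ 5) := by rw [hκ, hη]; field_simp; norm_num
  have h12 : β ≤ κ * η / 4 * δ := by
    rw [h11, div_mul_eq_mul_div, one_mul, le_div_iff₀ (by positivity)]
    linarith
  have h13 : β * ell μ A e ≤ κ * η / 4 * δ * ell μ A e := mul_le_mul_of_nonneg_right h12 hl.le
  nlinarith

end lemmas

end Pool.Agent.H34.FKS
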