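import Pool.Agent.H34.FKS.Good

/-!
# A second order Caro–Wei bound

Every finite graph with positive vertex weights `r` has a random independent set `I` with
`P(e ∈ I) ≥ r(e) / R(e) * (1 + Θ(e) / (3 Rmax²))`, `R(e)` the weight of the closed neighbourhood
of `e` and `Θ(e)` the weight of the pairs `(f, h)`, `f ∈ N[e]`, `h ∉ N[e]`, `f ∼ h`.
-/

set_option autoImplicit false

namespace Pool.Agent.H34.FKS

open Finset

variable {E : Type} [Fintype E] [DecidableEq E]

/-- The indicator of the relation `t`. -/
def T (t : E → E → Prop) [DecidableRel t] (e f : E) : ℝ := if t e f then 1 else 0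

section T
variable (t : E → E → Prop) [DecidableRel t]
omit [Fintype E] [DecidableEq E]

lemma T_nonneg (e f : E) : 0 ≤ T t e f := by unfold T; split_ifs <;> norm_num
lemma T_le_one (e f : E) : T t e f ≤ 1 := by unfold T; split_ifs <;> norm_num
lemma T_cases (e f : E) : T t e f = 0 ∨ T t e f = 1 := by unfold T; split_ifs <;> simp
lemma T_of (e f : E) (h : t e f) : T t e f = 1 := by simp [T, h]
lemma T_of_not (e f : E) (h : ¬ t e f) : T t e f = 0 := by simp [T, h]
lemma T_comm (hs : ∀ e f, t e f → t f e) (e f : E) : T t e f = T t f e := by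
  unfold T
  by_cases h : t e f
  · simp [h, hs _ _ h]
  · have : ¬ t f e := fun h' => h (hs _ _ h')
    simp [h, this]

/-- The weight of the closed neighbourhood. -/
def Rw (r : E → ℝ) (S : Finset E) (e : E) : ℝ := ∑ f ∈ S, T t e f * r f

/-- The weight of the pairs leaving the closed neighbourhood. -/
def Th (r : E → ℝ) (S : Finset E) (e : E) : ℝ :=
  ∑ f ∈ S, ∑ h ∈ S, T t e f * (1 - T t e h) * T t f h * r f * r h

lemma sum_filter_not_t (j : E) (S : Finset E) (F : E → ℝ) :
    ∑ f ∈ S with ¬ t j f, F f = ∑ f ∈ S, (1 - T t j f) * F f := by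
  rw [sum_filter]
  refine sum_congr rfl fun f _ => ?_
  by_cases h : t j f
  · simp [h, T_of t j f h]
  · simp [h, T_of_not t j f h]

end T

/-- Convexity inequality for one step. -/
lemma step_ineq {R ρ κ θ θ' : ℝ} (hR : 0 < R) (hρ0 : 0 ≤ ρ) (hρ : ρ < R) (hκ : 0 ≤ κ)
    (hθ' : 0 ≤ θ') :
    1 / R * (1 + κ * θ) + ρ / R ^ 2 - κ * (θ - θ') / R ≤ 1 / (R - ρ) * (1 + κ * θ') := by
  have h1 : 0 < R - ρ := by linarith
  have h2 : 1 / R + ρ / R ^ 2 ≤ 1 / (R - ρ) := by
    rw [div_add_div _ _ hR.ne' (by positivity), div_le_div_iff₀ (by positivity) h1]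
    nlinarith [mul_nonneg hρ0 hρ0, mul_pos hR hR, mul_nonneg (mul_nonneg hρ0 hρ0) hR.le]
  have h3 : 1 / R ≤ 1 / (R - ρ) := one_div_le_one_div_of_le h1 (by linarith)
  have h4 : κ * θ' / R ≤ κ * θ' * (1 / (R - ρ)) := by
    rw [div_eq_mul_one_div]
    exact mul_le_mul_of_nonneg_left h3 (by positivity)
  have h5 : 1 / R * (1 + κ * θ) + ρ / R ^ 2 - κ * (θ - θ') / R
      = (1 / R + ρ / R ^ 2) + κ * θ' / R := by
    field_simp; ring
  rw [h5]; nlinarith

variable (t : E → E → Prop) [DecidableRel t]

omit [Fintype E] [DecidableEq E] in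
lemma Th_nonneg {r : E → ℝ} {S : Finset E} (hr : ∀ e ∈ S, 0 < r e) (e : E) :
    0 ≤ Th t r S e := by
  refine sum_nonneg fun f hf => sum_nonneg fun h hh => ?_
  have h1 := T_nonneg t e f
  have h2 := T_le_one t e h
  have h3 := T_nonneg t f h
  have h4 := hr f hf
  have h5 := hr h hh
  have : 0 ≤ 1 - T t e h := by linarith
  positivity

omit [Fintype E] [DecidableEq E] in
/-- The loss of `Θ` when closed neighbourhoods of outside elements are removed. -/
lemma Th_loss (tsymm : ∀ e f, t e f → t f e) {r : E → ℝ} {Rm : ℝ} {S : Finset E}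
    (hr : ∀ e ∈ S, 0 < r e) (hR : ∀ e ∈ S, Rw t r S e ≤ Rm) (e : E) :
    ∑ j ∈ S, (1 - T t e j) * r j *
      (Th t r S e - Th t r (S.filter fun f => ¬ t j f) e) ≤ 2 * Rm * Th t r S e := by
  have hT : ∀ j ∈ S, Th t r (S.filter fun f => ¬ t j f) e =
      ∑ f ∈ S, ∑ h ∈ S, (1 - T t j f) * (1 - T t j h) *
        (T t e f * (1 - T t e h) * T t f h * r f * r h) := by
    intro j _
    unfold Th
    rw [sum_filter_not_t]
    refine sum_congr rfl fun f _ => ?_
    rw [sum_filter_not_t, mul_sum]
    refine sum_congr rfl fun h _ => ?_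
    ring
  have h1 : ∀ j ∈ S, (1 - T t e j) * r j *
      (Th t r S e - Th t r (S.filter fun f => ¬ t j f) e) ≤
      ∑ f ∈ S, ∑ h ∈ S, (T t f j * r j + T t h j * r j) *
        (T t e f * (1 - T t e h) * T t f h * r f * r h) := by
    intro j hj
    rw [hT j hj]
    unfold Th
    rw [← sum_sub_distrib, mul_sum]
    refine sum_le_sum fun f hf => ?_
    rw [← sum_sub_distrib, mul_sum]
    refine sum_le_sum fun h hh => ?_
    set c := T t e f * (1 - T t e h) * T t f h * r f * r h with hc
    have hc0 : 0 ≤ c := by
      have h1 := T_nonneg t e f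
      have h2 := T_le_one t e h
      have h3 := T_nonneg t f h
      have h4 := hr f hf
      have h5 := hr h hh
      have : 0 ≤ 1 - T t e h := by linarith
      positivity
    have e1 : (1 - T t e j) * r j * (c - (1 - T t j f) * (1 - T t j h) * c)
        = (1 - T t e j) * (T t j f + T t j h - T t j f * T t j h) * (r j * c) := by ring
    rw [e1, T_comm t tsymm f j, T_comm t tsymm h j]
    have hrc : 0 ≤ r j * c := mul_nonneg (hr j hj).le hc0
    have e2 : (T t j f * r j + T t j h * r j) * c = (T t j f + T t j h) * (r j * c) := by ring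
    rw [e2]
    refine mul_le_mul_of_nonneg_right ?_ hrc
    rcases T_cases t e j with h1 | h1 <;> rcases T_cases t j f with h2 | h2 <;>
      rcases T_cases t j h with h3 | h3 <;> rw [h1, h2, h3] <;> norm_num
  refine (sum_le_sum h1).trans ?_
  rw [sum_comm]
  unfold Th
  rw [mul_sum]
  refine sum_le_sum fun f hf => ?_
  rw [sum_comm, mul_sum]
  refine sum_le_sum fun h hh => ?_
  rw [← sum_mul, sum_add_distrib]
  refine mul_le_mul_of_nonneg_right ?_ ?_
  · have h1 := hR f hf
    have h2 := hR h hh
    unfold Rw at h1 h2
    linarith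
  · have h1 := T_nonneg t e f
    have h2 := T_le_one t e h
    have h3 := T_nonneg t f h
    have h4 := hr f hf
    have h5 := hr h hh
    have : 0 ≤ 1 - T t e h := by linarith
    positivity

/-- Second order Caro–Wei bound. -/
theorem caroWei (tsymm : ∀ e f, t e f → t f e) (trefl : ∀ e, t e e) (r : E → ℝ) {Rm : ℝ}
    (hRm : 0 < Rm) (S : Finset E) :
    (∀ e ∈ S, 0 < r e) → (∀ e ∈ S, Rw t r S e ≤ Rm) →
    ∃ m : E → ℝ, Good t S m ∧
      ∀ e ∈ S, r e * (1 / Rw t r S e * (1 + 1 / (3 * Rm ^ 2) * Th t r S e)) ≤ m e := by
  induction S using Finset.strongInduction with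
  | H S ih =>
    intro hr hR
    rcases S.eq_empty_or_nonempty with rfl | hne
    · exact ⟨fun _ => 0, good_empty t _, by simp⟩
    set κ : ℝ := 1 / (3 * Rm ^ 2) with hκ
    have hκ0 : 0 < κ := by positivity
    set ρS : ℝ := ∑ j ∈ S, r j with hρS
    have hρ0 : 0 < ρS := sum_pos hr hne
    -- the induction hypothesis
    have IH : ∀ j ∈ S, ∃ m : E → ℝ, Good t (S.filter fun f => ¬ t j f) m ∧
        ∀ e ∈ S.filter (fun f => ¬ t j f), r e * (1 / Rw t r (S.filter fun f => ¬ t j f) e *
          (1 + κ * Th t r (S.filter fun f => ¬ t j f) e)) ≤ m e := by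
      intro j hj
      refine ih _ ?_ ?_ ?_
      · refine filter_ssubset.2 ⟨j, hj, ?_⟩
        simpa using trefl j
      · intro e he; exact hr e (mem_filter.1 he).1
      · intro e he
        refine le_trans ?_ (hR e (mem_filter.1 he).1)
        unfold Rw
        refine sum_le_sum_of_subset_of_nonneg (filter_subset _ _) ?_
        intro f hf _
        exact mul_nonneg (T_nonneg t _ _) (hr f hf).le
    choose! mj hgood hmj using IH
    choose! p p0 ps p1 pm using hgood
    let m : E → ℝ := fun e => ∑ j ∈ S, (r j / ρS) *
      (if e = j then 1 else if t j e then 0 else mj j e)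
    refine ⟨m, ?_, ?_⟩
    · -- m is good
      refine good_of_family (ι := E × Finset E) (S ×ˢ univ)
        (fun i => (r i.1 / ρS) * p i.1 i.2) (fun i => insert i.1 i.2) ?_ ?_ ?_ ?_
      · rintro ⟨j, I⟩ hji
        have hj : j ∈ S := (mem_product.1 hji).1
        exact mul_nonneg (div_nonneg (hr j hj).le hρ0.le) (p0 j hj I)
      · rw [sum_product]
        have : ∀ j ∈ S, ∑ I : Finset E, (r j / ρS) * p j I = r j / ρS := by
          intro j hj
          rw [← mul_sum, p1 j hj, mul_one]
        rw [sum_congr rfl this, ← sum_div]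
        exact div_self hρ0.ne'
      · rintro ⟨j, I⟩ hji hne
        have hj : j ∈ S := (mem_product.1 hji).1
        have hp : p j I ≠ 0 := right_ne_zero_of_mul hne
        obtain ⟨h1, h2⟩ := ps j hj I hp
        refine ⟨insert_subset hj (h1.trans (filter_subset _ _)), ?_⟩
        intro e he f hf hef
        rcases mem_insert.1 he with rfl | he <;> rcases mem_insert.1 hf with rfl | hf
        · exact absurd rfl hef
        · exact (mem_filter.1 (h1 hf)).2
        · exact fun h => (mem_filter.1 (h1 he)).2 (tsymm _ _ h)
        · exact h2 e he f hf hef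
      · intro e he
        rw [sum_filter, sum_product]
        refine sum_congr rfl fun j hj => ?_
        dsimp only
        by_cases hej : e = j
        · subst hej
          simp only [mem_insert_self, if_true]
          rw [← mul_sum, p1 e hj]
        · simp only [mem_insert, hej, false_or, if_false]
          by_cases hte : t j e
          · rw [if_pos hte, mul_zero]
            refine sum_eq_zero fun I _ => ?_
            by_cases hp : p j I = 0
            · simp [hp]
            · have : e ∉ I := fun h => (mem_filter.1 ((ps j hj I hp).1 h)).2 hte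
              simp [this]
          · rw [if_neg hte, ← pm j hj e (mem_filter.2 ⟨he, hte⟩), mul_sum, sum_filter]
    · -- the bound
      intro e he
      set R := Rw t r S e with hRdef
      set θ := Th t r S e with hθdef
      have hre := hr e he
      have hRpos : 0 < R := by
        have h1 : T t e e * r e ≤ R := by
          rw [hRdef]; unfold Rw
          exact single_le_sum (f := fun f => T t e f * r f)
            (fun f hf => mul_nonneg (T_nonneg t _ _) (hr f hf).le) he
        rw [T_of t e e (trefl e), one_mul] at h1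
        linarith
      have hRle : R ≤ Rm := hR e he
      have hθ0 : 0 ≤ θ := Th_nonneg t hr e
      let Sj : E → Finset E := fun j => S.filter fun f => ¬ t j f
      let θj : E → ℝ := fun j => Th t r (Sj j) e
      let ρj : E → ℝ := fun j => ∑ f ∈ S, T t j f * (T t e f * r f)
      have hRj : ∀ j ∈ S, Rw t r (Sj j) e = R - ρj j := by
        intro j _
        simp only [Sj, ρj, hRdef]
        unfold Rw
        rw [sum_filter_not_t, ← sum_sub_distrib]
        refine sum_congr rfl fun f _ => by ring
      -- termwise lower bound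
      have hterm : ∀ j ∈ S, (r j / ρS) * (T t e j * 0 + (1 - T t e j) * (r e *
          (1 / R * (1 + κ * θ) + ρj j / R ^ 2 - κ * (θ - θj j) / R)))
          + (if e = j then r e / ρS else 0) ≤
          (r j / ρS) * (if e = j then 1 else if t j e then 0 else mj j e) := by
        intro j hj
        have hrj := hr j hj
        by_cases hej : e = j
        · subst hej
          rw [T_of t e e (trefl e)]
          simp
        · simp only [hej, if_false, add_zero]
          by_cases hte : t j e
          · rw [if_pos hte, T_of t e j (tsymm _ _ hte)]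
            simp
          · have hte' : ¬ t e j := fun h => hte (tsymm _ _ h)
            rw [if_neg hte, T_of_not t e j hte']
            have hemem : e ∈ Sj j := mem_filter.2 ⟨he, hte⟩
            have hb := hmj j hj e hemem
            refine mul_le_mul_of_nonneg_left ?_ (by positivity)
            refine le_trans ?_ hb
            have hRj' := hRj j hj
            have hpos : 0 < Rw t r (Sj j) e := by
              have h1 : T t e e * r e ≤ Rw t r (Sj j) e := by
                unfold Rw
                exact single_le_sum (f := fun f => T t e f * r f)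
                  (fun f hf => mul_nonneg (T_nonneg t _ _) (hr f (mem_filter.1 hf).1).le) hemem
              rw [T_of t e e (trefl e), one_mul] at h1
              linarith
            have hρj0 : 0 ≤ ρj j := by
              refine sum_nonneg fun f hf => ?_
              have := T_nonneg t j f
              have := T_nonneg t e f
              have := hr f hf
              positivity
            have hs := step_ineq (θ := θ) (θ' := θj j) hRpos hρj0 (by linarith) hκ0.le
              (Th_nonneg t (fun f hf => hr f (mem_filter.1 hf).1) e)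
            rw [show Rw t r (S.filter fun f => ¬ t j f) e = R - ρj j from hRj']
            have : r e * (1 / R * (1 + κ * θ) + ρj j / R ^ 2 - κ * (θ - θj j) / R) ≤
                r e * (1 / (R - ρj j) * (1 + κ * θj j)) := mul_le_mul_of_nonneg_left hs hre.le
            simpa using this
      have hsum := sum_le_sum hterm
      refine le_trans ?_ hsum
      rw [sum_add_distrib, sum_ite_eq S e, if_pos he]
      -- sums
      have s1 : ∑ j ∈ S, (1 - T t e j) * r j = ρS - R := by
        rw [hρS, hRdef]; unfold Rw
        rw [← sum_sub_distrib]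
        exact sum_congr rfl fun j _ => by ring
      have s2 : ∑ j ∈ S, (1 - T t e j) * r j * ρj j = θ := by
        simp only [ρj, hθdef]
        unfold Th
        simp only [mul_sum]
        rw [sum_comm]
        refine sum_congr rfl fun j _ => ?_
        refine sum_congr rfl fun f _ => ?_
        rw [T_comm t tsymm f j]; ring
      have s3 := Th_loss t tsymm hr hR e
      have hkey : ∑ j ∈ S, (r j / ρS) * (T t e j * 0 + (1 - T t e j) * (r e *
          (1 / R * (1 + κ * θ) + ρj j / R ^ 2 - κ * (θ - θj j) / R)))
          = r e / ρS * ((ρS - R) * (1 / R * (1 + κ * θ)) + θ / R ^ 2 -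
            κ / R * ∑ j ∈ S, (1 - T t e j) * r j * (θ - θj j)) := by
        have e1 : ∀ j ∈ S, (r j / ρS) * (T t e j * 0 + (1 - T t e j) * (r e *
            (1 / R * (1 + κ * θ) + ρj j / R ^ 2 - κ * (θ - θj j) / R)))
            = r e / ρS * ((1 - T t e j) * r j * (1 / R * (1 + κ * θ)) +
              (1 - T t e j) * r j * ρj j / R ^ 2 -
              κ / R * ((1 - T t e j) * r j * (θ - θj j))) := by
          intro j _
          field_simp
          ring
        rw [sum_congr rfl e1, ← mul_sum, sum_sub_distrib, sum_add_distrib, ← sum_mul, ← sum_div,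
          ← mul_sum, s1, s2]
      rw [hkey]
      have h5 : r e * (1 / R * (1 + κ * θ)) = r e / ρS * (ρS * (1 / R * (1 + κ * θ))) := by
        field_simp
      rw [h5]
      have h6 : r e / ρS * (ρS * (1 / R * (1 + κ * θ))) ≤ r e / ρS *
          ((ρS - R) * (1 / R * (1 + κ * θ)) + θ / R ^ 2 -
            κ / R * ∑ j ∈ S, (1 - T t e j) * r j * (θ - θj j) + 1) := by
        refine mul_le_mul_of_nonneg_left ?_ (by positivity)
        have h7 : R * (1 / R * (1 + κ * θ)) = 1 + κ * θ := by field_simp
        have h8 : κ / R * ∑ j ∈ S, (1 - T t e j) * r j * (θ - θj j) ≤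
            κ / R * (2 * Rm * θ) := mul_le_mul_of_nonneg_left s3 (by positivity)
        have h9 : κ * θ + κ / R * (2 * Rm * θ) ≤ θ / R ^ 2 := by
          rw [le_div_iff₀ (by positivity)]
          have : (κ * θ + κ / R * (2 * Rm * θ)) * R ^ 2 = κ * θ * (R ^ 2 + 2 * Rm * R) := by
            field_simp
          rw [this]
          have h10 : R ^ 2 + 2 * Rm * R ≤ 3 * Rm ^ 2 := by nlinarith
          have h11 : κ * (3 * Rm ^ 2) = 1 := by rw [hκ]; field_simp
          calc κ * θ * (R ^ 2 + 2 * Rm * R) ≤ κ * θ * (3 * Rm ^ 2) :=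
                mul_le_mul_of_nonneg_left h10 (by positivity)
            _ = θ := by rw [mul_right_comm, h11, one_mul]
        nlinarith
      refine h6.trans (le_of_eq ?_)
      ring

end Pool.Agent.H34.FKS
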