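import Pool.Agent.H34.FKS.Struct

/-!
# The Füredi–Kahn–Seymour bound with coefficient `|e| - 1 + O(|e|^(-1/9))`
-/

set_option autoImplicit false
set_option linter.unusedSectionVars false

namespace Pool.Agent.H34.FKS

open Finset

variable {V E : Type} [Fintype V] [DecidableEq V] [Fintype E] [DecidableEq E]

/-- indicator of `e` is not touched by `I` -/
def fr (t : E → E → Prop) [DecidableRel t] (I : Finset E) (e : E) : ℝ :=
  if ∀ f ∈ I, ¬ t e f then 1 else 0

lemma fr_cases (t : E → E → Prop) [DecidableRel t] (I : Finset E) (e : E) :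
    fr t I e = 0 ∨ fr t I e = 1 := by
  unfold fr; split_ifs <;> simp

lemma free_prob (t : E → E → Prop) [DecidableRel t] {S : Finset E} {y : E → ℝ}
    {p : Finset E → ℝ} (p0 : ∀ I, 0 ≤ p I) (ps : ∀ I, p I ≠ 0 → I ⊆ S ∧ Indep t I)
    (p1 : ∑ I, p I = 1) (pm : ∀ e ∈ S, ∑ I with e ∈ I, p I = y e) (e : E) :
    1 - ∑ f ∈ S, T t e f * y f ≤ ∑ I, p I * fr t I e := by
  have h1 : ∀ I ∈ (univ : Finset (Finset E)),
      p I * (1 - ∑ f ∈ S, T t e f * (if f ∈ I then 1 else 0)) ≤ p I * fr t I e := by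
    intro I _
    by_cases hp : p I = 0
    · simp [hp]
    · refine mul_le_mul_of_nonneg_left ?_ (p0 I)
      have h0 : ∀ f ∈ S, 0 ≤ T t e f * (if f ∈ I then (1 : ℝ) else 0) := by
        intro f _
        refine mul_nonneg (T_nonneg t _ _) ?_
        split_ifs <;> norm_num
      unfold fr
      split_ifs with h
      · linarith [sum_nonneg h0]
      · push Not at h
        obtain ⟨f, hf, htf⟩ := h
        have hfS := (ps I hp).1 hf
        have h2 := single_le_sum h0 hfS
        rw [T_of t e f htf, if_pos hf, one_mul] at h2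
        linarith
  refine le_trans (le_of_eq ?_) (sum_le_sum h1)
  simp only [mul_sub, mul_one, sum_sub_distrib, p1, mul_sum]
  congr 1
  rw [sum_comm]
  refine sum_congr rfl fun f hf => ?_
  rw [← pm f hf, sum_filter, mul_sum]
  refine sum_congr rfl fun I _ => ?_
  by_cases h : f ∈ I <;> simp [h]
  ring

lemma good_singleton (t : E → E → Prop) (e : E) (m : E → ℝ) (hm : m e = 1) :
    Good t {e} m := by
  refine good_of_family (ι := Unit) univ (fun _ => 1) (fun _ => {e}) (by simp) (by simp) ?_ ?_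
  · intro _ _ _
    refine ⟨subset_rfl, ?_⟩
    intro a ha b hb hab
    rw [mem_singleton] at ha hb
    exact absurd (ha.trans hb.symm) hab
  · intro a ha
    rw [mem_singleton] at ha
    subst ha
    simp [hm]

/-- Single edge reduction. -/
lemma reduce {t : E → E → Prop} [DecidableRel t] (tsymm : ∀ e f, t e f → t f e)
    (trefl : ∀ e, t e e) {S : Finset E} {y : E → ℝ} (hy : ∀ e, 0 ≤ y e) {e : E} (he : e ∈ S)
    (hgood : Good t (S.erase e) y) (hA : ∑ f ∈ S, T t e f * y f ≤ 1) : Good t S y := by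
  obtain ⟨p, p0, ps, p1, pm⟩ := hgood
  have hdis : Disjoint (S.erase e) {e} := by
    rw [disjoint_singleton_right]; exact notMem_erase e S
  have h := Good.extend tsymm (S := S.erase e) (F := {e}) hdis (y := y) p p0 ps p1 pm
    (fun _ _ => 1) ?_ (fun f _ => hy f) ?_
  · have hun : S.erase e ∪ {e} = S := by
      ext f
      simp only [mem_union, mem_erase, mem_singleton]
      constructor
      · rintro (h | h)
        · exact h.2
        · rw [h]; exact he
      · intro h
        by_cases hfe : f = e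
        · exact Or.inr hfe
        · exact Or.inl ⟨hfe, h⟩
    rwa [hun] at h
  · intro I _
    by_cases hfree : ∀ f ∈ I, ¬ t e f
    · rw [filter_singleton, if_pos hfree]
      exact good_singleton t e _ rfl
    · rw [filter_singleton, if_neg hfree]
      exact good_empty t _
  · intro f hf
    rw [mem_singleton] at hf
    subst hf
    have h1 := free_prob t p0 ps p1 pm f
    have h2 : ∑ h ∈ S, T t f h * y h = T t f f * y f + ∑ h ∈ S.erase f, T t f h * y h :=
      (add_sum_erase S _ he).symm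
    rw [T_of t f f (trefl f), one_mul] at h2
    have h3 : ∑ I, p I * fr t I f = ∑ I, p I * (if ∀ h ∈ I, ¬ t f h then 1 else 0) := rfl
    rw [← h3]
    linarith

/-- Extension to the edges of the smallest size. -/
lemma extension_step (H : E → Finset V) (hne : ∀ e, (H e).Nonempty) {x y : E → ℝ}
    (hx : ∀ e, 0 < x e) {S F : Finset E} (hSF : Disjoint S F)
    (hdeg : ∀ v, deg H (S ∪ F) x v ≤ 1) {k : ℕ} {ε : ℝ} (hε0 : 0 < ε) (hε1 : ε ≤ 1)
    (hk : ∀ f ∈ F, (H f).card = k)
    (hk9 : 4251648 ≤ ((k : ℝ) - 1) * ε ^ 9)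
    (hyF : ∀ f ∈ F, y f * ((k : ℝ) - 1 + ε) = x f)
    (hyS : ∀ f ∈ S, y f * ((k : ℝ) + ε / 2) ≤ x f)
    (hy : ∀ f, 0 < y f)
    (hA1 : ∀ e ∈ F, 1 < ∑ f ∈ S ∪ F, T (touch H) e f * y f)
    (hgood : Good (touch H) S y) : Good (touch H) (S ∪ F) y := by
  set t := touch H with ht
  have tsymm : ∀ e f, t e f → t f e := touch_symm H
  have trefl : ∀ e, t e e := fun e h => (hne e).ne_empty (disjoint_self.1 h)
  obtain ⟨p, p0, ps, p1, pm⟩ := hgood
  set G : ℝ := (k : ℝ) - 1 + ε with hG
  have hε9 : ε ^ 9 ≤ 1 := pow_le_one₀ hε0.le hε1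
  have hk1 : 4251648 ≤ (k : ℝ) - 1 := by
    have h0 : 0 < ε ^ 9 := by positivity
    have h1 : 0 < (k : ℝ) - 1 := by
      by_contra h
      push Not at h
      have : ((k : ℝ) - 1) * ε ^ 9 ≤ 0 := mul_nonpos_of_nonpos_of_nonneg h h0.le
      linarith
    have : ((k : ℝ) - 1) * ε ^ 9 ≤ ((k : ℝ) - 1) * 1 := mul_le_mul_of_nonneg_left hε9 h1.le
    linarith
  have hk1pos : 0 < (k : ℝ) - 1 := by linarith
  have hGpos : 0 < G := by linarith
  set β : ℝ := 1 / ((k : ℝ) - 1) with hβ
  have hβ0 : 0 < β := by positivity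
  have hβk : β * ((k : ℝ) - 1) = 1 := by rw [hβ]; field_simp
  -- `β` is tiny
  set ε₁ : ℝ := ε / 2 with hε₁
  have hε₁0 : 0 < ε₁ := by positivity
  have hε₁1 : ε₁ ≤ 1 / 2 := by linarith
  have hβε : 8304 * β ≤ ε₁ ^ 9 := by
    have h1 : ε₁ ^ 9 = ε ^ 9 / 512 := by rw [hε₁]; ring
    rw [h1, hβ, le_div_iff₀ (by norm_num), mul_one_div, div_mul_eq_mul_div,
      div_le_iff₀ hk1pos]
    linarith
  have hε₁9 : ε₁ ^ 9 ≤ ε₁ := by
    have : ε₁ ^ 9 = ε₁ * ε₁ ^ 8 := by ring
    rw [this]
    have h2 : ε₁ ^ 8 ≤ 1 := pow_le_one₀ hε₁0.le (by linarith)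
    nlinarith
  -- the lists
  let A : Finset E → E → ℝ := fr t
  have hA : ∀ s e, A s e = 0 ∨ A s e = 1 := fr_cases t
  let l : E → ℝ := fun e => ell p A e
  let B : E → ℝ := fun e => ∑ h ∈ S, T t e h * y h
  let Te : E → ℝ := fun e => ∑ h ∈ F, x h * ((H e ∩ H h).card : ℝ)
  let Q : E → ℝ := fun e => ∑ h ∈ F, x h * (((H e ∩ H h).card - 1 : ℕ) : ℝ)
  have hTe0 : ∀ e, 0 ≤ Te e := fun e => sum_nonneg fun h _ =>
    mul_nonneg (hx h).le (Nat.cast_nonneg _)
  have hQ0 : ∀ e, 0 ≤ Q e := fun e => sum_nonneg fun h _ =>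
    mul_nonneg (hx h).le (Nat.cast_nonneg _)
  have hl : ∀ e, 1 - B e ≤ l e := fun e => free_prob t p0 ps p1 pm e
  have hB : ∀ e ∈ F, B e * ((k : ℝ) + ε / 2) + Te e ≤ k := by
    intro e he
    have h1 : ∑ h ∈ S ∪ F, x h * ((H e ∩ H h).card : ℝ) ≤ k := by
      rw [← sum_deg_edge]
      calc ∑ v ∈ H e, deg H (S ∪ F) x v ≤ ∑ v ∈ H e, (1 : ℝ) := sum_le_sum fun v _ => hdeg v
        _ = k := by rw [sum_const, hk e he]; simp
    rw [sum_union hSF] at h1
    have h2 : B e * ((k : ℝ) + ε / 2) ≤ ∑ h ∈ S, x h * ((H e ∩ H h).card : ℝ) := by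
      simp only [B]
      rw [sum_mul]
      refine sum_le_sum fun h hh => ?_
      have h3 := T_le_card H e h
      have h4 := hyS h hh
      have h5 := T_nonneg t e h
      calc T t e h * y h * ((k : ℝ) + ε / 2) = T t e h * (y h * ((k : ℝ) + ε / 2)) := by ring
        _ ≤ T t e h * x h := mul_le_mul_of_nonneg_left h4 h5
        _ ≤ ((H e ∩ H h).card : ℝ) * x h := mul_le_mul_of_nonneg_right h3 (hx h).le
        _ = _ := by ring
    simp only [Te]
    linarith
  have hTQ : ∀ e, (∑ h ∈ F, T t e h * y h) * G = Te e - Q e := by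
    intro e
    simp only [Te, Q]
    rw [sum_mul, ← sum_sub_distrib]
    refine sum_congr rfl fun h hh => ?_
    rw [mul_assoc, hyF h hh, ← mul_sub, mul_comm]
    congr 1
    by_cases hd : t e h
    · rw [T_of t e h hd]
      have h1 : (H e ∩ H h).card ≠ 0 := by
        rw [ht] at hd
        unfold touch at hd
        rw [disjoint_iff_inter_eq_empty] at hd
        exact fun h => hd (card_eq_zero.1 h)
      have h2 : 1 ≤ (H e ∩ H h).card := Nat.one_le_iff_ne_zero.2 h1
      rw [Nat.cast_sub h2]; simp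
    · rw [T_of_not t e h hd]
      have h1 : H e ∩ H h = ∅ := by
        rw [ht] at hd
        unfold touch at hd
        rw [not_not, disjoint_iff_inter_eq_empty] at hd
        exact hd
      simp [h1]
  have hkε : 0 < (k : ℝ) + ε / 2 := by linarith
  have hBlo : ∀ e ∈ F, Te e + ε / 2 ≤ (1 - B e) * ((k : ℝ) + ε / 2) := by
    intro e he
    have := hB e he
    nlinarith
  have hlB : ∀ e ∈ F, 0 < 1 - B e := by
    intro e he
    have h1 := hBlo e he
    have h2 := hTe0 e
    by_contra h
    push Not at h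
    have : (1 - B e) * ((k : ℝ) + ε / 2) ≤ 0 := mul_nonpos_of_nonpos_of_nonneg h hkε.le
    linarith
  have hQl : ∀ e ∈ F, Q e ≤ l e - ε₁ := by
    intro e he
    have h1 := hA1 e he
    rw [sum_union hSF] at h1
    have h2 : 1 - B e < ∑ h ∈ F, T t e h * y h := by simp only [B]; linarith
    have h3 : (1 - B e) * G < Te e - Q e := by
      rw [← hTQ e]; exact mul_lt_mul_of_pos_right h2 hGpos
    have h4 := hBlo e he
    have h5 := hlB e he
    have h6 := hl e
    have h7 : (1 - B e) * ((k : ℝ) + ε / 2) ≤ (1 - B e) * (G + 1) := by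
      refine mul_le_mul_of_nonneg_left ?_ h5.le
      rw [hG]; linarith
    rw [hε₁]
    nlinarith
  have hl0 : ∀ e ∈ F, ε₁ ≤ l e := by
    intro e he
    have h1 := hQl e he
    have h2 := hQ0 e
    linarith
  have hl1 : ∀ e, l e ≤ 1 := ell_le_one p0 p1 hA
  have hlpos : ∀ e ∈ F, 0 < l e := fun e he => lt_of_lt_of_le hε₁0 (hl0 e he)
  let r : E → ℝ := fun e => y e / l e
  have hr : ∀ e ∈ F, 0 < r e := fun e he => div_pos (hy e) (hlpos e he)
  have hrl : ∀ e ∈ F, r e * ell p A e = y e := by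
    intro e he
    have := hlpos e he
    simp only [r]
    exact div_mul_cancel₀ _ this.ne'
  have hGrl : ∀ e ∈ F, G * (r e * ell p A e) = x e := by
    intro e he
    rw [hrl e he, mul_comm]; exact hyF e he
  have hsum_rl : ∀ e, ∑ f ∈ F, T t e f * (r f * ell p A f) = ∑ f ∈ F, T t e f * y f := by
    intro e
    exact sum_congr rfl fun f hf => by rw [hrl f hf]
  have H1 : ∀ e ∈ F, ∑ f ∈ F, T t e f * (r f * ell p A f) ≤ (1 + β) * ell p A e := by
    intro e he
    rw [hsum_rl]
    have h1 := hTQ e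
    have h2 := hQ0 e
    have h3 := hBlo e he
    have h4 := hl e
    have h5 := hlB e he
    have h6 := hTe0 e
    -- T_e ≤ k (1 - B)
    have h7 : Te e ≤ k * (1 - B e) := by
      have h8 : 0 ≤ B e := sum_nonneg fun h _ => mul_nonneg (T_nonneg t _ _) (hy h).le
      nlinarith
    have h8 : (∑ h ∈ F, T t e h * y h) * G ≤ k * l e := by
      rw [h1]
      have : (k : ℝ) * (1 - B e) ≤ k * l e := mul_le_mul_of_nonneg_left h4 (by linarith)
      linarith
    have h9 : (k : ℝ) ≤ (1 + β) * G := by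
      rw [hG]
      have : (1 + β) * ((k : ℝ) - 1 + ε) = (k - 1) + β * (k - 1) + ε + β * ε := by ring
      rw [this, hβk]
      have : 0 < β * ε := by positivity
      linarith
    have h10 : (∑ h ∈ F, T t e h * y h) * G ≤ ((1 + β) * l e) * G := by
      refine h8.trans ?_
      have : (k : ℝ) * l e ≤ ((1 + β) * G) * l e :=
        mul_le_mul_of_nonneg_right h9 (hlpos e he).le
      linarith
    exact le_of_mul_le_mul_right h10 hGpos
  set Rm : ℝ := 9 / 8 / ε₁ with hRm
  have hRm2 : 2 ≤ Rm := by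
    rw [hRm, le_div_iff₀ hε₁0]; linarith
  have hβ8 : β ≤ 1 / 8 := by
    have : ε₁ ^ 9 ≤ 1 := pow_le_one₀ hε₁0.le (by linarith)
    linarith
  have H2 : ∀ s, ∀ e ∈ F, Rs t F A r s e ≤ Rm := by
    intro s e he
    have h1 : Rs t F A r s e ≤ ∑ f ∈ F, T t e f * y f / ε₁ := by
      unfold Rs
      refine sum_le_sum fun f hf => ?_
      have h2 := T_nonneg t e f
      have h3 := A_le_one hA s f
      have h4 := (hr f hf).le
      have h5 : r f ≤ y f / ε₁ :=
        div_le_div_of_nonneg_left (hy f).le hε₁0 (hl0 f hf)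
      have h6 : A s f * r f ≤ y f / ε₁ := by
        have h7 := A_nonneg hA s f
        nlinarith
      calc T t e f * (A s f * r f) ≤ T t e f * (y f / ε₁) := mul_le_mul_of_nonneg_left h6 h2
        _ = _ := by ring
    refine h1.trans ?_
    rw [← sum_div, hRm]
    refine div_le_div_of_nonneg_right ?_ hε₁0.le
    have h2 := H1 e he
    rw [hsum_rl] at h2
    have h3 := hl1 e
    have h4 : (1 + β) * ell p A e ≤ (1 + β) * 1 := mul_le_mul_of_nonneg_left h3 (by linarith)
    linarith
  have H3 : ∀ s, p s ≠ 0 → ∀ e ∈ F, A s e = 1 → ε₁ ^ 4 / 64 ≤ Z t F p A r s e := by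
    intro s _ e _ _
    refine Z_lower H (k := k) (g := G) (β := β) p0 hA hr hl0 (fun f _ => hl1 f) hk ?_ ?_
      hGpos ?_ ?_ hε₁0 hε₁1 (by linarith) s e
    · intro v
      refine le_trans ?_ (hdeg v)
      unfold deg
      rw [sum_union hSF]
      have h1 : 0 ≤ ∑ f ∈ S, x f * (if v ∈ H f then (1 : ℝ) else 0) := by
        refine sum_nonneg fun f _ => mul_nonneg (hx f).le ?_
        split_ifs <;> norm_num
      have h2 : ∑ f ∈ F, G * (r f * ell p A f) * (if v ∈ H f then (1 : ℝ) else 0) =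
          ∑ f ∈ F, x f * (if v ∈ H f then (1 : ℝ) else 0) :=
        sum_congr rfl fun f hf => by rw [hGrl f hf]
      rw [h2]; linarith
    · intro f hf
      have h1 : ∑ h ∈ F, G * (r h * ell p A h) * (((H f ∩ H h).card - 1 : ℕ) : ℝ) = Q f :=
        sum_congr rfl fun h hh => by rw [hGrl h hh]
      rw [h1]; exact hQl f hf
    · rw [hG]
      have : (1 + β) * ((k : ℝ) - 1 + ε) = (k - 1) + β * (k - 1) + ε + β * ε := by ring
      rw [this, hβk]
      have : 0 < β * ε := by positivity
      linarith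
    · rw [hG, mul_add, hβk]
      have : 0 < β * ε := by positivity
      linarith
  have hβδ : 72 * Rm ^ 5 * β ≤ ε₁ ^ 4 / 64 := by
    have h1 : 72 * Rm ^ 5 * β = 72 * (9 / 8) ^ 5 * β / ε₁ ^ 5 := by
      rw [hRm, div_pow (9 / 8 : ℝ) ε₁ 5]; ring
    rw [h1, div_le_iff₀ (by positivity)]
    have h2 : ε₁ ^ 4 / 64 * ε₁ ^ 5 = ε₁ ^ 9 / 64 := by ring
    rw [h2, le_div_iff₀ (by norm_num)]
    have h3 : (72 * (9 / 8) ^ 5 * β) * 64 ≤ 8304 * β := by
      have : (72 * (9 / 8 : ℝ) ^ 5) * 64 ≤ 8304 := by norm_num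
      nlinarith
    linarith
  obtain ⟨m, hm, hb⟩ := avg_main t tsymm trefl p0 p1 hA hr hlpos hRm2 hβ0.le (by linarith)
    H1 H2 H3 hβδ
  refine Good.extend tsymm hSF p p0 ps p1 pm m ?_ (fun e _ => (hy e).le) ?_
  · intro I _
    have h1 := hm I
    have h2 : (F.filter fun e => A I e = 1) = F.filter fun e => ∀ f ∈ I, ¬ t e f := by
      ext e
      simp only [mem_filter, A, fr]
      refine and_congr_right fun _ => ?_
      split_ifs with h
      · exact ⟨fun _ => h, fun _ => rfl⟩
      · exact ⟨fun h' => absurd h' (by norm_num), fun h' => absurd h' h⟩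
    rwa [h2] at h1
  · intro e he
    have h1 := hb e he
    rw [hrl e he] at h1
    refine h1.trans (le_of_eq ?_)
    refine sum_congr rfl fun I _ => ?_
    simp only [A, fr]
    split_ifs <;> simp

/-- Admissible coefficient functions. -/
def Coeff (g : ℕ → ℝ) : Prop := ∀ k : ℕ, 1 ≤ k → 0 < g k ∧
  ((∀ j, k ≤ j → (k : ℝ) ≤ g j) ∨
   ∃ ε : ℝ, 0 < ε ∧ ε ≤ 1 ∧ g k = k - 1 + ε ∧ (∀ j, k < j → (k : ℝ) + ε / 2 ≤ g j) ∧
    4251648 ≤ ((k : ℝ) - 1) * ε ^ 9)

theorem good_of_coeff {g : ℕ → ℝ} (hg : Coeff g) (H : E → Finset V)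
    (hne : ∀ e, (H e).Nonempty) {x : E → ℝ} (hx : ∀ e, 0 < x e)
    (hdeg : ∀ v, deg H univ x v ≤ 1) (S : Finset E) :
    Good (touch H) S (fun e => x e / g (H e).card) := by
  have tsymm : ∀ e f, touch H e f → touch H f e := touch_symm H
  have trefl : ∀ e, touch H e e := fun e h => (hne e).ne_empty (disjoint_self.1 h)
  have hgpos : ∀ e, 0 < g (H e).card := fun e => (hg _ (card_pos.2 (hne e))).1
  set y : E → ℝ := fun e => x e / g (H e).card with hydef
  have hy : ∀ e, 0 < y e := fun e => div_pos (hx e) (hgpos e)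
  have hdegS : ∀ S : Finset E, ∀ v, deg H S x v ≤ 1 := by
    intro S v
    refine le_trans ?_ (hdeg v)
    unfold deg
    refine sum_le_sum_of_subset_of_nonneg (subset_univ _) fun f _ _ => ?_
    refine mul_nonneg (hx f).le ?_
    split_ifs <;> norm_num
  induction S using Finset.strongInduction with
  | H S ih =>
    rcases S.eq_empty_or_nonempty with rfl | hSne
    · exact good_empty _ _
    obtain ⟨e0, he0, hmin⟩ := S.exists_min_image (fun e => (H e).card) hSne
    set k := (H e0).card with hk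
    by_cases hex : ∃ e ∈ S, (H e).card = k ∧ ∑ f ∈ S, T (touch H) e f * y f ≤ 1
    · obtain ⟨e, he, _, hA⟩ := hex
      exact reduce tsymm trefl (fun e => (hy e).le) he (ih _ (erase_ssubset he)) hA
    · push Not at hex
      have hk1 : 1 ≤ k := card_pos.2 (hne e0)
      obtain ⟨_, ha | ⟨ε, hε0, hε1, hgk, hgj, hk9⟩⟩ := hg k hk1
      · exfalso
        have h1 := hex e0 he0 rfl
        have h2 : ∑ f ∈ S, T (touch H) e0 f * y f ≤ 1 := by
          have hkpos : (0 : ℝ) < k := by exact_mod_cast hk1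
          have h3 : ∀ f ∈ S, T (touch H) e0 f * y f ≤ x f * ((H e0 ∩ H f).card : ℝ) / k := by
            intro f hf
            have h4 := T_le_card H e0 f
            have h5 : y f ≤ x f / k :=
              div_le_div_of_nonneg_left (hx f).le hkpos (ha _ (hmin f hf))
            have h6 := T_nonneg (touch H) e0 f
            calc T (touch H) e0 f * y f ≤ ((H e0 ∩ H f).card : ℝ) * (x f / k) :=
                  mul_le_mul h4 h5 (hy f).le (Nat.cast_nonneg _)
              _ = _ := by ring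
          refine (sum_le_sum h3).trans ?_
          rw [← sum_div, div_le_one hkpos, ← sum_deg_edge]
          calc ∑ v ∈ H e0, deg H S x v ≤ ∑ v ∈ H e0, (1 : ℝ) := sum_le_sum fun v _ => hdegS S v
            _ = k := by rw [sum_const, hk]; simp
        linarith
      · set F := S.filter fun f => (H f).card = k with hF
        set S0 := S.filter fun f => ¬ (H f).card = k with hS0
        have hun : S0 ∪ F = S := by
          rw [union_comm]; exact filter_union_filter_not_eq _ _
        have hdis : Disjoint S0 F := by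
          rw [disjoint_comm]; exact disjoint_filter_filter_not _ _ _
        have hss : S0 ⊂ S := filter_ssubset.2 ⟨e0, he0, by simp [hk]⟩
        rw [← hun]
        refine extension_step H hne hx hdis (hdegS _) hε0 hε1
          (fun f hf => (mem_filter.1 hf).2) hk9 ?_ ?_ hy ?_ (ih _ hss)
        · intro f hf
          have h1 : (H f).card = k := (mem_filter.1 hf).2
          simp only [y]
          rw [h1, hgk]
          have : (0 : ℝ) < k - 1 + ε := by rw [← hgk, ← h1]; exact hgpos f
          field_simp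
        · intro f hf
          obtain ⟨hfS, hne'⟩ := mem_filter.1 hf
          have h1 : k < (H f).card := lt_of_le_of_ne (hmin f hfS) (Ne.symm hne')
          have h2 := hgj _ h1
          simp only [y]
          rw [div_mul_eq_mul_div, div_le_iff₀ (hgpos f)]
          exact mul_le_mul_of_nonneg_left h2 (hx f).le
        · intro e he
          obtain ⟨heS, hek⟩ := mem_filter.1 he
          rw [hun]
          exact hex e heS hek

end Pool.Agent.H34.FKS
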