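import Mathlib
import Pool.Agent.H34.FKS.Main

/-!
# The asymptotic coefficient `k - 1 + 6 k^(-1/9)` and fractional colourings
-/

set_option autoImplicit false

namespace Pool.Agent.H34.FKS

open Finset

variable {V E : Type} [Fintype V] [DecidableEq V] [Fintype E] [DecidableEq E]

/-- The coefficient `min k (k - 1 + 6 k^(-1/9))`. -/
noncomputable def g0 (k : ℕ) : ℝ := min (k : ℝ) ((k : ℝ) - 1 + 6 * (k : ℝ) ^ (-(1 / 9) : ℝ))

theorem coeff_g0 : Coeff g0 := by
  intro k hk
  have hk1 : (1 : ℝ) ≤ k := by exact_mod_cast hk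
  have hkp : (0 : ℝ) < k := by linarith
  set c : ℝ := 6 * (k : ℝ) ^ (-(1 / 9) : ℝ) with hc
  have hc0 : 0 < c := by positivity
  have hge : ∀ j : ℕ, 1 ≤ j → (j : ℝ) - 1 ≤ g0 j := by
    intro j hj
    have hj1 : (1 : ℝ) ≤ j := by exact_mod_cast hj
    refine le_min (by linarith) ?_
    have : (0 : ℝ) ≤ (j : ℝ) ^ (-(1 / 9) : ℝ) := by positivity
    linarith
  refine ⟨lt_min hkp (by linarith), ?_⟩
  rcases le_or_gt 1 c with h | h
  · left
    intro j hj
    rcases hj.eq_or_lt with rfl | hj'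
    · exact le_min le_rfl (by linarith)
    · have h1 := hge j (by omega)
      have h2 : (k : ℝ) + 1 ≤ j := by exact_mod_cast hj'
      linarith
  · right
    refine ⟨c, hc0, h.le, ?_, ?_, ?_⟩
    · exact min_eq_right (by linarith)
    · intro j hj
      have h2 : (k : ℝ) + 1 ≤ j := by exact_mod_cast hj
      refine le_min (by linarith) ?_
      rcases (Nat.succ_le_of_lt hj).eq_or_lt with h3 | h3
      · have h4 : (j : ℝ) = k + 1 := by rw [← h3]; push_cast; ring
        have h5 : (1 / 2 : ℝ) * (k : ℝ) ^ (-(1 / 9) : ℝ) ≤ (j : ℝ) ^ (-(1 / 9) : ℝ) := by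
          have h6 : ((2 : ℝ) * k) ^ (-(1 / 9) : ℝ) ≤ (j : ℝ) ^ (-(1 / 9) : ℝ) :=
            Real.rpow_le_rpow_of_nonpos (by linarith) (by rw [h4]; linarith) (by norm_num)
          have h7 : ((2 : ℝ) * k) ^ (-(1 / 9) : ℝ)
              = (2 : ℝ) ^ (-(1 / 9) : ℝ) * (k : ℝ) ^ (-(1 / 9) : ℝ) :=
            Real.mul_rpow (by norm_num) hkp.le
          have h8 : (1 / 2 : ℝ) ≤ (2 : ℝ) ^ (-(1 / 9) : ℝ) := by
            have h9 : (2 : ℝ) ^ (-1 : ℝ) ≤ (2 : ℝ) ^ (-(1 / 9) : ℝ) :=
              Real.rpow_le_rpow_of_exponent_le (by norm_num) (by norm_num)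
            rw [Real.rpow_neg_one] at h9
            linarith
          have h10 : (0 : ℝ) ≤ (k : ℝ) ^ (-(1 / 9) : ℝ) := by positivity
          nlinarith
        rw [h4] at h5 ⊢
        rw [hc]
        linarith
      · have h4 : (k : ℝ) + 2 ≤ j := by exact_mod_cast h3
        have : (0 : ℝ) ≤ (j : ℝ) ^ (-(1 / 9) : ℝ) := by positivity
        linarith
    · have h1 : c ^ 9 = 10077696 / k := by
        rw [hc, mul_pow, ← Real.rpow_natCast, ← Real.rpow_natCast, ← Real.rpow_mul hkp.le]
        norm_num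
        rw [Real.rpow_neg_one]
        ring
      have hk2 : (2 : ℝ) ≤ k := by
        by_contra hlt
        push Not at hlt
        have : k = 1 := by
          have : k < 2 := by exact_mod_cast hlt
          omega
        rw [hc, this] at h
        norm_num at h
      rw [h1, mul_div_assoc', le_div_iff₀ hkp]
      linarith

/-- From a good vector to a fractional colouring. -/
theorem coloring_of_good (H : E → Finset V) (hne : ∀ e, (H e).Nonempty) {g : ℕ → ℝ}
    (hg : Coeff g) :
    ∃ w : Finset E → ℝ, (∀ M, 0 ≤ w M) ∧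
      (∀ M, w M ≠ 0 → ∀ e ∈ M, ∀ f ∈ M, e ≠ f → Disjoint (H e) (H f)) ∧
      (∀ e, 1 ≤ ∑ M with e ∈ M, w M) ∧
      ∑ M, w M ≤ ⨆ v : V, ∑ e with v ∈ H e, g (H e).card := by
  rcases isEmpty_or_nonempty E with hE | hE
  · refine ⟨0, by simp, by simp, fun e => (hE.false e).elim, ?_⟩
    simp
  · set D : ℝ := ⨆ v : V, ∑ e with v ∈ H e, g (H e).card with hD
    have hgpos : ∀ e, 0 < g (H e).card := fun e => (hg _ (card_pos.2 (hne e))).1
    have hle : ∀ v : V, ∑ e with v ∈ H e, g (H e).card ≤ D := fun v =>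
      le_ciSup (f := fun v : V => ∑ e with v ∈ H e, g (H e).card)
        (Set.finite_range _).bddAbove v
    have hD0 : 0 < D := by
      obtain ⟨e0⟩ := hE
      obtain ⟨v, hv⟩ := hne e0
      refine lt_of_lt_of_le ?_ (hle v)
      exact sum_pos (fun e _ => hgpos e) ⟨e0, by simp [hv]⟩
    have hx : ∀ e, 0 < g (H e).card / D := fun e => div_pos (hgpos e) hD0
    have hdeg : ∀ v, deg H univ (fun e => g (H e).card / D) v ≤ 1 := by
      intro v
      have h1 : deg H univ (fun e => g (H e).card / D) v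
          = (∑ e with v ∈ H e, g (H e).card) / D := by
        unfold deg
        rw [sum_div, sum_filter]
        refine sum_congr rfl fun e _ => ?_
        split_ifs <;> simp
      rw [h1, div_le_one hD0]
      exact hle v
    obtain ⟨p, hp0, hps, hp1, hpe⟩ := good_of_coeff hg H hne hx hdeg univ
    refine ⟨fun M => D * p M, fun M => mul_nonneg hD0.le (hp0 M), ?_, ?_, ?_⟩
    · intro M hM e he f hf hef
      have h1 := (hps M (right_ne_zero_of_mul hM)).2 e he f hf hef
      unfold touch at h1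
      exact not_not.1 h1
    · intro e
      rw [← mul_sum, hpe e (mem_univ e)]
      have := hgpos e
      refine le_of_eq ?_
      field_simp
    · rw [← mul_sum, hp1, mul_one]

end Pool.Agent.H34.FKS
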