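import Mathlib

/-!
# Convex combinations of independent sets

`Good t S m`: the restriction of `m` to `S` is a convex combination of (indicators of)
`t`-independent subsets of `S`.
-/

set_option autoImplicit false

namespace Pool.Agent.H34.FKS

open Finset

variable {E : Type} [Fintype E] [DecidableEq E]

/-- `I` is independent for the relation `t` (touch), on distinct elements. -/
def Indep (t : E → E → Prop) (I : Finset E) : Prop :=
  ∀ e ∈ I, ∀ f ∈ I, e ≠ f → ¬ t e f

/-- `m` restricted to `S` is a convex combination of independent subsets of `S`. -/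
def Good (t : E → E → Prop) (S : Finset E) (m : E → ℝ) : Prop :=
  ∃ p : Finset E → ℝ, (∀ I, 0 ≤ p I) ∧ (∀ I, p I ≠ 0 → I ⊆ S ∧ Indep t I) ∧
    ∑ I, p I = 1 ∧ ∀ e ∈ S, ∑ I with e ∈ I, p I = m e

omit [Fintype E] [DecidableEq E] in
lemma indep_empty (t : E → E → Prop) : Indep t (∅ : Finset E) := by
  intro e he; simp at he

omit [Fintype E] [DecidableEq E] in
lemma Indep.subset {t : E → E → Prop} {I J : Finset E} (h : Indep t I) (hJ : J ⊆ I) :
    Indep t J := fun e he f hf hne => h e (hJ he) f (hJ hf) hne

lemma good_of_family {t : E → E → Prop} {S : Finset E} {m : E → ℝ} {ι : Type*} (s : Finset ι)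
    (w : ι → ℝ) (J : ι → Finset E) (hw : ∀ i ∈ s, 0 ≤ w i) (h1 : ∑ i ∈ s, w i = 1)
    (hJ : ∀ i ∈ s, w i ≠ 0 → J i ⊆ S ∧ Indep t (J i))
    (hm : ∀ e ∈ S, ∑ i ∈ s with e ∈ J i, w i = m e) : Good t S m := by
  refine ⟨fun I => ∑ i ∈ s with J i = I, w i, ?_, ?_, ?_, ?_⟩
  · intro I; exact sum_nonneg fun i hi => hw i (mem_filter.1 hi).1
  · intro I hI
    obtain ⟨i, hi, hne⟩ := exists_ne_zero_of_sum_ne_zero hI
    obtain ⟨hs, rfl⟩ := mem_filter.1 hi
    exact hJ i hs hne
  · rw [sum_fiberwise]; exact h1
  · intro e he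
    rw [← hm e he]
    rw [← sum_fiberwise_of_maps_to (s := s.filter (fun i => e ∈ J i))
      (t := univ.filter (fun I : Finset E => e ∈ I)) (g := J) (f := w)]
    · refine sum_congr rfl fun I hI => ?_
      refine sum_congr ?_ fun _ _ => rfl
      ext i
      simp only [mem_filter, mem_univ, true_and] at hI ⊢
      constructor
      · rintro ⟨h, rfl⟩; exact ⟨⟨h, hI⟩, rfl⟩
      · rintro ⟨⟨h, _⟩, rfl⟩; exact ⟨h, rfl⟩
    · intro i hi
      simpa using (mem_filter.1 hi).2

lemma Good.congr {t : E → E → Prop} {S : Finset E} {m m' : E → ℝ} (h : Good t S m)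
    (hm : ∀ e ∈ S, m e = m' e) : Good t S m' := by
  obtain ⟨p, h0, hs, h1, hp⟩ := h
  exact ⟨p, h0, hs, h1, fun e he => (hp e he).trans (hm e he)⟩

lemma good_empty (t : E → E → Prop) (m : E → ℝ) : Good t ∅ m := by
  refine good_of_family (ι := Unit) univ (fun _ => 1) (fun _ => ∅) (by simp) (by simp) ?_ ?_
  · intro _ _ _; exact ⟨subset_rfl, indep_empty t⟩
  · intro e he; simp at he

lemma Good.nonneg {t : E → E → Prop} {S : Finset E} {m : E → ℝ} (h : Good t S m) {e : E}
    (he : e ∈ S) : 0 ≤ m e := by
  obtain ⟨p, h0, hs, h1, hp⟩ := h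
  rw [← hp e he]; exact sum_nonneg fun I _ => h0 I

lemma Good.convex {t : E → E → Prop} {S : Finset E} {m1 m2 : E → ℝ} (h1 : Good t S m1)
    (h2 : Good t S m2) {a : ℝ} (ha0 : 0 ≤ a) (ha1 : a ≤ 1) :
    Good t S (fun e => (1 - a) * m1 e + a * m2 e) := by
  obtain ⟨p, p0, ps, p1, pm⟩ := h1
  obtain ⟨q, q0, qs, q1, qm⟩ := h2
  refine ⟨fun I => (1 - a) * p I + a * q I, ?_, ?_, ?_, ?_⟩
  · intro I; have := p0 I; have := q0 I; have : 0 ≤ 1 - a := by linarith
    positivity
  · intro I hI
    by_cases hp : p I = 0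
    · by_cases hq : q I = 0
      · simp [hp, hq] at hI
      · exact qs I hq
    · exact ps I hp
  · rw [sum_add_distrib, ← mul_sum, ← mul_sum, p1, q1]; ring
  · intro e he
    rw [sum_add_distrib, ← mul_sum, ← mul_sum, pm e he, qm e he]

/-- Lowering one coordinate. -/
lemma Good.update {t : E → E → Prop} {S : Finset E} {m : E → ℝ} (h : Good t S m) {e0 : E}
    (he0 : e0 ∈ S) {a : ℝ} (ha0 : 0 ≤ a) (ha1 : a ≤ m e0) :
    Good t S (Function.update m e0 a) := by
  obtain ⟨p, p0, ps, p1, pm⟩ := h
  obtain ⟨θ, hθ0, hθ1, hθ⟩ : ∃ θ : ℝ, 0 ≤ θ ∧ θ ≤ 1 ∧ θ * m e0 = a := by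
    rcases eq_or_lt_of_le (ha0.trans ha1) with h0 | h0
    · exact ⟨0, le_rfl, zero_le_one, by linarith⟩
    · exact ⟨a / m e0, by positivity, (div_le_one h0).2 ha1, by field_simp⟩
  have key : ∀ e ∈ S, ∑ I with e ∈ I, p I = m e := pm
  refine good_of_family (ι := Finset E × Bool) univ
    (fun i => p i.1 * (if e0 ∈ i.1 then (if i.2 then θ else 1 - θ) else (if i.2 then 1 else 0)))
    (fun i => if i.2 then i.1 else i.1.erase e0) ?_ ?_ ?_ ?_
  · rintro ⟨I, b⟩ _
    have := p0 I
    have h1 : 0 ≤ 1 - θ := by linarith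
    refine mul_nonneg this ?_
    dsimp only
    split_ifs <;> first | assumption | norm_num
  · rw [Fintype.sum_prod_type]
    refine (sum_congr rfl fun I _ => ?_).trans p1
    rw [Fintype.sum_bool]
    by_cases h : e0 ∈ I <;> simp [h]
    ring
  · rintro ⟨I, b⟩ _ hne
    have hp : p I ≠ 0 := by intro h; simp [h] at hne
    obtain ⟨h1, h2⟩ := ps I hp
    cases b
    · exact ⟨(erase_subset _ _).trans h1, h2.subset (erase_subset _ _)⟩
    · exact ⟨h1, h2⟩
  · intro e he
    rw [sum_filter, Fintype.sum_prod_type]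
    by_cases hee : e = e0
    · subst hee
      rw [Function.update_self, ← hθ, ← pm e he, mul_sum, sum_filter]
      refine sum_congr rfl fun I _ => ?_
      rw [Fintype.sum_bool]
      by_cases h : e ∈ I <;> simp [h]
      ring
    · rw [Function.update_of_ne hee, ← pm e he, sum_filter]
      refine sum_congr rfl fun I _ => ?_
      rw [Fintype.sum_bool]
      by_cases h : e ∈ I <;> by_cases h' : e0 ∈ I <;> simp [h, h', hee]
      ring

/-- The set of good vectors is closed downwards. -/
lemma Good.mono {t : E → E → Prop} {S : Finset E} {m m' : E → ℝ} (h : Good t S m)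
    (h0 : ∀ e ∈ S, 0 ≤ m' e) (h1 : ∀ e ∈ S, m' e ≤ m e) : Good t S m' := by
  have key : ∀ T : Finset E, T ⊆ S → Good t S (fun e => if e ∈ T then m' e else m e) := by
    intro T
    induction T using Finset.induction_on with
    | empty => intro _; simpa using h
    | insert a T ha ih =>
      intro hT
      have haS : a ∈ S := hT (mem_insert_self _ _)
      have h2 := ih ((subset_insert _ _).trans hT)
      have h3 := h2.update haS (h0 a haS) (by simpa [ha] using h1 a haS)
      refine h3.congr fun e he => ?_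
      by_cases hea : e = a
      · subst hea; simp
      · simp [hea]
  refine (key S subset_rfl).congr fun e he => by simp [he]

/-- Extension of a random independent set of `S` to a set `F` disjoint from `S`: for each outcome
`I` we use a convex combination of independent sets of free elements of `F`. -/
lemma Good.extend {t : E → E → Prop} [DecidableRel t] (tsymm : ∀ e f, t e f → t f e)
    {S F : Finset E} (hSF : Disjoint S F)
    {y : E → ℝ} (p : Finset E → ℝ) (p0 : ∀ I, 0 ≤ p I)
    (ps : ∀ I, p I ≠ 0 → I ⊆ S ∧ Indep t I) (p1 : ∑ I, p I = 1)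
    (pm : ∀ e ∈ S, ∑ I with e ∈ I, p I = y e)
    (m : Finset E → E → ℝ)
    (hm : ∀ I, p I ≠ 0 → Good t (F.filter fun e => ∀ f ∈ I, ¬ t e f) (m I))
    (hy0 : ∀ e ∈ F, 0 ≤ y e)
    (hy : ∀ e ∈ F, y e ≤ ∑ I, p I * (if ∀ f ∈ I, ¬ t e f then m I e else 0)) :
    Good t (S ∪ F) y := by
  classical
  choose! q q0 qs q1 qm using hm
  let Y : E → ℝ := fun e => if e ∈ S then y e else
    ∑ I, p I * (if ∀ f ∈ I, ¬ t e f then m I e else 0)
  have hY : Good t (S ∪ F) Y := by
    refine good_of_family (ι := Finset E × Finset E) univ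
      (fun i => p i.1 * q i.1 i.2) (fun i => if p i.1 = 0 then ∅ else i.1 ∪ i.2) ?_ ?_ ?_ ?_
    · rintro ⟨I, J⟩ _
      by_cases h : p I = 0
      · simp [h]
      · exact mul_nonneg (p0 I) (q0 I h J)
    · rw [Fintype.sum_prod_type]
      refine (sum_congr rfl fun I _ => ?_).trans p1
      dsimp only
      rw [← mul_sum]
      by_cases h : p I = 0
      · simp [h]
      · rw [q1 I h, mul_one]
    · rintro ⟨I, J⟩ _ hne
      have hp : p I ≠ 0 := left_ne_zero_of_mul hne
      have hq : q I J ≠ 0 := right_ne_zero_of_mul hne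
      obtain ⟨hI1, hI2⟩ := ps I hp
      obtain ⟨hJ1, hJ2⟩ := qs I hp J hq
      simp only [hp, if_false]
      refine ⟨union_subset_union hI1 (hJ1.trans (filter_subset _ _)), ?_⟩
      intro e he f hf hne
      rcases mem_union.1 he with he | he <;> rcases mem_union.1 hf with hf | hf
      · exact hI2 e he f hf hne
      · intro h
        exact (mem_filter.1 (hJ1 hf)).2 e he (tsymm _ _ h)
      · exact (mem_filter.1 (hJ1 he)).2 f hf
      · exact hJ2 e he f hf hne
    · intro e he
      rw [sum_filter, Fintype.sum_prod_type]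
      by_cases heS : e ∈ S
      · have : Y e = ∑ I with e ∈ I, p I := by simp only [Y, heS, if_true]; exact (pm e heS).symm
        rw [this, sum_filter]
        refine sum_congr rfl fun I _ => ?_
        by_cases hp : p I = 0
        · simp [hp]
        · have hJ : ∀ J, q I J ≠ 0 → e ∉ J := by
            intro J hq heJ
            have := (mem_filter.1 ((qs I hp J hq).1 heJ)).1
            exact (disjoint_left.1 hSF heS) this
          simp only [hp, if_false, mem_union]
          by_cases heI : e ∈ I
          · simp only [heI, true_or, if_true]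
            rw [← mul_sum, q1 I hp, mul_one]
          · simp only [heI, false_or, if_false]
            refine sum_eq_zero fun J _ => ?_
            by_cases hq : q I J = 0
            · simp [hq]
            · simp [hJ J hq]
      · have heF : e ∈ F := (mem_union.1 he).resolve_left heS
        simp only [Y, heS, if_false]
        refine sum_congr rfl fun I _ => ?_
        by_cases hp : p I = 0
        · simp [hp]
        · have heI : e ∉ I := fun h => heS ((ps I hp).1 h)
          simp only [hp, if_false, mem_union, heI, false_or]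
          by_cases hfree : ∀ f ∈ I, ¬ t e f
          · rw [if_pos hfree, ← qm I hp e (mem_filter.2 ⟨heF, hfree⟩), mul_sum, sum_filter]
          · rw [if_neg hfree, mul_zero]
            refine sum_eq_zero fun J _ => ?_
            by_cases hq : q I J = 0
            · simp [hq]
            · have : e ∉ J := fun h => hfree (mem_filter.1 ((qs I hp J hq).1 h)).2
              simp [this]
  refine hY.mono ?_ ?_
  · intro e he
    rcases mem_union.1 he with h | h
    · rw [← pm e h]; exact sum_nonneg fun I _ => p0 I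
    · exact hy0 e h
  · intro e he
    by_cases h : e ∈ S
    · simp [Y, h]
    · simp only [Y, h, if_false]
      exact hy e ((mem_union.1 he).resolve_left h)

end Pool.Agent.H34.FKS
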