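import Mathlib
import Pool.Agent.H4.FKS.Trace

/-!
# The sharp inequality for intersecting families without common vertex (helper76's proof)

For an intersecting family of sets of size at most `k` without a common vertex and nonnegative
weights `x` with total `s` one has `∑ v, d v ^ 2 ≥ k ^ 2 / (k ^ 2 - k + 1) * s ^ 2`.
-/

set_option autoImplicit false
set_option linter.unusedSectionVars false
set_option linter.unusedVariables false

namespace H34.FKS

open Finset H4.FKS

/-- First order condition. -/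
theorem first_order {a b : ℝ} (h : ∀ t : ℝ, 0 < t → t ≤ 1 → 0 ≤ 2 * t * a + t ^ 2 * b) :
    0 ≤ a := by
  by_contra ha
  push Not at ha
  have h1 := h 1 one_pos le_rfl
  have hb : 0 < b := by nlinarith
  by_cases hab : -a ≤ b
  · have ht : 0 < -a / b := div_pos (by linarith) hb
    have ht1 : -a / b ≤ 1 := (div_le_one hb).2 hab
    have h2 := h (-a / b) ht ht1
    have h3 : 2 * (-a / b) * a + (-a / b) ^ 2 * b = -(a ^ 2 / b) := by
      field_simp
      ring
    rw [h3] at h2
    have h4 : 0 < a ^ 2 / b := div_pos (by nlinarith) hb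
    linarith
  · push Not at hab
    nlinarith

section
variable {V E : Type} [Fintype V] [DecidableEq V] [DecidableEq E]

/-- The contradiction at a minimiser. -/
theorem at_min {H : E → Finset V} {x : E → ℝ} {C : Finset E} {k : ℕ}
    (hcard : ∀ f ∈ C, (H f).card ≤ k)
    (hint : ∀ f ∈ C, ∀ g ∈ C, ¬ Disjoint (H f) (H g))
    (hns : ∀ v, ∃ f ∈ C, v ∉ H f)
    (hx : ∀ f ∈ C, 0 ≤ x f) (hs : ∑ f ∈ C, x f = 1) {S : ℝ}
    (hS : ∑ v, dg H x C v ^ 2 = S)
    (hkkt : ∀ f ∈ C, S ≤ ∑ v ∈ H f, dg H x C v) :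
    (k : ℝ) ^ 2 ≤ S * ((k : ℝ) ^ 2 - k + 1) := by
  by_contra hcon
  push Not at hcon
  set d : V → ℝ := dg H x C with hdd
  have hd0 : ∀ v, 0 ≤ d v := fun v => sum_nonneg fun f hf => hx f (mem_filter.1 hf).1
  -- the total of x u is S
  have hxu : ∑ f ∈ C, x f * ∑ v ∈ H f, d v = S := by
    rw [← hS, hdd, ← sum_dg]
    exact sum_congr rfl fun v _ => by ring
  have hslack : ∀ f ∈ C, x f * (∑ v ∈ H f, d v - S) = 0 := by
    have h1 : ∑ f ∈ C, x f * (∑ v ∈ H f, d v - S) = 0 := by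
      simp_rw [mul_sub]
      rw [sum_sub_distrib, hxu, ← sum_mul, hs]
      ring
    intro f hf
    exact (sum_eq_zero_iff_of_nonneg (fun g hg => mul_nonneg (hx g hg)
      (sub_nonneg.2 (hkkt g hg)))).1 h1 f hf
  -- an edge with positive weight
  obtain ⟨g, hgC, hxg⟩ : ∃ g ∈ C, 0 < x g := by
    by_contra h
    push Not at h
    have : ∑ f ∈ C, x f ≤ 0 := sum_nonpos h
    linarith
  have hug : ∑ v ∈ H g, d v = S := by
    have := hslack g hgC
    rcases mul_eq_zero.1 this with h | h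
    · exact absurd h hxg.ne'
    · linarith
  have hS1 : 1 ≤ S := by
    rw [← hug, hdd, sum_dg_edge, hs]
    have := exc_nonneg (H := H) (x := x) (C := C) (f := g) hx (hint g hgC)
    linarith
  have hk0 : (0 : ℝ) ≤ k := Nat.cast_nonneg k
  -- vertex with large degree
  have hgcard : ((H g).card : ℝ) ≤ k := by exact_mod_cast hcard g hgC
  obtain ⟨v, hvg, hv⟩ : ∃ v ∈ H g, S ≤ k * d v := by
    by_contra h
    push Not at h
    have hne : (H g).Nonempty := by
      rw [nonempty_iff_ne_empty]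
      intro h0
      rw [h0, sum_empty] at hug
      linarith
    have h1 : ∑ v ∈ H g, (k : ℝ) * d v < ∑ v ∈ H g, S := sum_lt_sum_of_nonempty hne h
    rw [← mul_sum, hug, sum_const, nsmul_eq_mul] at h1
    have h2 : ((H g).card : ℝ) * S ≤ k * S := mul_le_mul_of_nonneg_right hgcard (by linarith)
    linarith
  have hkpos : (0 : ℝ) < k := by
    by_contra h
    have : (k : ℝ) = 0 := le_antisymm (not_lt.1 h) hk0
    rw [this, zero_mul] at hv
    linarith
  have hdv : 0 < d v := by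
    by_contra h
    have h1 : d v = 0 := le_antisymm (not_lt.1 h) (hd0 v)
    rw [h1, mul_zero] at hv
    linarith
  -- (3)
  have h3 : S ^ 2 ≤ k * (S - d v ^ 2) := by
    obtain ⟨e, heC, hve⟩ := hns v
    have h1 := hkkt e heC
    have h2 : (∑ w ∈ H e, d w) ^ 2 ≤ (H e).card * ∑ w ∈ H e, d w ^ 2 :=
      sq_sum_le_card_mul_sum_sq
    have h4 : ∑ w ∈ H e, d w ^ 2 ≤ S - d v ^ 2 := by
      have h5 : ∑ w ∈ insert v (H e), d w ^ 2 ≤ ∑ w, d w ^ 2 :=
        sum_le_sum_of_subset_of_nonneg (subset_univ _) fun _ _ _ => sq_nonneg _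
      rw [sum_insert hve, hS] at h5
      linarith
    have h5 : S ^ 2 ≤ (∑ w ∈ H e, d w) ^ 2 := by
      apply pow_le_pow_left₀ (by linarith) h1
    have h6 : ((H e).card : ℝ) ≤ k := by exact_mod_cast hcard e heC
    have h7 : 0 ≤ ∑ w ∈ H e, d w ^ 2 := sum_nonneg fun _ _ => sq_nonneg _
    calc S ^ 2 ≤ (H e).card * ∑ w ∈ H e, d w ^ 2 := h5.trans h2
      _ ≤ k * ∑ w ∈ H e, d w ^ 2 := mul_le_mul_of_nonneg_right h6 h7
      _ ≤ k * (S - d v ^ 2) := mul_le_mul_of_nonneg_left h4 hk0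
  -- (1)
  have hE : ∑ w, cdg H x C v w ^ 2 - d v ^ 2 ≤ d v * (S - 1) := by
    rw [hdd, sum_cdg_sq]
    have h1 : ∀ f ∈ C.filter (fun f => v ∈ H f),
        ∑ g ∈ C with v ∈ H g, x f * x g * (((H f ∩ H g).card : ℝ) - 1) ≤ x f * (S - 1) := by
      intro f hf
      have hfC := (mem_filter.1 hf).1
      have h2 : ∑ g ∈ C with v ∈ H g, x f * x g * (((H f ∩ H g).card : ℝ) - 1) ≤
          ∑ g ∈ C, x f * x g * (((H f ∩ H g).card : ℝ) - 1) := by
        apply sum_le_sum_of_subset_of_nonneg (filter_subset _ _)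
        intro g hg _
        have h4 : (1 : ℝ) ≤ ((H f ∩ H g).card : ℝ) := by
          have := card_pos.2 (not_disjoint_iff_nonempty_inter.1 (hint f hfC g hg))
          exact_mod_cast this
        exact mul_nonneg (mul_nonneg (hx f hfC) (hx g hg)) (by linarith)
      refine h2.trans (le_of_eq ?_)
      have h4 : ∑ g ∈ C, x f * x g * (((H f ∩ H g).card : ℝ) - 1) = x f * exc H x C f := by
        unfold exc
        rw [mul_sum]
        exact sum_congr rfl fun g _ => by ring
      have h5 := hslack f hfC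
      have h6 : ∑ v ∈ H f, d v = 1 + exc H x C f := by
        rw [hdd, sum_dg_edge, hs]
      rw [h6] at h5
      rw [h4]
      linarith
    refine (sum_le_sum h1).trans (le_of_eq ?_)
    rw [← sum_mul]
    rfl
  -- (2)
  have hP : ∑ w ∈ univ.erase v, cdg H x C v w * d w = d v * (S - d v) := by
    have h1 : ∑ w, cdg H x C v w * d w = d v * S := by
      rw [sum_cdg]
      have h2 : ∀ f ∈ C.filter (fun f => v ∈ H f), x f * ∑ w ∈ H f, d w = x f * S := by
        intro f hf
        have h5 := hslack f (mem_filter.1 hf).1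
        linarith
      rw [sum_congr rfl h2, ← sum_mul]
      rfl
    have h2 : cdg H x C v v * d v + ∑ w ∈ univ.erase v, cdg H x C v w * d w =
        ∑ w, cdg H x C v w * d w :=
      add_sum_erase univ (fun w => cdg H x C v w * d w) (mem_univ v)
    rw [cdg_self] at h2
    rw [h1] at h2
    have h3 : dg H x C v = d v := rfl
    rw [h3] at h2
    linarith
  have hcs : (d v * (S - d v)) ^ 2 ≤ (d v * (S - 1)) * (S - d v ^ 2) := by
    have h1 : (∑ w ∈ univ.erase v, cdg H x C v w * d w) ^ 2 ≤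
        (∑ w ∈ univ.erase v, cdg H x C v w ^ 2) * ∑ w ∈ univ.erase v, d w ^ 2 :=
      sum_mul_sq_le_sq_mul_sq _ _ _
    rw [hP] at h1
    have h2 : ∑ w ∈ univ.erase v, cdg H x C v w ^ 2 ≤ d v * (S - 1) := by
      have h4 : cdg H x C v v ^ 2 + ∑ w ∈ univ.erase v, cdg H x C v w ^ 2 =
          ∑ w, cdg H x C v w ^ 2 :=
        add_sum_erase univ (fun w => cdg H x C v w ^ 2) (mem_univ v)
      rw [cdg_self] at h4
      have h5 : dg H x C v = d v := rfl
      rw [h5] at h4
      linarith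
    have h3 : ∑ w ∈ univ.erase v, d w ^ 2 = S - d v ^ 2 := by
      have h4 : d v ^ 2 + ∑ w ∈ univ.erase v, d w ^ 2 = ∑ w, d w ^ 2 :=
        add_sum_erase univ (fun w => d w ^ 2) (mem_univ v)
      rw [hS] at h4
      linarith
    rw [h3] at h1
    refine h1.trans (mul_le_mul_of_nonneg_right h2 ?_)
    have : 0 ≤ ∑ w ∈ univ.erase v, d w ^ 2 := sum_nonneg fun _ _ => sq_nonneg _
    rw [h3] at this
    exact this
  -- numbers
  generalize d v = t at *
  have hcs2 : t * (S - t) ^ 2 ≤ (S - 1) * (S - t ^ 2) := by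
    have h1 : t * (t * (S - t) ^ 2) ≤ t * ((S - 1) * (S - t ^ 2)) := by nlinarith
    exact le_of_mul_le_mul_left h1 hdv
  have hq : 0 ≤ (1 - t) * (t ^ 2 - S * t + S * (S - 1)) := by nlinarith
  have hbeta : (0 : ℝ) < (k : ℝ) ^ 2 - k + 1 := by nlinarith [sq_nonneg ((k : ℝ) - 1)]
  have ht1 : t < 1 := by
    -- k t² ≤ k S - S² and k - k S + S² > 0
    have h1 : 0 < k - k * S + S ^ 2 := by
      have h2 : (1 : ℝ) ≤ S ^ 2 := by nlinarith
      have h4 : 0 < (k - k * S + 1) * ((k : ℝ) ^ 2 - k + 1) := by nlinarith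
      have h5 : 0 < k - k * S + 1 := by
        by_contra h
        push Not at h
        have := mul_nonpos_of_nonpos_of_nonneg h hbeta.le
        linarith
      linarith
    by_contra h
    push Not at h
    nlinarith
  have hq2 : 0 ≤ t ^ 2 - S * t + S * (S - 1) := by
    by_contra h
    push Not at h
    have := mul_neg_of_pos_of_neg (sub_pos.2 ht1) h
    linarith
  have hk1 : t * k ≤ S * (k - 1) := by
    -- k q(t) ≤ S (S (k-1) - k t)
    have h1 : 0 ≤ S * (S * (k - 1) - k * t) := by nlinarith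
    have h2 : 0 ≤ S * (k - 1) - k * t := nonneg_of_mul_nonneg_right h1 (by linarith)
    linarith
  have hprod : (k * t - S) * (k * t - S * (k - 1)) ≤ 0 :=
    mul_nonpos_of_nonneg_of_nonpos (by linarith) (by linarith)
  -- k² q(t) = (kt - S)(kt - S(k-1)) + S (S (k²-k+1) - k²)
  have hfin : (k : ℝ) ^ 2 * (t ^ 2 - S * t + S * (S - 1)) =
      (k * t - S) * (k * t - S * (k - 1)) + S * (S * ((k : ℝ) ^ 2 - k + 1) - (k : ℝ) ^ 2) := by
    ring
  have hneg : S * (S * ((k : ℝ) ^ 2 - k + 1) - (k : ℝ) ^ 2) < 0 :=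
    mul_neg_of_pos_of_neg (by linarith) (by linarith)
  have hpos : 0 ≤ (k : ℝ) ^ 2 * (t ^ 2 - S * t + S * (S - 1)) := by positivity
  linarith

/-- Existence of a minimiser and the first order conditions. -/
theorem min_ge [Fintype E] [Nonempty E] {H : E → Finset V} {k : ℕ}
    (hcard : ∀ f, (H f).card ≤ k) (hint : ∀ f g, ¬ Disjoint (H f) (H g))
    (hns : ∀ v, ∃ f, v ∉ H f) {x : E → ℝ} (hx : ∀ f, 0 ≤ x f) (hs : ∑ f, x f = 1) :
    (k : ℝ) ^ 2 ≤ (∑ v, dg H x univ v ^ 2) * ((k : ℝ) ^ 2 - k + 1) := by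
  have hcont : Continuous fun x : E → ℝ => ∑ v, dg H x univ v ^ 2 := by
    unfold dg
    fun_prop
  have hxm : x ∈ stdSimplex ℝ E := ⟨hx, hs⟩
  obtain ⟨z, hz, hmin⟩ := (isCompact_stdSimplex ℝ E).exists_isMinOn ⟨x, hxm⟩ hcont.continuousOn
  have hzx : ∑ v, dg H z univ v ^ 2 ≤ ∑ v, dg H x univ v ^ 2 := hmin hxm
  set S := ∑ v, dg H z univ v ^ 2 with hS
  have hbeta : (0 : ℝ) < (k : ℝ) ^ 2 - k + 1 := by nlinarith [sq_nonneg ((k : ℝ) - 1)]
  refine le_trans ?_ (mul_le_mul_of_nonneg_right hzx hbeta.le)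
  refine at_min (H := H) (x := z) (C := univ) (fun f _ => hcard f) (fun f _ g _ => hint f g)
    (fun v => (hns v).imp fun f hf => ⟨mem_univ f, hf⟩) (fun f _ => hz.1 f) hz.2 rfl ?_
  intro f _
  -- direction towards f
  have hfo : 0 ≤ ∑ v ∈ H f, dg H z univ v - S := by
    apply first_order (b := ∑ v, ((if v ∈ H f then 1 else 0) - dg H z univ v) ^ 2)
    intro t ht ht1
    set w : E → ℝ := fun e => (1 - t) * z e + t * (if e = f then 1 else 0) with hw
    have hwm : w ∈ stdSimplex ℝ E := by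
      constructor
      · intro e
        have h1 := hz.1 e
        have h2 : (0 : ℝ) ≤ if e = f then 1 else 0 := by split_ifs <;> norm_num
        have h3 : 0 ≤ (1 - t) * z e := mul_nonneg (by linarith) h1
        have h4 : 0 ≤ t * (if e = f then (1 : ℝ) else 0) := mul_nonneg ht.le h2
        simp only [hw]
        linarith
      · simp only [hw]
        rw [sum_add_distrib, ← mul_sum, hz.2, ← mul_sum]
        simp
    have h1 : S ≤ ∑ v, dg H w univ v ^ 2 := hmin hwm
    have h2 : ∀ v, dg H w univ v = dg H z univ v +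
        t * ((if v ∈ H f then 1 else 0) - dg H z univ v) := by
      intro v
      unfold dg
      simp only [hw]
      rw [sum_add_distrib, ← mul_sum, ← mul_sum]
      have h3 : ∑ e ∈ univ.filter (fun e => v ∈ H e), (if e = f then (1 : ℝ) else 0) =
          if v ∈ H f then 1 else 0 := by
        rw [sum_ite_eq' (univ.filter fun e => v ∈ H e) f fun _ => (1 : ℝ)]
        simp
      rw [h3]
      ring
    have h3 : ∑ v, dg H w univ v ^ 2 = S + 2 * t * (∑ v ∈ H f, dg H z univ v - S) +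
        t ^ 2 * ∑ v, ((if v ∈ H f then 1 else 0) - dg H z univ v) ^ 2 := by
      have h4 : ∀ v, dg H w univ v ^ 2 = dg H z univ v ^ 2 +
          2 * t * ((if v ∈ H f then dg H z univ v else 0) - dg H z univ v ^ 2) +
          t ^ 2 * ((if v ∈ H f then 1 else 0) - dg H z univ v) ^ 2 := by
        intro v
        rw [h2]
        split_ifs <;> ring
      rw [sum_congr rfl fun v _ => h4 v, sum_add_distrib, sum_add_distrib, ← mul_sum,
        ← mul_sum, sum_sub_distrib, ← hS]
      congr 3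
      rw [← sum_filter]
      congr 2
      ext v; simp
    rw [h3] at h1
    linarith
  linarith

/-- **The sharp inequality.** -/
theorem in_ineq {H : E → Finset V} {x : E → ℝ} {C : Finset E} {k : ℕ}
    (hcard : ∀ f ∈ C, (H f).card ≤ k)
    (hint : ∀ f ∈ C, ∀ g ∈ C, ¬ Disjoint (H f) (H g))
    (hns : ∀ v, ∃ f ∈ C, v ∉ H f) (hx : ∀ f ∈ C, 0 ≤ x f) :
    (k : ℝ) ^ 2 * (∑ f ∈ C, x f) ^ 2 ≤
      (∑ v, dg H x C v ^ 2) * ((k : ℝ) ^ 2 - k + 1) := by
  classical
  have hbeta : (0 : ℝ) < (k : ℝ) ^ 2 - k + 1 := by nlinarith [sq_nonneg ((k : ℝ) - 1)]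
  set s := ∑ f ∈ C, x f with hs
  have hs0 : 0 ≤ s := sum_nonneg hx
  rcases hs0.eq_or_lt with h0 | h0
  · rw [← h0]
    have : 0 ≤ ∑ v, dg H x C v ^ 2 := sum_nonneg fun _ _ => sq_nonneg _
    have := mul_nonneg this hbeta.le
    linarith
  have hCne : C.Nonempty := by
    rw [nonempty_iff_ne_empty]
    rintro rfl
    rw [sum_empty] at hs
    linarith
  have : Nonempty ↥C := hCne.to_subtype
  set z : ↥C → ℝ := fun f => x f / s with hz
  have h1 := min_ge (H := fun f : ↥C => H f) (k := k) (fun f => hcard f f.2)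
    (fun f g => hint f f.2 g g.2)
    (fun v => by
      obtain ⟨f, hf, hv⟩ := hns v
      exact ⟨⟨f, hf⟩, hv⟩)
    (x := z) (fun f => div_nonneg (hx f f.2) hs0) (by
      simp only [hz]
      rw [← sum_div, sum_coe_sort C x, ← hs, div_self h0.ne'])
  have h2 : ∀ v, dg (fun f : ↥C => H f) z univ v = dg H x C v / s := by
    intro v
    unfold dg
    simp only [hz]
    rw [sum_filter, sum_filter]
    have h3 : ∀ f : ↥C, (if v ∈ H f then x f / s else 0) =
        (fun e => if v ∈ H e then x e / s else 0) f := fun f => rfl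
    rw [sum_congr rfl fun f _ => h3 f, sum_coe_sort C (fun e => if v ∈ H e then x e / s else 0),
      sum_div]
    refine sum_congr rfl fun e _ => ?_
    split_ifs
    · rfl
    · rw [zero_div]
  have h3 : ∑ v, dg (fun f : ↥C => H f) z univ v ^ 2 = (∑ v, dg H x C v ^ 2) / s ^ 2 := by
    rw [sum_div]
    refine sum_congr rfl fun v _ => ?_
    rw [h2, div_pow]
  rw [h3, div_mul_eq_mul_div, le_div_iff₀ (by positivity)] at h1
  exact h1

/-- The same in terms of the codegree excess. -/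
theorem in_exc {H : E → Finset V} {x : E → ℝ} {C : Finset E} {k : ℕ}
    (hcard : ∀ f ∈ C, (H f).card ≤ k)
    (hint : ∀ f ∈ C, ∀ g ∈ C, ¬ Disjoint (H f) (H g))
    (hns : ∀ v, ∃ f ∈ C, v ∉ H f) (hx : ∀ f ∈ C, 0 ≤ x f) :
    ((k : ℝ) - 1) * (∑ f ∈ C, x f) ^ 2 ≤
      (∑ f ∈ C, x f * exc H x C f) * ((k : ℝ) ^ 2 - k + 1) := by
  have h1 := in_ineq hcard hint hns hx
  have h2 : ∑ v, dg H x C v ^ 2 = (∑ f ∈ C, x f) ^ 2 + ∑ f ∈ C, x f * exc H x C f := by
    have h3 : ∀ v, dg H x C v ^ 2 = dg H x C v * dg H x C v := fun v => by ring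
    simp_rw [h3]
    rw [sum_dg]
    simp_rw [sum_dg_edge, mul_add]
    rw [sum_add_distrib, ← sum_mul]
    ring
  rw [h2] at h1
  nlinarith

end

end H34.FKS
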