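import Mathlib
import Pool.Agent.H4.FKS.Envelope
import Pool.Agent.H34.FKS.IN

/-!
# The clique condition for cliques without common vertex

For edges of size `k` with coefficient `c = k - 1 + 1 / k` and any next coefficient `c' > k` that is
not too close to `k`, every clique without a common vertex satisfies the clique condition.
-/

set_option autoImplicit false
set_option linter.unusedSectionVars false
set_option linter.unusedVariables false

namespace H34.FKS

open Finset H4.FKS

/-- helper4's envelope argument for one clique. -/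
theorem clique_sum_le {V E : Type} [Fintype V] [DecidableEq V] [DecidableEq E]
    {H : E → Finset V} {x X : E → ℝ} {C : Finset E} {k : ℕ} {c c' s D : ℝ}
    (hc : 0 < c) (hcc : c < c') (hc2 : c' ≤ 2 * c) (hkc : (k : ℝ) < c')
    (hCne : C.Nonempty) (hx : ∀ f ∈ C, 0 < x f)
    (hint : ∀ f ∈ C, ∀ g ∈ C, ¬ Disjoint (H f) (H g))
    (hX : ∀ f ∈ C, ∑ g ∈ C, x g ≤ X f ∧ X f + exc H x C f ≤ k ∧
      c * (c' - k + exc H x C f) < (c' - c) * X f)
    (hs : ∑ f ∈ C, x f = s) (hsD : ∑ f ∈ C, x f * exc H x C f = s * D)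
    (hcon : Concl k c c' s D) :
    ∑ f ∈ C, x f * c' / ((2 * c - c') * X f + 2 * c * (c' - k + exc H x C f)) ≤ 1 := by
  have hs0 : 0 < s := by rw [← hs]; exact sum_pos hx hCne
  have hx0 : ∀ f ∈ C, 0 ≤ x f := fun f hf => (hx f hf).le
  have hexc0 : ∀ f ∈ C, 0 ≤ exc H x C f := fun f hf => exc_nonneg hx0 (hint f hf)
  have hexcl : ∀ f ∈ C, exc H x C f < k - c := by
    intro f hf
    obtain ⟨h1, h2, h3⟩ := hX f hf
    have hg : 0 < c' - c := by linarith
    have h4 : (c' - c) * X f ≤ (c' - c) * (k - exc H x C f) :=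
      mul_le_mul_of_nonneg_left (by linarith) hg.le
    have h5 : c' * (c + exc H x C f) < c' * k := by nlinarith
    have h6 := lt_of_mul_lt_mul_left h5 (by linarith)
    linarith
  have hsk : ∀ f ∈ C, s + exc H x C f ≤ k := by
    intro f hf
    obtain ⟨h1, h2, h3⟩ := hX f hf
    linarith
  have hl : 0 < (k : ℝ) - c := by
    obtain ⟨f, hf⟩ := hCne
    exact lt_of_le_of_lt (hexc0 f hf) (hexcl f hf)
  obtain ⟨hsc, hcase⟩ := hcon
  have hden : ∀ f ∈ C, 0 < (2 * c - c') * X f + 2 * c * (c' - k + exc H x C f) := by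
    intro f hf
    obtain ⟨h1, h2, h3⟩ := hX f hf
    have h4 := hexc0 f hf
    have : 0 ≤ (2 * c - c') * X f := mul_nonneg (by linarith) (by linarith)
    have : 0 < 2 * c * (c' - k + exc H x C f) := by
      apply mul_pos (by linarith)
      linarith
    linarith
  have hterm : ∀ f ∈ C, x f * c' / ((2 * c - c') * X f + 2 * c * (c' - k + exc H x C f)) =
      x f * (c' / ((2 * c - c') * X f + 2 * c * (c' - k + exc H x C f))) := by
    intro f _
    rw [mul_div_assoc]
  rw [sum_congr rfl hterm]
  by_cases hA : (c' - c) * s ≤ c * (c' - k)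
  · have h1 : ∀ f ∈ C, x f * (c' / ((2 * c - c') * X f + 2 * c * (c' - k + exc H x C f))) ≤
        x f * (1 / s) := by
      intro f hf
      obtain ⟨h1, h2, h3⟩ := hX f hf
      have h4 := hexc0 f hf
      apply mul_le_mul_of_nonneg_left _ (hx0 f hf)
      rw [div_le_div_iff₀ (hden f hf) hs0]
      have h5 : (2 * c - c') * s ≤ (2 * c - c') * X f :=
        mul_le_mul_of_nonneg_left (by linarith) (by linarith)
      have h6 : 0 ≤ 2 * c * exc H x C f := by positivity
      linarith
    refine (sum_le_sum h1).trans ?_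
    rw [← sum_mul, hs]
    rw [mul_one_div, div_self hs0.ne']
  · rcases hcase with hcase | ⟨h1, h2⟩ | ⟨h1, h2⟩
    · exact absurd hcase hA
    · have hg : 0 < c' - c := by linarith
      have h3 : ∀ f ∈ C, x f * (c' / ((2 * c - c') * X f + 2 * c * (c' - k + exc H x C f))) ≤
          x f * ((c + s) / (c * s) - (c' - k + exc H x C f) / ((c' - c) * s)) := by
        intro f hf
        obtain ⟨h4, h5, h6⟩ := hX f hf
        apply mul_le_mul_of_nonneg_left _ (hx0 f hf)
        have h7 := hexcl f hf
        exact term_B hc hcc hc2 hs0 hsc (hexc0 f hf) hkc (by linarith) h6.le (by linarith) h1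
      refine (sum_le_sum h3).trans ?_
      have h4 : ∑ f ∈ C, x f * ((c + s) / (c * s) - (c' - k + exc H x C f) / ((c' - c) * s)) =
          s * ((c + s) / (c * s)) - (s * (c' - k) + s * D) / ((c' - c) * s) := by
        have h5 : ∀ f ∈ C, x f * ((c + s) / (c * s) - (c' - k + exc H x C f) / ((c' - c) * s)) =
            x f * ((c + s) / (c * s)) -
              (x f * (c' - k) + x f * exc H x C f) / ((c' - c) * s) := by
          intro f _
          ring
        rw [sum_congr rfl h5, sum_sub_distrib, ← sum_mul, ← sum_div, sum_add_distrib,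
          ← sum_mul, hsD, hs]
      rw [h4]
      have h5 : s * ((c + s) / (c * s)) - (s * (c' - k) + s * D) / ((c' - c) * s) =
          1 + ((c' - c) * s - c * (c' - k + D)) / (c * (c' - c)) := by
        field_simp
        ring
      rw [h5]
      have h6 : ((c' - c) * s - c * (c' - k + D)) / (c * (c' - c)) ≤ 0 :=
        div_nonpos_of_nonpos_of_nonneg (by linarith) (mul_pos hc hg).le
      linarith
    · push Not at hA
      have hg : 0 < c' - c := by linarith
      have hck' : c < k := by linarith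
      set M := 2 * c * (k - c) + (2 * c - c') * (c - s) with hM
      set T := (2 * c - c') * s + 2 * c * (c' - k) with hT
      have hT0 : 0 < T := by
        have : 0 ≤ (2 * c - c') * s := mul_nonneg (by linarith) hs0.le
        have : 0 < 2 * c * (c' - k) := mul_pos (by linarith) (by linarith)
        linarith
      have h3 : ∀ f ∈ C, x f * (c' / ((2 * c - c') * X f + 2 * c * (c' - k + exc H x C f))) ≤
          x f * ((c' * c * (k - c) - M * exc H x C f) / (c * T * (k - c))) := by
        intro f hf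
        obtain ⟨h4, h5, h6⟩ := hX f hf
        apply mul_le_mul_of_nonneg_left _ (hx0 f hf)
        exact term_C hc hcc hc2 hs0 hsc (hexc0 f hf) hkc hck' (by linarith) h6.le
          (hexcl f hf).le hA.le h1
      refine (sum_le_sum h3).trans ?_
      have h4 : ∑ f ∈ C, x f * ((c' * c * (k - c) - M * exc H x C f) / (c * T * (k - c))) =
          (s * (c' * c * (k - c)) - M * (s * D)) / (c * T * (k - c)) := by
        have h5 : ∀ f ∈ C, x f * ((c' * c * (k - c) - M * exc H x C f) / (c * T * (k - c))) =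
            (x f * (c' * c * (k - c)) - M * (x f * exc H x C f)) / (c * T * (k - c)) := by
          intro f _
          ring
        rw [sum_congr rfl h5, ← sum_div, sum_sub_distrib, ← sum_mul, ← mul_sum, hsD, hs]
      rw [h4, div_le_one (mul_pos (mul_pos hc hT0) hl)]
      have h5 : s * (c' * c * (k - c)) - M * (s * D) - c * T * (k - c) =
          2 * (k - c) * c * ((c' - c) * s - c * (c' - k)) - D * s * M := by
        rw [hT]; ring
      linarith

/-- What `(IN)` gives for `s` and `D`. -/
theorem concl_of_in {k c c' s D : ℝ} (hc : 0 < c) (hck : c ≤ k) (hkc : k < c')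
    (hc2 : c' ≤ 2 * c) (hh : (k - c) ^ 2 ≤ 2 * (2 * c - c') * (c' - k))
    (hs : 0 < s) (hsc : s ≤ c) (hD : (k - c) * s ≤ c * D) : Concl k c c' s D := by
  have hD0 : 0 ≤ D := by
    have : 0 ≤ (k - c) * s := mul_nonneg (by linarith) hs.le
    exact nonneg_of_mul_nonneg_right (this.trans hD) hc
  refine ⟨hsc, Or.inr ?_⟩
  by_cases h1 : 2 * c * (k - c) ≤ (2 * c - c') * s
  · left
    refine ⟨h1, ?_⟩
    have h2 : (c' - k) * s ≤ (c' - k) * c := mul_le_mul_of_nonneg_left hsc (by linarith)
    nlinarith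
  · right
    push Not at h1
    refine ⟨h1.le, ?_⟩
    -- 2 λ c (g s - c h) ≤ D s M, M = 2 c λ + a (c - s)
    set lam := k - c with hlam
    set a := 2 * c - c' with ha
    have ha0 : 0 ≤ a := by linarith
    have hl0 : 0 ≤ lam := by linarith
    have hM0 : 0 ≤ 2 * c * lam + a * (c - s) :=
      add_nonneg (by positivity) (mul_nonneg ha0 (by linarith))
    have hg : c' - c = c - a := by rw [ha]; ring
    have hck2 : c' - k = c - a - lam := by rw [ha, hlam]; ring
    rw [hg, hck2]
    -- it suffices with c D replaced by lam s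
    have h3 : lam * s * (s * (2 * c * lam + a * (c - s))) ≤
        c * D * (s * (2 * c * lam + a * (c - s))) :=
      mul_le_mul_of_nonneg_right hD (mul_nonneg hs.le hM0)
    have hkey : 0 ≤ s ^ 2 * (2 * c * lam + a * (c - s)) -
        2 * c ^ 2 * ((c - a) * s - c * (c - a - lam)) := by
      -- t = c - s
      obtain ⟨t, ht⟩ : ∃ t, t = c - s := ⟨_, rfl⟩
      have hs' : s = c - t := by rw [ht]; ring
      have ht0 : 0 ≤ t := by rw [ht]; linarith
      rw [hs']
      have h4 : (c - t) ^ 2 * (2 * c * lam + a * (c - (c - t))) -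
          2 * c ^ 2 * ((c - a) * (c - t) - c * (c - a - lam)) =
          t * (a * t ^ 2 - 2 * c * (a - lam) * t + c ^ 2 * (2 * c - a - 4 * lam)) := by ring
      rw [h4]
      apply mul_nonneg ht0
      have hh2 : lam ^ 2 ≤ 2 * a * (c - a - lam) := by
        have : c - a - lam = c' - k := by rw [ha, hlam]; ring
        rw [this]; exact hh
      rcases ha0.eq_or_lt with h5 | h5
      · rw [← h5] at hh2 ⊢
        have hl : lam = 0 := by nlinarith
        rw [hl]
        nlinarith [mul_pos hc hc, mul_pos (mul_pos hc hc) hc]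
      · have h6 : 0 ≤ a * (a * t ^ 2 - 2 * c * (a - lam) * t + c ^ 2 * (2 * c - a - 4 * lam)) := by
          have h7 : a * (a * t ^ 2 - 2 * c * (a - lam) * t + c ^ 2 * (2 * c - a - 4 * lam)) =
              (a * t - c * (a - lam)) ^ 2 + c ^ 2 * (2 * a * (c - a - lam) - lam ^ 2) := by ring
          rw [h7]
          have := mul_nonneg (sq_nonneg c) (sub_nonneg.2 hh2)
          nlinarith [sq_nonneg (a * t - c * (a - lam))]
        exact nonneg_of_mul_nonneg_right h6 h5
    -- finish
    have h5 : c * (2 * lam * c * ((c - a) * s - c * (c - a - lam))) ≤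
        c * (D * s * (2 * c * lam + a * (c - s))) := by
      have h6 := mul_nonneg hl0 hkey
      nlinarith
    exact le_of_mul_le_mul_left h5 hc

/-- **Cliques without common vertex satisfy the clique condition.** -/
theorem nonstar_sum_le {V E : Type} [Fintype V] [DecidableEq V] [DecidableEq E]
    {H : E → Finset V} {x X : E → ℝ} {C : Finset E} {k : ℕ} {c c' : ℝ} (hk2 : 2 ≤ k)
    (hcdef : c = k - 1 + 1 / k) (hkc : (k : ℝ) < c') (hc2 : c' ≤ 2 * c)
    (hh : ((k : ℝ) - c) ^ 2 ≤ 2 * (2 * c - c') * (c' - k))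
    (hcard : ∀ f ∈ C, (H f).card = k) (hx : ∀ f ∈ C, 0 < x f)
    (hint : ∀ f ∈ C, ∀ g ∈ C, ¬ Disjoint (H f) (H g))
    (hns : ∀ v, ∃ f ∈ C, v ∉ H f)
    (hdeg : ∀ v, ∑ f ∈ C with v ∈ H f, x f ≤ 1)
    (hX : ∀ f ∈ C, ∑ g ∈ C, x g ≤ X f ∧ X f + exc H x C f ≤ k ∧
      c * (c' - k + exc H x C f) < (c' - c) * X f) :
    ∑ f ∈ C, x f * c' / ((2 * c - c') * X f + 2 * c * (c' - k + exc H x C f)) ≤ 1 := by
  have hk2' : (2 : ℝ) ≤ k := by exact_mod_cast hk2
  have hk0 : (0 : ℝ) < k := by linarith
  have hck : (k : ℝ) - c = (k - 1) / k := by rw [hcdef]; field_simp; ring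
  have hce : c = (k ^ 2 - k + 1) / k := by rw [hcdef]; field_simp
  have hc : 0 < c := by
    rw [hce]
    apply div_pos _ hk0
    nlinarith
  have hck' : c < k := by
    have : 0 < (k : ℝ) - c := by
      rw [hck]; exact div_pos (by linarith) hk0
    linarith
  rcases C.eq_empty_or_nonempty with rfl | hCne
  · simp
  set s := ∑ f ∈ C, x f with hs
  have hs0 : 0 < s := sum_pos hx hCne
  set D := (∑ f ∈ C, x f * exc H x C f) / s with hD
  have hsD : ∑ f ∈ C, x f * exc H x C f = s * D := by
    rw [hD]; field_simp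
  have h1 := in_exc (k := k) (fun f hf => (hcard f hf).le) hint hns (fun f hf => (hx f hf).le)
  rw [hsD, ← hs] at h1
  have hDs : ((k : ℝ) - c) * s ≤ c * D := by
    have h2 : s * (((k : ℝ) - 1) * s) ≤ s * (D * ((k : ℝ) ^ 2 - k + 1)) := by nlinarith
    have h3 := le_of_mul_le_mul_left h2 hs0
    rw [hck, hce, div_mul_eq_mul_div, div_mul_eq_mul_div]
    exact div_le_div_of_nonneg_right (by linarith) hk0.le
  have hsc : s ≤ c := by
    -- Σ d² ≤ Σ d = k s
    have h2 : ∑ v, dg H x C v ^ 2 ≤ ∑ v, dg H x C v := by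
      apply sum_le_sum
      intro v _
      have h3 : 0 ≤ dg H x C v := sum_nonneg fun f hf => (hx f (mem_filter.1 hf).1).le
      have h4 : dg H x C v ≤ 1 := hdeg v
      nlinarith
    have h3 : ∑ v, dg H x C v = k * s := by
      have := sum_dg H x C (fun _ => (1 : ℝ))
      simp only [mul_one, sum_const, nsmul_eq_mul] at this
      rw [this, hs, mul_sum]
      refine sum_congr rfl fun f hf => ?_
      rw [hcard f hf]; ring
    have h4 := in_ineq (k := k) (fun f hf => (hcard f hf).le) hint hns
      (fun f hf => (hx f hf).le)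
    rw [← hs] at h4
    have hb : (0 : ℝ) < (k : ℝ) ^ 2 - k + 1 := by nlinarith
    have h5 : (k : ℝ) ^ 2 * s ^ 2 ≤ k * s * ((k : ℝ) ^ 2 - k + 1) :=
      h4.trans (mul_le_mul_of_nonneg_right (h2.trans h3.le) hb.le)
    have h6 : (k * s) * (k * s) ≤ (k * s) * ((k : ℝ) ^ 2 - k + 1) := by nlinarith
    have h7 := le_of_mul_le_mul_left h6 (mul_pos hk0 hs0)
    rw [hce, le_div_iff₀ hk0]
    linarith
  exact clique_sum_le hc (by linarith) hc2 hkc hCne hx hint hX rfl hsD
    (concl_of_in hc hck'.le hkc hc2 hh hs0 hsc hDs)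

end H34.FKS
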