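import Mathlib
import Pool.Agent.H34.FKS.IN

/-!
# Non-star cliques with inflation (section 3 of helper70's plan)

Direct proof of the clique inequality for an intersecting family without common vertex by
symmetrisation and the sharp inequality, allowing inflated demands.
-/

set_option autoImplicit false
set_option linter.unusedSectionVars false
set_option linter.unusedVariables false

namespace H34.FKS

open Finset H4.FKS

/-- `√(p q)` is close to the arithmetic mean. -/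
theorem sqrt_mul_ge {P κ1 κ2 κm pm τ : ℝ} (h1 : 0 ≤ κ1) (h2 : 0 ≤ κ2) (h1m : κ1 ≤ κm)
    (h2m : κ2 ≤ κm) (hpm : 0 < pm) (hp : pm ≤ P - κm) (hτ : τ = 1 + κm / (4 * pm)) :
    P - τ / 2 * (κ1 + κ2) ≤ Real.sqrt ((P - κ1) * (P - κ2)) := by
  set m := Real.sqrt ((P - κ1) * (P - κ2)) with hm
  have hp1 : pm ≤ P - κ1 := by linarith
  have hp2 : pm ≤ P - κ2 := by linarith
  have hm0 : 0 ≤ m := Real.sqrt_nonneg _
  have hmm : m * m = (P - κ1) * (P - κ2) := Real.mul_self_sqrt (by nlinarith)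
  have hmpm : pm ≤ m := by
    rw [hm]
    apply Real.le_sqrt_of_sq_le
    nlinarith
  set S := P - (κ1 + κ2) / 2 with hS
  have hSm : m ≤ S := by
    have hS0 : 0 ≤ S := by rw [hS]; linarith
    have h3 : m * m ≤ S * S := by
      rw [hmm, hS]; nlinarith [sq_nonneg (κ1 - κ2)]
    by_contra hcon
    push Not at hcon
    nlinarith
  have hdiff : (S - m) * (S + m) = (κ1 - κ2) ^ 2 / 4 := by
    have : (S - m) * (S + m) = S * S - m * m := by ring
    rw [this, hmm, hS]; ring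
  have h3 : (S - m) * (2 * pm) ≤ (κ1 - κ2) ^ 2 / 4 := by
    rw [← hdiff]
    apply mul_le_mul_of_nonneg_left _ (by linarith)
    have : pm ≤ S := hmpm.trans hSm
    linarith
  have hκm : 0 ≤ κm := h1.trans h1m
  have h4 : (κ1 - κ2) ^ 2 ≤ κm * (κ1 + κ2) := by
    rcases le_total κ1 κ2 with h | h
    · nlinarith
    · nlinarith
  have h5 : S - m ≤ κm * (κ1 + κ2) / (8 * pm) := by
    rw [le_div_iff₀ (by positivity)]
    nlinarith
  have h6 : τ / 2 * (κ1 + κ2) = (κ1 + κ2) / 2 + κm * (κ1 + κ2) / (8 * pm) := by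
    rw [hτ]; field_simp; ring
  rw [h6]
  linarith

/-- The pair inequality. -/
theorem pair_ge {P κ1 κ2 κm pm τ r : ℝ} (h1 : 0 ≤ κ1) (h2 : 0 ≤ κ2) (h1m : κ1 ≤ κm)
    (h2m : κ2 ≤ κm) (hpm : 0 < pm) (hp : pm ≤ P - κm) (hτ : τ = 1 + κm / (4 * pm)) (hr : 0 < r) :
    2 * P - τ * (κ1 + κ2) ≤ r * (P - κ1) + 1 / r * (P - κ2) := by
  have h3 := sqrt_mul_ge h1 h2 h1m h2m hpm hp hτ
  set m := Real.sqrt ((P - κ1) * (P - κ2)) with hm
  have hp1 : 0 < P - κ1 := by linarith
  have hp2 : 0 < P - κ2 := by linarith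
  have hmm : m * m = (P - κ1) * (P - κ2) := Real.mul_self_sqrt (mul_pos hp1 hp2).le
  have h4 : 2 * m ≤ r * (P - κ1) + 1 / r * (P - κ2) := by
    have h5 : 0 ≤ (P - κ1) * (r * (r * (P - κ1) + 1 / r * (P - κ2) - 2 * m)) := by
      have h6 : (P - κ1) * (r * (r * (P - κ1) + 1 / r * (P - κ2) - 2 * m)) =
          (r * (P - κ1) - m) ^ 2 := by
        have h7 : r * (1 / r) = 1 := by field_simp
        have h8 : (P - κ1) * (r * (r * (P - κ1) + 1 / r * (P - κ2) - 2 * m)) =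
            r ^ 2 * (P - κ1) ^ 2 + (r * (1 / r)) * ((P - κ1) * (P - κ2)) -
              2 * r * m * (P - κ1) := by ring
        rw [h8, h7, ← hmm]; ring
      rw [h6]; exact sq_nonneg _
    have h6 := nonneg_of_mul_nonneg_right (nonneg_of_mul_nonneg_right h5 hp1) hr
    linarith
  nlinarith

section
variable {V E : Type} [Fintype V] [DecidableEq V] [DecidableEq E]

/-- Sum of the intersection sizes. -/
theorem sum_inter {H : E → Finset V} {μ : E → ℝ} {C : Finset E} {k : ℕ} {c : ℝ} (hk : 2 ≤ k)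
    (hc : c = k - 1 + 1 / k) (hcard : ∀ f ∈ C, (H f).card ≤ k)
    (hint : ∀ f ∈ C, ∀ g ∈ C, ¬ Disjoint (H f) (H g))
    (hns : ∀ v, ∃ f ∈ C, v ∉ H f) (hμ : ∀ f ∈ C, 0 ≤ μ f) :
    (k : ℝ) * (∑ f ∈ C, μ f) ^ 2 ≤
      c * ∑ f ∈ C, ∑ g ∈ C, μ f * μ g * ((H f ∩ H g).card : ℝ) := by
  have h1 := in_exc (k := k) hcard hint hns hμ
  have hk0 : (0 : ℝ) < k := by
    have : (2 : ℝ) ≤ k := by exact_mod_cast hk
    linarith
  have h2 : ∑ f ∈ C, ∑ g ∈ C, μ f * μ g * ((H f ∩ H g).card : ℝ) =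
      (∑ f ∈ C, μ f) ^ 2 + ∑ f ∈ C, μ f * exc H μ C f := by
    unfold exc
    rw [sq, sum_mul_sum, ← sum_add_distrib]
    refine sum_congr rfl fun f _ => ?_
    rw [mul_sum, ← sum_add_distrib]
    refine sum_congr rfl fun g _ => ?_
    ring
  have hce : c = ((k : ℝ) ^ 2 - k + 1) / k := by rw [hc]; field_simp
  rw [h2, hce, div_mul_eq_mul_div, le_div_iff₀ hk0]
  nlinarith

/-- **Clique inequality for non-star cliques with inflation.** -/
theorem nonstar_inflated {H : E → Finset V} {C : Finset E} {k : ℕ} {c cc ρ κm pm τ : ℝ}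
    {y h κ b : E → ℝ} (hk : 2 ≤ k) (hc : c = k - 1 + 1 / k) (hkcc : (k : ℝ) < cc)
    (hcc2 : cc < 2 * k) (hpm : 0 < pm) (hpm2 : pm ≤ 2 * c / cc - 1 - κm)
    (hτ : τ = 1 + κm / (4 * pm)) (hκm : 0 ≤ κm) (hρ : 0 ≤ ρ)
    (hρ2 : ρ * ((τ - 1) * cc + 2 * k) ≤ 2)
    (hcard : ∀ f ∈ C, (H f).card ≤ k)
    (hint : ∀ f ∈ C, ∀ g ∈ C, ¬ Disjoint (H f) (H g))
    (hns : ∀ v, ∃ f ∈ C, v ∉ H f)
    (hy : ∀ f ∈ C, 0 < y f) (hh : ∀ f ∈ C, 0 < h f) (hh1 : ∀ f ∈ C, h f ≤ 1)
    (hκ : ∀ f ∈ C, 0 ≤ κ f) (hκm' : ∀ f ∈ C, κ f ≤ κm) (hb : ∀ f ∈ C, 0 ≤ b f)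
    (hκb : ∀ f ∈ C, κ f ≤ ρ * b f)
    (hH : ∀ f ∈ C, 2 - 2 * k / cc + 2 / cc * b f +
      ∑ g ∈ C, y g * (2 * c / cc * ((H f ∩ H g).card : ℝ) - 1 - κ g) ≤ h f) :
    ∑ f ∈ C, (1 + κ f) * y f / h f ≤ 1 := by
  rcases C.eq_empty_or_nonempty with rfl | hCne
  · simp
  have hk2 : (2 : ℝ) ≤ k := by exact_mod_cast hk
  have hk0 : (0 : ℝ) < k := by linarith
  have hcc : 0 < cc := by linarith
  have hce : c = ((k : ℝ) ^ 2 - k + 1) / k := by rw [hc]; field_simp
  have hc0 : 0 < c := by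
    rw [hce]
    exact div_pos (by nlinarith) hk0
  set a := 2 * c / cc with ha
  set ω := 2 * k / cc - 1 with hω
  have hω0 : 0 < ω := by
    rw [hω, sub_pos, lt_div_iff₀ hcc]
    linarith
  have hbase : 2 - 2 * k / cc = 1 - ω := by rw [hω]; ring
  have hbase0 : 0 ≤ 1 - ω := by
    rw [← hbase, sub_nonneg, div_le_iff₀ hcc]
    linarith
  set μ : E → ℝ := fun f => y f / h f with hμ
  have hμ0 : ∀ f ∈ C, 0 < μ f := fun f hf => div_pos (hy f hf) (hh f hf)
  have hyμ : ∀ f ∈ C, y f = μ f * h f := fun f hf => by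
    simp only [hμ]
    rw [div_mul_cancel₀ _ (hh f hf).ne']
  set M := ∑ f ∈ C, μ f with hM
  have hM0 : 0 < M := sum_pos hμ0 hCne
  set Q := ∑ f ∈ C, μ f * κ f with hQ
  set B := ∑ f ∈ C, μ f * b f with hB
  have hQ0 : 0 ≤ Q := sum_nonneg fun f hf => mul_nonneg (hμ0 f hf).le (hκ f hf)
  have hB0 : 0 ≤ B := sum_nonneg fun f hf => mul_nonneg (hμ0 f hf).le (hb f hf)
  have hQB : Q ≤ ρ * B := by
    rw [hQ, hB, mul_sum]
    refine sum_le_sum fun f hf => ?_
    have := mul_le_mul_of_nonneg_left (hκb f hf) (hμ0 f hf).le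
    linarith
  have hcard1 : ∀ f ∈ C, ∀ g ∈ C, (1 : ℝ) ≤ ((H f ∩ H g).card : ℝ) := by
    intro f hf g hg
    have := card_pos.2 (not_disjoint_iff_nonempty_inter.1 (hint f hf g hg))
    exact_mod_cast this
  have ha0 : 0 < a := by rw [ha]; positivity
  -- p
  set P : E → E → ℝ := fun f g => a * ((H f ∩ H g).card : ℝ) - 1 with hP
  have hPge : ∀ f ∈ C, ∀ g ∈ C, pm ≤ P f g - κm := by
    intro f hf g hg
    have := mul_le_mul_of_nonneg_left (hcard1 f hf g hg) ha0.le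
    simp only [hP]
    linarith
  have hPsymm : ∀ f g, P f g = P g f := fun f g => by
    simp only [hP]
    rw [inter_comm]
  have hτ1 : 1 ≤ τ := by
    rw [hτ]
    have : 0 ≤ κm / (4 * pm) := div_nonneg hκm (by linarith)
    linarith
  -- the symmetrised sum
  have hsym : ∑ f ∈ C, ∑ g ∈ C, μ f * μ g * (P f g) - τ * M * Q ≤
      ∑ f ∈ C, ∑ g ∈ C, μ f * μ g * (h g / h f * (P f g - κ g)) := by
    have h1 : ∑ f ∈ C, ∑ g ∈ C, μ f * μ g * (h g / h f * (P f g - κ g)) =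
        ∑ f ∈ C, ∑ g ∈ C, μ f * μ g * (1 / (h g / h f) * (P f g - κ f)) := by
      rw [sum_comm]
      refine sum_congr rfl fun f hf => ?_
      refine sum_congr rfl fun g hg => ?_
      rw [hPsymm g f, one_div_div]
      ring
    have h2 : ∀ f ∈ C, ∀ g ∈ C, μ f * μ g * (2 * P f g - τ * (κ f + κ g)) ≤
        μ f * μ g * (h g / h f * (P f g - κ g)) +
          μ f * μ g * (1 / (h g / h f) * (P f g - κ f)) := by
      intro f hf g hg
      rw [← mul_add]
      apply mul_le_mul_of_nonneg_left _ (mul_pos (hμ0 f hf) (hμ0 g hg)).le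
      have h3 := pair_ge (hκ g hg) (hκ f hf) (hκm' g hg) (hκm' f hf) hpm (hPge f hf g hg) hτ
        (div_pos (hh g hg) (hh f hf))
      linarith
    have h3 : ∑ f ∈ C, ∑ g ∈ C, μ f * μ g * (2 * P f g - τ * (κ f + κ g)) =
        2 * (∑ f ∈ C, ∑ g ∈ C, μ f * μ g * P f g) - 2 * (τ * M * Q) := by
      have h4 : ∀ f ∈ C, ∑ g ∈ C, μ f * μ g * (2 * P f g - τ * (κ f + κ g)) =
          2 * (∑ g ∈ C, μ f * μ g * P f g) - τ * (μ f * κ f * M) - τ * (μ f * Q) := by
        intro f _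
        rw [hM, hQ, mul_sum, mul_sum, mul_sum, mul_sum, mul_sum, ← sum_sub_distrib,
          ← sum_sub_distrib]
        refine sum_congr rfl fun g _ => ?_
        ring
      rw [sum_congr rfl h4, sum_sub_distrib, sum_sub_distrib, ← mul_sum, ← mul_sum, ← mul_sum,
        ← sum_mul, ← sum_mul, ← hQ, ← hM]
      ring
    have h4 : ∑ f ∈ C, ∑ g ∈ C, μ f * μ g * (2 * P f g - τ * (κ f + κ g)) ≤
        ∑ f ∈ C, ∑ g ∈ C, μ f * μ g * (h g / h f * (P f g - κ g)) +
          ∑ f ∈ C, ∑ g ∈ C, μ f * μ g * (1 / (h g / h f) * (P f g - κ f)) := by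
      rw [← sum_add_distrib]
      refine sum_le_sum fun f hf => ?_
      rw [← sum_add_distrib]
      exact sum_le_sum fun g hg => h2 f hf g hg
    rw [← h1, h3] at h4
    linarith
  -- (IN)
  have hin : ω * M ^ 2 ≤ ∑ f ∈ C, ∑ g ∈ C, μ f * μ g * (P f g) := by
    have h1 := sum_inter hk hc hcard hint hns (fun f hf => (hμ0 f hf).le)
    rw [← hM] at h1
    have h2 : ∑ f ∈ C, ∑ g ∈ C, μ f * μ g * (P f g) =
        a * (∑ f ∈ C, ∑ g ∈ C, μ f * μ g * ((H f ∩ H g).card : ℝ)) - M ^ 2 := by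
      rw [hM, sq, sum_mul_sum, mul_sum, ← sum_sub_distrib]
      refine sum_congr rfl fun f _ => ?_
      rw [mul_sum, ← sum_sub_distrib]
      refine sum_congr rfl fun g _ => ?_
      simp only [hP]
      ring
    rw [h2]
    have h3 : 2 * k / cc * M ^ 2 ≤
        a * (∑ f ∈ C, ∑ g ∈ C, μ f * μ g * ((H f ∩ H g).card : ℝ)) := by
      rw [ha, div_mul_eq_mul_div, div_mul_eq_mul_div]
      apply div_le_div_of_nonneg_right _ hcc.le
      nlinarith
    rw [hω]
    nlinarith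
  -- main inequality for all t
  have hA : ∀ t : ℝ, 0 ≤ t → t ≤ 1 →
      2 / cc * B - t * (τ * M * Q) ≤ ω * M * (1 - t * M) := by
    intro t ht0 ht1
    have h1 : ∀ f ∈ C, μ f * (1 - ω) + 2 / cc * (μ f * b f) +
        t * ∑ g ∈ C, μ f * μ g * (h g / h f * (P f g - κ g)) ≤ μ f := by
      intro f hf
      have h2 := hH f hf
      rw [hbase] at h2
      have h3 : ∑ g ∈ C, y g * (a * ((H f ∩ H g).card : ℝ) - 1 - κ g) =
          ∑ g ∈ C, μ g * h g * (P f g - κ g) := by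
        refine sum_congr rfl fun g hg => ?_
        rw [hyμ g hg]
      rw [h3] at h2
      have h4 : 0 ≤ ∑ g ∈ C, μ g * h g * (P f g - κ g) := by
        apply sum_nonneg
        intro g hg
        apply mul_nonneg (mul_pos (hμ0 g hg) (hh g hg)).le
        have := hPge f hf g hg
        have := hκm' g hg
        linarith
      have h5 : t * ∑ g ∈ C, μ g * h g * (P f g - κ g) ≤
          ∑ g ∈ C, μ g * h g * (P f g - κ g) := by nlinarith
      have h6 : (1 - ω) + 2 / cc * b f + t * ∑ g ∈ C, μ g * h g * (P f g - κ g) ≤ h f := by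
        linarith
      have h7 : 0 < μ f / h f := div_pos (hμ0 f hf) (hh f hf)
      have h8 := mul_le_mul_of_nonneg_left h6 h7.le
      have h9 : μ f / h f * h f = μ f := div_mul_cancel₀ _ (hh f hf).ne'
      rw [h9] at h8
      refine le_trans ?_ h8
      have h10 : μ f ≤ μ f / h f := by
        rw [le_div_iff₀ (hh f hf)]
        have := mul_le_mul_of_nonneg_left (hh1 f hf) (hμ0 f hf).le
        linarith
      have h11 : μ f / h f * (1 - ω + 2 / cc * b f + t * ∑ g ∈ C, μ g * h g * (P f g - κ g)) =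
          μ f / h f * (1 - ω) + μ f / h f * (2 / cc * b f) +
            t * ∑ g ∈ C, μ f * μ g * (h g / h f * (P f g - κ g)) := by
        have h12 : ∑ g ∈ C, μ f * μ g * (h g / h f * (P f g - κ g)) =
            μ f / h f * ∑ g ∈ C, μ g * h g * (P f g - κ g) := by
          rw [mul_sum]
          refine sum_congr rfl fun g _ => ?_
          ring
        rw [h12]
        ring
      rw [h11]
      have h12 : μ f * (1 - ω) ≤ μ f / h f * (1 - ω) := mul_le_mul_of_nonneg_right h10 hbase0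
      have h13 : μ f * (2 / cc * b f) ≤ μ f / h f * (2 / cc * b f) := by
        apply mul_le_mul_of_nonneg_right h10
        have := hb f hf
        positivity
      linarith
    have h2 := sum_le_sum h1
    rw [sum_add_distrib, sum_add_distrib, ← sum_mul, ← mul_sum, ← mul_sum, ← hM, ← hB] at h2
    have h3 : t * (ω * M ^ 2 - τ * M * Q) ≤
        t * ∑ f ∈ C, ∑ g ∈ C, μ f * μ g * (h g / h f * (P f g - κ g)) :=
      mul_le_mul_of_nonneg_left (by linarith) ht0
    nlinarith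
  -- τ + ω ≤ 2/(cc ρ)
  have hρω : ρ * (τ + ω) ≤ 2 / cc := by
    rw [le_div_iff₀ hcc]
    have h1 : ρ * (τ + ω) * cc = ρ * ((τ - 1) * cc + 2 * k) := by
      rw [hω]
      field_simp
      ring
    rw [h1]; exact hρ2
  have hM1 : M ≤ 1 := by
    by_contra hcon
    push Not at hcon
    have h1 := hA (1 / M) (by positivity) ((div_le_one hM0).2 hcon.le)
    have h2 : 1 / M * M = 1 := by field_simp
    have h3 : 1 / M * (τ * M * Q) = τ * Q := by field_simp
    rw [h2, h3] at h1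
    have h4 : τ * Q ≤ τ * (ρ * B) := mul_le_mul_of_nonneg_left hQB (by linarith)
    have h5 : ρ * ω * B ≤ 0 := by
      have : ρ * (τ + ω) * B ≤ 2 / cc * B := mul_le_mul_of_nonneg_right hρω hB0
      nlinarith
    -- Q = 0
    have h6 : ρ * B ≤ 0 := by
      have h7 : ω * (ρ * B) ≤ 0 := by linarith
      by_contra h8
      push Not at h8
      have := mul_pos hω0 h8
      linarith
    have h7 : Q = 0 := le_antisymm (hQB.trans h6) hQ0
    have h8 := hA 1 zero_le_one le_rfl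
    rw [h7] at h8
    have h9 : 0 ≤ 2 / cc * B := by positivity
    have h10 : ω * M * (1 - 1 * M) < 0 := by
      apply mul_neg_of_pos_of_neg (mul_pos hω0 hM0)
      linarith
    linarith
  have hMQ : M + Q ≤ 1 := by
    have h1 := hA 1 zero_le_one le_rfl
    rw [one_mul, one_mul] at h1
    have h2 : (τ + ω) * (M * Q) ≤ 2 / cc * B := by
      have h3 : M * Q ≤ Q := by nlinarith
      have h4 : (τ + ω) * (M * Q) ≤ (τ + ω) * Q := mul_le_mul_of_nonneg_left h3 (by linarith)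
      have h5 : (τ + ω) * Q ≤ (τ + ω) * (ρ * B) := mul_le_mul_of_nonneg_left hQB (by linarith)
      have h6 : ρ * (τ + ω) * B ≤ 2 / cc * B := mul_le_mul_of_nonneg_right hρω hB0
      linarith
    have h3 : ω * M * Q ≤ ω * M * (1 - M) := by linarith
    have h4 := le_of_mul_le_mul_left h3 (mul_pos hω0 hM0)
    linarith
  have hfin : ∑ f ∈ C, (1 + κ f) * y f / h f = M + Q := by
    rw [hM, hQ, ← sum_add_distrib]
    refine sum_congr rfl fun f _ => ?_
    simp only [hμ]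
    ring
  rw [hfin]
  exact hMQ

end

end H34.FKS
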