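import Mathlib
import Pool.Agent.H4.FKS.Real

/-!
# Independent requests (phase 2 of helper70's plan)

`Real` is closed under decreasing the demands; the request lemma: a random stable set `N` of
`R' ∪ F` is improved by an independent random stable set `J` of `F`: an element `e ∈ J` is accepted
if all elements of `N` in conflict with `e` are deletable for `e`; these are deleted.
-/

set_option autoImplicit false
set_option linter.unusedSectionVars false
set_option linter.unusedVariables false

namespace H34.FKS

open Finset H4.FKS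

variable {E : Type*} [DecidableEq E] [Fintype E]

/-- Decrease the demand of one element. -/
theorem real_decr_one {r : E → E → Prop} {R : Finset E} {z : E → ℝ} (hR : Real r R z) {e : E}
    (he : e ∈ R) {t : ℝ} (ht0 : 0 ≤ t) (ht : t ≤ z e) : Real r R (Function.update z e t) := by
  classical
  obtain ⟨w, hw0, hws, hw1, hwm⟩ := hR
  by_cases hz : z e = 0
  · have : t = z e := by
      apply le_antisymm ht
      rw [hz]; exact ht0
    rw [this, Function.update_eq_self]
    exact ⟨w, hw0, hws, hw1, hwm⟩
  have hz0 : 0 < z e := lt_of_le_of_ne (ht0.trans ht) (Ne.symm hz)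
  set θ := t / z e with hθ
  have hθ0 : 0 ≤ θ := div_nonneg ht0 hz0.le
  have hθ1 : θ ≤ 1 := (div_le_one hz0).2 ht
  -- push forward of w × coin under M ↦ M or M.erase e
  have key : ∀ (φ : Finset E → ℝ), ∑ N, (∑ M, (θ * (if M = N then w M else 0) +
      (1 - θ) * (if M.erase e = N then w M else 0))) * φ N =
      ∑ M, w M * (θ * φ M + (1 - θ) * φ (M.erase e)) := by
    intro φ
    simp_rw [sum_mul]
    rw [sum_comm]
    refine sum_congr rfl fun M _ => ?_
    simp_rw [add_mul]
    rw [sum_add_distrib]
    have h1 : ∀ N, θ * (if M = N then w M else 0) * φ N =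
        if M = N then θ * w M * φ N else 0 := by
      intro N; split_ifs <;> ring
    have h2 : ∀ N, (1 - θ) * (if M.erase e = N then w M else 0) * φ N =
        if M.erase e = N then (1 - θ) * w M * φ N else 0 := by
      intro N; split_ifs <;> ring
    simp_rw [h1, h2]
    rw [sum_ite_eq, sum_ite_eq]
    simp only [mem_univ, if_true]
    ring
  refine ⟨fun N => ∑ M, (θ * (if M = N then w M else 0) +
      (1 - θ) * (if M.erase e = N then w M else 0)), ?_, ?_, ?_, ?_⟩
  · intro N
    apply sum_nonneg
    intro M _
    apply add_nonneg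
    · apply mul_nonneg hθ0
      split_ifs
      · exact hw0 M
      · exact le_rfl
    · apply mul_nonneg (by linarith)
      split_ifs
      · exact hw0 M
      · exact le_rfl
  · intro N hN
    obtain ⟨M, -, hM⟩ := exists_ne_zero_of_sum_ne_zero hN
    have hcase : (M = N ∨ M.erase e = N) ∧ w M ≠ 0 := by
      by_contra hcon
      apply hM
      by_cases hwM : w M = 0
      · simp [hwM]
      · have h1 : ¬ (M = N) := fun h => hcon ⟨Or.inl h, hwM⟩
        have h2 : ¬ (M.erase e = N) := fun h => hcon ⟨Or.inr h, hwM⟩
        simp [h1, h2]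
    obtain ⟨h1, h2⟩ := hws M hcase.2
    rcases hcase.1 with h | h
    · subst h; exact ⟨h1, h2⟩
    · subst h
      refine ⟨fun a ha b hb => h1 a (mem_of_mem_erase ha) b (mem_of_mem_erase hb),
        (erase_subset _ _).trans h2⟩
  · have := key (fun _ => 1)
    simp only [mul_one] at this
    rw [this]
    refine Eq.trans (sum_congr rfl fun M _ => ?_) hw1
    ring
  · intro a ha
    have := key (fun N => if a ∈ N then 1 else 0)
    have h1 : ∀ (g : Finset E → ℝ), ∑ N, g N * (if a ∈ N then (1 : ℝ) else 0) =
        ∑ N with a ∈ N, g N := by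
      intro g
      rw [sum_filter]
      refine sum_congr rfl fun N _ => ?_
      split_ifs <;> ring
    rw [h1] at this
    rw [this]
    by_cases hae : a = e
    · subst hae
      rw [Function.update_self]
      have h2 : ∀ M, w M * (θ * (if a ∈ M then (1 : ℝ) else 0) +
          (1 - θ) * (if a ∈ M.erase a then (1 : ℝ) else 0)) =
          θ * (if a ∈ M then w M else 0) := by
        intro M
        rw [if_neg (notMem_erase a M)]
        split_ifs <;> ring
      simp_rw [h2]
      rw [← mul_sum, ← sum_filter, hwm a ha, hθ, div_mul_cancel₀ _ hz0.ne']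
    · rw [Function.update_of_ne hae]
      rw [← hwm a ha, sum_filter]
      refine sum_congr rfl fun M _ => ?_
      have h2 : (a ∈ M.erase e) ↔ a ∈ M := by
        rw [mem_erase]; tauto
      simp only [h2]
      split_ifs <;> ring

/-- `Real` is closed under decreasing the demands. -/
theorem real_mono {r : E → E → Prop} {R : Finset E} {z y : E → ℝ} (hR : Real r R z)
    (hy0 : ∀ e ∈ R, 0 ≤ y e) (hyz : ∀ e ∈ R, y e ≤ z e) : Real r R y := by
  classical
  have key : ∀ A : Finset E, A ⊆ R → Real r R (fun e => if e ∈ A then y e else z e) := by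
    intro A
    induction A using Finset.induction_on with
    | empty => intro _; simpa using hR
    | @insert a A haA ih =>
      intro hA
      have h1 := ih ((subset_insert a A).trans hA)
      have haR : a ∈ R := hA (mem_insert_self a A)
      have h2 := real_decr_one h1 haR (hy0 a haR) (by rw [if_neg haA]; exact hyz a haR)
      convert h2 using 1
      ext e
      by_cases hea : e = a
      · subst hea; simp
      · rw [Function.update_of_ne hea]
        simp [hea]
  have h := key R (Subset.refl R)
  obtain ⟨w, hw0, hws, hw1, hwm⟩ := h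
  exact ⟨w, hw0, hws, hw1, fun e he => (hwm e he).trans (if_pos he)⟩

/-- `Real` only depends on the demands on `R`. -/
theorem real_congr {r : E → E → Prop} {R : Finset E} {z y : E → ℝ} (hR : Real r R z)
    (hyz : ∀ e ∈ R, z e = y e) : Real r R y := by
  obtain ⟨w, hw0, hws, hw1, hwm⟩ := hR
  exact ⟨w, hw0, hws, hw1, fun e he => (hwm e he).trans (hyz e he)⟩

/-- Demands are nonnegative. -/
theorem real_nonneg {r : E → E → Prop} {R : Finset E} {z : E → ℝ} (hR : Real r R z) {e : E}
    (he : e ∈ R) : 0 ≤ z e := by
  obtain ⟨w, hw0, hws, hw1, hwm⟩ := hR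
  rw [← hwm e he]
  exact sum_nonneg fun M _ => hw0 M

/-- Small demands are realisable greedily. -/
theorem real_of_small {r : E → E → Prop} [DecidableRel r] (hs : ∀ a b, r a b → r b a)
    (hrefl : ∀ a, r a a) {π : E → ℝ} (hπ : ∀ e, 0 ≤ π e) (R : Finset E)
    (hsm : ∀ e ∈ R, ∑ f ∈ R with r e f, π f ≤ 1) : Real r R π := by
  classical
  induction R using Finset.induction_on with
  | empty => exact real_empty r π
  | @insert a R haR ih =>
    have h1 : ∀ e ∈ R, ∑ f ∈ R with r e f, π f ≤ 1 := by
      intro e he
      refine le_trans ?_ (hsm e (mem_insert_of_mem he))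
      apply sum_le_sum_of_subset_of_nonneg
      · exact filter_subset_filter _ (subset_insert a R)
      · exact fun f _ _ => hπ f
    apply real_greedy hs haR (ih h1) (hπ a)
    have h2 := hsm a (mem_insert_self a R)
    have h3 : (insert a R).filter (fun f => r a f) = insert a (R.filter fun f => r a f) := by
      ext f
      simp only [mem_filter, mem_insert]
      constructor
      · rintro ⟨rfl | h, h'⟩
        · exact Or.inl rfl
        · exact Or.inr ⟨h, h'⟩
      · rintro (rfl | ⟨h, h'⟩)
        · exact ⟨Or.inl rfl, hrefl _⟩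
        · exact ⟨Or.inr h, h'⟩
    rw [h3, sum_insert (by simp [haR])] at h2
    exact h2

/-- Mass of the outcomes avoiding the elements with property `p`. -/
theorem avoid_mass {R : Finset E} {y : E → ℝ} {w : Finset E → ℝ} (hw0 : ∀ M, 0 ≤ w M)
    (hws : ∀ M, w M ≠ 0 → M ⊆ R) (hw1 : ∑ M, w M = 1)
    (hwm : ∀ e ∈ R, ∑ M with e ∈ M, w M = y e) (p : E → Prop) [DecidablePred p] :
    1 - ∑ f ∈ R with p f, y f ≤ ∑ M with (∀ g ∈ M, ¬ p g), w M := by
  classical
  have h1 : ∑ f ∈ R with p f, y f = ∑ M, w M * ((M ∩ R).filter p).card := by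
    have : ∀ f ∈ R.filter p, y f = ∑ M, if f ∈ M then w M else 0 := by
      intro f hf
      rw [← hwm f (mem_filter.1 hf).1, sum_filter]
    rw [sum_congr rfl this, sum_comm]
    refine sum_congr rfl fun M _ => ?_
    rw [← sum_filter, sum_const, nsmul_eq_mul, mul_comm]
    congr 3
    ext f
    simp only [mem_filter, mem_inter]
    tauto
  rw [h1, ← hw1, sum_filter, ← sum_sub_distrib]
  refine sum_le_sum fun M _ => ?_
  split_ifs with h
  · have := mul_nonneg (hw0 M) (Nat.cast_nonneg (α := ℝ) ((M ∩ R).filter p).card)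
    linarith
  · by_cases hwM : w M = 0
    · rw [hwM]; simp
    · have h2 := hws M hwM
      push Not at h
      obtain ⟨g, hg, hrg⟩ := h
      have h3 : 0 < ((M ∩ R).filter p).card :=
        card_pos.2 ⟨g, mem_filter.2 ⟨mem_inter.2 ⟨hg, h2 hg⟩, hrg⟩⟩
      have h4 : (1 : ℝ) ≤ (((M ∩ R).filter p).card : ℝ) := by exact_mod_cast h3
      have := mul_le_mul_of_nonneg_left h4 (hw0 M)
      linarith

/-- **The request lemma.** -/
theorem real_request {r : E → E → Prop} [DecidableRel r]
    (hrefl : ∀ a, r a a) (hs : ∀ a b, r a b → r b a) {R' F : Finset E}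
    (hdisj : Disjoint R' F) {y0 π y : E → ℝ} (hN : Real r (R' ∪ F) y0) (hJ : Real r F π)
    (del : E → E → Prop) [DecidableRel del] (hy : ∀ e ∈ R' ∪ F, 0 ≤ y e)
    (hR : ∀ g ∈ R', y g ≤ y0 g * (1 - ∑ e ∈ F with (r e g ∧ del e g), π e))
    (hF : ∀ e ∈ F, y e ≤ y0 e +
      π e * (1 - ∑ f ∈ R' ∪ F with (r e f ∧ ¬ (f ∈ R' ∧ del e f)), y0 f)) :
    Real r (R' ∪ F) y := by
  classical
  have hπ0 : ∀ e ∈ F, 0 ≤ π e := fun e he => real_nonneg hJ he
  obtain ⟨w, hw0, hws, hw1, hwm⟩ := hN
  obtain ⟨v, hv0, hvs, hv1, hvm⟩ := hJ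
  set cond : Finset E → E → Prop := fun N e => ∀ f ∈ N, r e f → f ∈ R' ∧ del e f with hcond
  set acc : Finset E → Finset E → Finset E := fun N J => J.filter (fun e => cond N e) with hacc
  set out : Finset E → Finset E → Finset E := fun N J =>
    N.filter (fun f => ∀ e ∈ acc N J, ¬ r e f) ∪ acc N J with hout
  -- membership in the outcome
  have hmemR : ∀ N J g, J ⊆ F → g ∈ R' →
      (g ∈ out N J ↔ g ∈ N ∧ ∀ e ∈ acc N J, ¬ r e g) := by
    intro N J g hJF hg
    simp only [hout, mem_union, mem_filter]
    constructor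
    · rintro (h | h)
      · exact h
      · exfalso
        have h1 : g ∈ J := by
          simp only [hacc, mem_filter] at h
          exact h.1
        exact disjoint_left.1 hdisj hg (hJF h1)
    · exact fun h => Or.inl h
  have hmemF : ∀ N J e, e ∈ F → (e ∈ out N J ↔ e ∈ N ∨ (e ∈ J ∧ cond N e)) := by
    intro N J e he
    have heR : e ∉ R' := fun h => disjoint_left.1 hdisj h he
    simp only [hout, mem_union, mem_filter]
    constructor
    · rintro (h | h)
      · exact Or.inl h.1
      · right
        simpa only [hacc, mem_filter] using h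
    · rintro (h | h)
      · left
        refine ⟨h, fun e' he' hr => ?_⟩
        simp only [hacc, mem_filter] at he'
        exact heR (he'.2 e h hr).1
      · right
        simpa only [hacc, mem_filter] using h
  have hexcl : ∀ N e, e ∈ F → e ∈ N → ¬ cond N e := by
    intro N e he heN hc
    exact disjoint_left.1 hdisj (hc e heN (hrefl e)).1 he
  -- the push forward
  have key : ∀ (φ : Finset E → ℝ), ∑ K, (∑ N, ∑ J, if out N J = K then w N * v J else 0) * φ K =
      ∑ N, ∑ J, w N * v J * φ (out N J) := by
    intro φ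
    simp_rw [sum_mul]
    rw [sum_comm]
    refine sum_congr rfl fun N _ => ?_
    rw [sum_comm]
    refine sum_congr rfl fun J _ => ?_
    have : ∀ K, (if out N J = K then w N * v J else 0) * φ K =
        if out N J = K then w N * v J * φ K else 0 := by
      intro K; split_ifs <;> ring
    simp_rw [this]
    rw [sum_ite_eq]
    simp
  set W : Finset E → ℝ := fun K => ∑ N, ∑ J, if out N J = K then w N * v J else 0 with hW
  have hmarg : ∀ a, ∑ K with a ∈ K, W K = ∑ N, ∑ J, w N * v J * (if a ∈ out N J then 1 else 0) := by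
    intro a
    rw [← key (fun K => if a ∈ K then 1 else 0), sum_filter]
    refine sum_congr rfl fun K _ => ?_
    simp only [hW]
    split_ifs <;> ring
  -- realise the exact marginals first
  have hreal : Real r (R' ∪ F) (fun a => ∑ K with a ∈ K, W K) := by
    refine ⟨W, ?_, ?_, ?_, fun e _ => rfl⟩
    · intro K
      refine sum_nonneg fun N _ => sum_nonneg fun J _ => ?_
      split_ifs
      · exact mul_nonneg (hw0 N) (hv0 J)
      · exact le_rfl
    · intro K hK
      obtain ⟨N, -, hN⟩ := exists_ne_zero_of_sum_ne_zero hK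
      obtain ⟨J, -, hJ⟩ := exists_ne_zero_of_sum_ne_zero hN
      by_cases hNJ : out N J = K
      · rw [if_pos hNJ] at hJ
        have hwN : w N ≠ 0 := fun h => hJ (by rw [h, zero_mul])
        have hvJ : v J ≠ 0 := fun h => hJ (by rw [h, mul_zero])
        obtain ⟨h1, h2⟩ := hws N hwN
        obtain ⟨h3, h4⟩ := hvs J hvJ
        subst hNJ
        have haccJ : acc N J ⊆ J := filter_subset _ _
        refine ⟨?_, union_subset ((filter_subset _ _).trans h2)
          ((haccJ.trans h4).trans subset_union_right)⟩
        intro a ha b hb hab hr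
        simp only [hout, mem_union] at ha hb
        rcases ha with ha | ha <;> rcases hb with hb | hb
        · exact h1 a (mem_filter.1 ha).1 b (mem_filter.1 hb).1 hab hr
        · exact (mem_filter.1 ha).2 b hb (hs _ _ hr)
        · exact (mem_filter.1 hb).2 a ha hr
        · exact h3 a (haccJ ha) b (haccJ hb) hab hr
      · rw [if_neg hNJ] at hJ
        exact absurd rfl hJ
    · have := key (fun _ => 1)
      simp only [mul_one] at this
      rw [this]
      have h2 : ∀ N, ∑ J, w N * v J = w N := by
        intro N
        rw [← mul_sum, hv1, mul_one]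
      simp_rw [h2]
      exact hw1
  apply real_mono hreal hy
  intro a ha
  rw [hmarg a]
  rcases mem_union.1 ha with haR | haF
  · -- a ∈ R'
    refine (hR a haR).trans ?_
    rw [← hwm a ha, sum_mul, sum_filter]
    refine sum_le_sum fun N _ => ?_
    by_cases hwN : w N = 0
    · rw [hwN]; simp
    by_cases haN : a ∈ N
    · rw [if_pos haN]
      have h1 : ∑ J, w N * v J * (if a ∈ out N J then 1 else 0) =
          w N * ∑ J, v J * (if a ∈ out N J then 1 else 0) := by
        rw [mul_sum]
        refine sum_congr rfl fun J _ => ?_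
        ring
      rw [h1]
      apply mul_le_mul_of_nonneg_left _ (hw0 N)
      have h2 : ∑ e ∈ F with (r e a ∧ del e a), π e =
          ∑ J, v J * ((J ∩ F).filter (fun e => r e a ∧ del e a)).card := by
        have : ∀ e ∈ F.filter (fun e => r e a ∧ del e a), π e = ∑ J, if e ∈ J then v J else 0 := by
          intro e he
          rw [← hvm e (mem_filter.1 he).1, sum_filter]
        rw [sum_congr rfl this, sum_comm]
        refine sum_congr rfl fun J _ => ?_
        rw [← sum_filter, sum_const, nsmul_eq_mul, mul_comm]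
        congr 3
        ext f
        simp only [mem_filter, mem_inter]
        tauto
      have h6 : (1 : ℝ) - ∑ J, v J * ((J ∩ F).filter (fun e => r e a ∧ del e a)).card =
          ∑ J, (v J - v J * ((J ∩ F).filter (fun e => r e a ∧ del e a)).card) := by
        rw [sum_sub_distrib, hv1]
      rw [h2, h6]
      refine sum_le_sum fun J _ => ?_
      by_cases hvJ : v J = 0
      · rw [hvJ]; simp
      have hJF := (hvs J hvJ).2
      split_ifs with hout'
      · have := mul_nonneg (hv0 J) (Nat.cast_nonneg (α := ℝ)
          ((J ∩ F).filter (fun e => r e a ∧ del e a)).card)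
        linarith
      · rw [hmemR N J a hJF haR] at hout'
        push Not at hout'
        obtain ⟨e, he, hre⟩ := hout' haN
        simp only [hacc, mem_filter] at he
        have h3 := he.2 a haN hre
        have h4 : 0 < ((J ∩ F).filter (fun e => r e a ∧ del e a)).card :=
          card_pos.2 ⟨e, mem_filter.2 ⟨mem_inter.2 ⟨he.1, hJF he.1⟩, hre, h3.2⟩⟩
        have h5 : (1 : ℝ) ≤ (((J ∩ F).filter (fun e => r e a ∧ del e a)).card : ℝ) := by
          exact_mod_cast h4
        have := mul_le_mul_of_nonneg_left h5 (hv0 J)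
        linarith
    · rw [if_neg haN]
      apply sum_nonneg
      intro J _
      apply mul_nonneg (mul_nonneg (hw0 N) (hv0 J))
      split_ifs <;> norm_num
  · -- a ∈ F
    refine (hF a haF).trans ?_
    have h1 : ∑ N, ∑ J, w N * v J * (if a ∈ out N J then 1 else 0) =
        ∑ N, w N * (if a ∈ N then 1 else 0) +
          π a * ∑ N, w N * (if cond N a then 1 else 0) := by
      rw [mul_sum, ← sum_add_distrib]
      refine sum_congr rfl fun N _ => ?_
      by_cases haN : a ∈ N
      · have h2 : ¬ cond N a := hexcl N a haF haN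
        rw [if_pos haN, if_neg h2, mul_one, mul_zero, mul_zero, add_zero]
        have h3 : ∀ J, w N * v J * (if a ∈ out N J then (1 : ℝ) else 0) = w N * v J := by
          intro J
          rw [if_pos ((hmemF N J a haF).2 (Or.inl haN)), mul_one]
        simp_rw [h3]
        rw [← mul_sum, hv1, mul_one]
      · rw [if_neg haN, mul_zero, zero_add]
        by_cases hc : cond N a
        · rw [if_pos hc, mul_one, ← hvm a haF, sum_mul, sum_filter]
          refine sum_congr rfl fun J _ => ?_
          by_cases haJ : a ∈ J
          · rw [if_pos haJ, if_pos ((hmemF N J a haF).2 (Or.inr ⟨haJ, hc⟩))]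
            ring
          · have : a ∉ out N J := by
              rw [hmemF N J a haF]
              rintro (h | h)
              · exact haN h
              · exact haJ h.1
            rw [if_neg haJ, if_neg this]
            ring
        · rw [if_neg hc, mul_zero, mul_zero]
          apply sum_eq_zero
          intro J _
          have : a ∉ out N J := by
            rw [hmemF N J a haF]
            rintro (h | h)
            · exact haN h
            · exact hc h.2
          rw [if_neg this, mul_zero]
    rw [h1]
    have h2 : ∑ N, w N * (if a ∈ N then 1 else 0) = y0 a := by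
      rw [← hwm a ha, sum_filter]
      refine sum_congr rfl fun N _ => ?_
      split_ifs <;> ring
    rw [h2]
    have h3 := avoid_mass hw0 (fun M hM => (hws M hM).2) hw1 hwm
      (fun f => r a f ∧ ¬ (f ∈ R' ∧ del a f))
    have h4 : ∑ M with (∀ g ∈ M, ¬ (r a g ∧ ¬ (g ∈ R' ∧ del a g))), w M =
        ∑ N, w N * (if cond N a then 1 else 0) := by
      rw [sum_filter]
      refine sum_congr rfl fun N _ => ?_
      have h5 : (∀ g ∈ N, ¬ (r a g ∧ ¬ (g ∈ R' ∧ del a g))) ↔ cond N a := by
        simp only [hcond]
        constructor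
        · intro h f hf hr
          by_contra hcon
          exact h f hf ⟨hr, hcon⟩
        · rintro h g hg ⟨h6, h7⟩
          exact h7 (h g hg h6)
      by_cases hc : cond N a
      · rw [if_pos (h5.2 hc), if_pos hc, mul_one]
      · rw [if_neg (fun h => hc (h5.1 h)), if_neg hc, mul_zero]
    rw [h4] at h3
    have := mul_le_mul_of_nonneg_left h3 (hπ0 a haF)
    linarith

/-- Batch with thinned demands `s` followed by independent requests `π`. -/
theorem real_step {r : E → E → Prop} [DecidableRel r]
    (hrefl : ∀ a, r a a) (hs : ∀ a b, r a b → r b a) {R' F : Finset E}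
    (hdisj : Disjoint R' F) {y1 s lam π y : E → ℝ} (hR' : Real r R' y1)
    (hs0 : ∀ e ∈ F, 0 ≤ s e) (hlam : ∀ e ∈ F, 0 < s e → 0 < lam e)
    (hcl : ∀ C ⊆ F, (∀ a ∈ C, 0 < s a) → (∀ a ∈ C, ∀ b ∈ C, r a b) → ∑ a ∈ C, lam a ≤ 1)
    (hbud : ∀ e ∈ F, 0 < s e →
      ∑ f ∈ F with r e f, s f + s e / lam e ≤ 2 * (1 - ∑ f ∈ R' with r e f, y1 f))
    (hπ : ∀ e, 0 ≤ π e) (hπs : ∀ e ∈ F, ∑ f ∈ F with r e f, π f ≤ 1)
    (del : E → E → Prop) [DecidableRel del] (hy : ∀ e ∈ R' ∪ F, 0 ≤ y e)
    (hR : ∀ g ∈ R', y g ≤ y1 g * (1 - ∑ e ∈ F with (r e g ∧ del e g), π e))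
    (hF : ∀ e ∈ F, y e ≤ s e + π e * (1 - ∑ f ∈ F with r e f, s f -
      ∑ f ∈ R' with (r e f ∧ ¬ del e f), y1 f)) :
    Real r (R' ∪ F) y := by
  classical
  set y0 : E → ℝ := fun e => if e ∈ F then s e else y1 e with hy0
  have hy0F : ∀ e ∈ F, y0 e = s e := fun e he => by simp [hy0, he]
  have hnF : ∀ e ∈ R', e ∉ F := fun e he h => disjoint_left.1 hdisj he h
  have hy0R : ∀ e ∈ R', y0 e = y1 e := fun e he => by simp [hy0, hnF e he]
  have hR0 : Real r R' y0 := real_congr hR' fun e he => (hy0R e he).symm
  have hsum1 : ∀ (p : E → Prop) [DecidablePred p], ∑ f ∈ F with p f, y0 f = ∑ f ∈ F with p f, s f :=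
    fun p _ => sum_congr rfl fun f hf => hy0F f (mem_filter.1 hf).1
  have hsum2 : ∀ (p : E → Prop) [DecidablePred p],
      ∑ f ∈ R' with p f, y0 f = ∑ f ∈ R' with p f, y1 f :=
    fun p _ => sum_congr rfl fun f hf => hy0R f (mem_filter.1 hf).1
  have hN : Real r (R' ∪ F) y0 := by
    apply real_batch hrefl hs hdisj hR0 (fun e he => by rw [hy0F e he]; exact hs0 e he)
      (lam := lam)
    · intro e he h
      rw [hy0F e he] at h
      exact hlam e he h
    · intro C hC hCs hCc
      exact hcl C hC (fun a ha => by rw [← hy0F a (hC ha)]; exact hCs a ha) hCc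
    · intro e he h
      rw [hy0F e he] at h
      rw [hsum1, hsum2, hy0F e he]
      exact hbud e he h
  apply real_request hrefl hs hdisj hN (real_of_small hs hrefl hπ F hπs) del hy
  · intro g hg
    rw [hy0R g hg]
    exact hR g hg
  · intro e he
    rw [hy0F e he]
    refine (hF e he).trans ?_
    have h1 : ∑ f ∈ R' ∪ F with (r e f ∧ ¬ (f ∈ R' ∧ del e f)), y0 f =
        ∑ f ∈ R' with (r e f ∧ ¬ del e f), y1 f + ∑ f ∈ F with r e f, s f := by
      rw [filter_union, sum_union (disjoint_filter_filter hdisj)]
      congr 1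
      · rw [← hsum2]
        apply sum_congr _ fun _ _ => rfl
        ext f
        simp only [mem_filter]
        constructor
        · rintro ⟨h1, h2, h3⟩
          exact ⟨h1, h2, fun h => h3 ⟨h1, h⟩⟩
        · rintro ⟨h1, h2, h3⟩
          exact ⟨h1, h2, fun h => h3 h.2⟩
      · rw [← hsum1]
        apply sum_congr _ fun _ _ => rfl
        ext f
        simp only [mem_filter]
        constructor
        · rintro ⟨h1, h2, h3⟩
          exact ⟨h1, h2⟩
        · rintro ⟨h1, h2⟩
          exact ⟨h1, h2, fun h => hnF f h.1 h1⟩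
    rw [h1]
    apply le_of_eq
    ring

end H34.FKS
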