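import Mathlib
import Pool.Agent.H4.FKS.Real
import Pool.Agent.H34.FKS.Phase2

/-!
# Levels of the exact theorem

`Lvl H x κ k`: the edges of size at least `k` can be served with the demands `x e / c_|e|`, those
of size exactly `k` inflated by the factor `1 + κ e`.
-/

set_option autoImplicit false
set_option linter.unusedSectionVars false
set_option linter.unusedVariables false

namespace H34.FKS

open Finset H4.FKS

section Graph

variable {E : Type*} [DecidableEq E] [Fintype E]

/-- Greedy reduction: it suffices to serve the sets without a greedy element. -/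
theorem real_reduce {r : E → E → Prop} [DecidableRel r]
    (hrefl : ∀ a, r a a) (hs : ∀ a b, r a b → r b a) {y : E → ℝ} (hy : ∀ e, 0 ≤ y e)
    (P : E → Prop)
    (hcond : ∀ R : Finset E, (∀ e ∈ R, P e) → (∀ e ∈ R, 1 < ∑ f ∈ R with r e f, y f) →
      Real r R y) (R : Finset E) (hP : ∀ e ∈ R, P e) : Real r R y := by
  classical
  induction hn : R.card using Nat.strong_induction_on generalizing R with
  | _ n ih =>
    by_cases hg : ∃ e ∈ R, ∑ f ∈ R with r e f, y f ≤ 1
    · obtain ⟨e, he, hA⟩ := hg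
      have hcard : (R.erase e).card < n := by
        rw [← hn]; exact card_erase_lt_of_mem he
      have h1 := ih _ hcard (R.erase e) (fun a ha => hP a (mem_of_mem_erase ha)) rfl
      have h2 := real_greedy hs (notMem_erase e R) h1 (hy e) (by
        refine le_trans (le_of_eq ?_) hA
        have h3 : R.filter (fun f => r e f) =
            insert e ((R.erase e).filter (fun f => r e f)) := by
          ext f
          simp only [mem_filter, mem_insert, mem_erase]
          constructor
          · rintro ⟨h1, h2⟩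
            by_cases hfe : f = e
            · exact Or.inl hfe
            · exact Or.inr ⟨⟨hfe, h1⟩, h2⟩
          · rintro (rfl | ⟨⟨_, h1⟩, h2⟩)
            · exact ⟨he, hrefl _⟩
            · exact ⟨h1, h2⟩
        rw [h3, sum_insert (by simp)])
      rwa [insert_erase he] at h2
    · push Not at hg
      exact hcond R hP hg

end Graph

variable {V E : Type} [Fintype V] [DecidableEq V] [DecidableEq E] [Fintype E]

/-- The constants `k - 1 + 1/k`. -/
noncomputable def ck (k : ℕ) : ℝ := (k : ℝ) - 1 + 1 / k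

theorem ck_pos {k : ℕ} (hk : 1 ≤ k) : 0 < ck k := by
  have h1 : (1 : ℝ) ≤ k := by exact_mod_cast hk
  have h2 : 0 < 1 / (k : ℝ) := by positivity
  unfold ck
  linarith

theorem ck_succ_le {k : ℕ} (hk : 1 ≤ k) : ck k ≤ ck (k + 1) := by
  have h1 : (1 : ℝ) ≤ k := by exact_mod_cast hk
  unfold ck
  push_cast
  have h2 : 1 / (k : ℝ) ≤ 1 := by
    rw [div_le_one (by linarith)]; exact h1
  have h3 : 0 < 1 / ((k : ℝ) + 1) := by positivity
  linarith

theorem ck_mono {k j : ℕ} (hk : 1 ≤ k) (hj : k ≤ j) : ck k ≤ ck j := by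
  induction j, hj using Nat.le_induction with
  | base => exact le_rfl
  | succ n hn ih => exact ih.trans (ck_succ_le (hk.trans hn))

/-- Demands at level `k`. -/
noncomputable def dem (H : E → Finset V) (x κ : E → ℝ) (k : ℕ) (e : E) : ℝ :=
  if (H e).card = k then (1 + κ e) * (x e / ck k) else x e / ck (H e).card

/-- All edges of size at least `k` can be served with the level `k` demands. -/
def Lvl (H : E → Finset V) (x κ : E → ℝ) (k : ℕ) : Prop :=
  ∀ R : Finset E, (∀ e ∈ R, k ≤ (H e).card) →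
    Real (fun e f => ¬ Disjoint (H e) (H f)) R (dem H x κ k)

/-- Mass (with multiplicity) of the edges smaller than `k` on the vertices of `e`. -/
noncomputable def bsm (H : E → Finset V) (x : E → ℝ) (k : ℕ) (e : E) : ℝ :=
  ∑ f with (H f).card < k, x f * ((H e ∩ H f).card : ℝ)

theorem bsm_nonneg {H : E → Finset V} {x : E → ℝ} (hx : ∀ e, 0 ≤ x e) (k : ℕ) (e : E) :
    0 ≤ bsm H x k e :=
  sum_nonneg fun f _ => mul_nonneg (hx f) (Nat.cast_nonneg _)

theorem dem_nonneg {H : E → Finset V} (hne : ∀ e, (H e).Nonempty) {x κ : E → ℝ}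
    (hx : ∀ e, 0 ≤ x e) (hκ : ∀ e, 0 ≤ κ e) (k : ℕ) (e : E) : 0 ≤ dem H x κ k e := by
  unfold dem
  have h1 : 0 < ck (H e).card := ck_pos (card_pos.2 (hne e))
  split_ifs with h
  · rw [← h]
    exact mul_nonneg (by linarith [hκ e]) (div_nonneg (hx e) h1.le)
  · exact div_nonneg (hx e) h1.le

/-- Incidences on a vertex set. -/
theorem sum_inc_le {H : E → Finset V} {x : E → ℝ}
    (hdeg : ∀ v, ∑ f with v ∈ H f, x f ≤ 1) (U : Finset V) :
    ∑ f, x f * ((U ∩ H f).card : ℝ) ≤ (U.card : ℝ) := by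
  classical
  have h1 : ∑ v ∈ U, ∑ f with v ∈ H f, x f = ∑ f, x f * ((U ∩ H f).card : ℝ) := by
    simp_rw [sum_filter]
    rw [sum_comm]
    refine sum_congr rfl fun f _ => ?_
    rw [← sum_filter, sum_const, nsmul_eq_mul, mul_comm]
    congr 2
  rw [← h1]
  calc ∑ v ∈ U, ∑ f with v ∈ H f, x f ≤ ∑ v ∈ U, (1 : ℝ) := sum_le_sum fun v _ => hdeg v
    _ = (U.card : ℝ) := by simp

/-- Nonempty intersections have at least one element. -/
theorem one_le_inter {A B : Finset V} (h : ¬ Disjoint A B) : (1 : ℝ) ≤ ((A ∩ B).card : ℝ) := by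
  have h1 : 0 < (A ∩ B).card := by
    rw [card_pos]
    exact not_disjoint_iff_nonempty_inter.1 h
  exact_mod_cast h1

/-- **General lower bound** for `2 l_e - Yh_e`: `F` the edges of size `k` still present, `R'` the
larger ones with demands `y1`, `T` a set of large edges meeting `e` in one vertex. -/
theorem head_lower {H : E → Finset V} {x : E → ℝ} (hx : ∀ e, 0 ≤ x e)
    (hdeg : ∀ v, ∑ f with v ∈ H f, x f ≤ 1) {k : ℕ} {c C c2 : ℝ} (hC : 0 < C) (hC2 : C ≤ c2)
    {F R' : Finset E} (hF : ∀ f ∈ F, (H f).card = k) (hR' : ∀ f ∈ R', k < (H f).card)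
    {κ y1 : E → ℝ} (hy1 : ∀ f ∈ R', y1 f ≤ x f / C) {e : E} (he : (H e).card = k)
    {T : Finset E} (hT : T ⊆ R') (hTe : ∀ f ∈ T, (H e ∩ H f).card = 1 ∧ y1 f ≤ x f / c2) :
    2 - 2 * k / C + 2 / C * bsm H x k e +
      ∑ f ∈ F with ¬ Disjoint (H e) (H f), x f * (2 / C * ((H e ∩ H f).card : ℝ) -
        (1 + κ f) / c) + (2 / C - 2 / c2) * ∑ f ∈ T, x f ≤
      2 * (1 - ∑ f ∈ R' with ¬ Disjoint (H e) (H f), y1 f) -
        ∑ f ∈ F with ¬ Disjoint (H e) (H f), (1 + κ f) * (x f / c) := by
  classical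
  have hC2' : 0 < c2 := hC.trans_le hC2
  -- pointwise bound on R'
  have h1 : ∀ f ∈ R', (if ¬ Disjoint (H e) (H f) then y1 f else 0) ≤
      x f * ((H e ∩ H f).card : ℝ) / C - (if f ∈ T then (1 / C - 1 / c2) * x f else 0) := by
    intro f hf
    by_cases hfT : f ∈ T
    · obtain ⟨h2, h3⟩ := hTe f hfT
      rw [if_pos hfT, h2]
      have hd : ¬ Disjoint (H e) (H f) := by
        rw [not_disjoint_iff_nonempty_inter, ← card_pos, h2]
        norm_num
      rw [if_pos hd]
      push_cast
      refine h3.trans (le_of_eq ?_)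
      ring
    · rw [if_neg hfT, sub_zero]
      by_cases hd : Disjoint (H e) (H f)
      · rw [if_neg (not_not.2 hd)]
        exact div_nonneg (mul_nonneg (hx f) (Nat.cast_nonneg _)) hC.le
      · rw [if_pos hd]
        refine (hy1 f hf).trans ?_
        apply div_le_div_of_nonneg_right _ hC.le
        have := mul_le_mul_of_nonneg_left (one_le_inter hd) (hx f)
        linarith
  have h2 : ∑ f ∈ R' with ¬ Disjoint (H e) (H f), y1 f ≤
      (∑ f ∈ R', x f * ((H e ∩ H f).card : ℝ)) / C - (1 / C - 1 / c2) * ∑ f ∈ T, x f := by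
    rw [sum_filter]
    refine (sum_le_sum h1).trans (le_of_eq ?_)
    rw [sum_sub_distrib, ← sum_div, ← sum_filter, mul_sum]
    congr 1
    apply sum_congr _ fun _ _ => rfl
    ext f
    simp only [mem_filter]
    exact ⟨fun h => h.2, fun h => ⟨hT h, h⟩⟩
  -- incidences
  have h3 := sum_inc_le hdeg (H e)
  rw [he] at h3
  have h4 : bsm H x k e + (∑ f ∈ F, x f * ((H e ∩ H f).card : ℝ) +
      ∑ f ∈ R', x f * ((H e ∩ H f).card : ℝ)) ≤ ∑ f, x f * ((H e ∩ H f).card : ℝ) := by
    have hd1 : Disjoint F R' := by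
      rw [disjoint_left]
      intro f hf hf'
      have := hF f hf
      have := hR' f hf'
      omega
    have hd2 : Disjoint (univ.filter fun f => (H f).card < k) (F ∪ R') := by
      rw [disjoint_left]
      intro f hf hf'
      have h5 := (mem_filter.1 hf).2
      rcases mem_union.1 hf' with h | h
      · have := hF f h
        omega
      · have := hR' f h
        omega
    rw [bsm, ← sum_union hd1, ← sum_union hd2]
    apply sum_le_sum_of_subset_of_nonneg (subset_univ _)
    intro f _ _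
    exact mul_nonneg (hx f) (Nat.cast_nonneg _)
  have h5 : ∑ f ∈ F with ¬ Disjoint (H e) (H f), x f * (2 / C * ((H e ∩ H f).card : ℝ) -
        (1 + κ f) / c) = 2 / C * ∑ f ∈ F, x f * ((H e ∩ H f).card : ℝ) -
        ∑ f ∈ F with ¬ Disjoint (H e) (H f), (1 + κ f) * (x f / c) := by
    have h6 : ∑ f ∈ F, x f * ((H e ∩ H f).card : ℝ) =
        ∑ f ∈ F with ¬ Disjoint (H e) (H f), x f * ((H e ∩ H f).card : ℝ) := by
      rw [sum_filter]
      refine sum_congr rfl fun f _ => ?_
      by_cases h : Disjoint (H e) (H f)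
      · rw [if_neg (not_not.2 h), disjoint_iff_inter_eq_empty.1 h]
        simp
      · rw [if_pos h]
    rw [h6, mul_sum, ← sum_sub_distrib]
    refine sum_congr rfl fun f _ => ?_
    ring
  rw [h5]
  have h7 : ∑ f ∈ R', x f * ((H e ∩ H f).card : ℝ) ≤
      k - bsm H x k e - ∑ f ∈ F, x f * ((H e ∩ H f).card : ℝ) := by linarith
  have h8 := div_le_div_of_nonneg_right h7 hC.le
  set SF := ∑ f ∈ F, x f * ((H e ∩ H f).card : ℝ)
  set SR := (∑ f ∈ R', x f * ((H e ∩ H f).card : ℝ)) / C
  set ST := ∑ f ∈ T, x f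
  set b := bsm H x k e
  set Y := ∑ f ∈ F with ¬ Disjoint (H e) (H f), (1 + κ f) * (x f / c)
  have h9 : (k - b - SF) / C = k / C - b / C - SF / C := by ring
  rw [h9] at h8
  have e1 : 2 * (k : ℝ) / C = 2 * (k / C) := by ring
  have e2 : 2 / C * b = 2 * (b / C) := by ring
  have e3 : 2 / C * SF = 2 * (SF / C) := by ring
  have e4 : (2 / C - 2 / c2) * ST = 2 * ((1 / C - 1 / c2) * ST) := by ring
  rw [e1, e2, e3, e4]
  linarith

end H34.FKS
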