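import Mathlib
import Pool.Agent.H34.FKS.StepDefs
import Pool.Agent.H34.FKS.NonStar2

/-!
# The step from level `k + 1` to level `k` with requests at the own leaf only

The parameters of the step are collected in `Par`; `step_own` is the step.
-/

set_option autoImplicit false
set_option linter.unusedSectionVars false
set_option linter.unusedVariables false

namespace H34.FKS

open Finset H4.FKS

/-- Maximum of a function over a finite set and zero. -/
theorem exists_top {V : Type*} (S : Finset V) (f : V → ℝ) :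
    ∃ z : ℝ, 0 ≤ z ∧ (∀ v ∈ S, f v ≤ z) ∧ (z = 0 ∨ ∃ v ∈ S, z = f v) := by
  classical
  rcases S.eq_empty_or_nonempty with rfl | hne
  · exact ⟨0, le_rfl, by simp, Or.inl rfl⟩
  obtain ⟨m, hm, hmax⟩ := exists_max_image S f hne
  by_cases h : 0 ≤ f m
  · exact ⟨f m, h, hmax, Or.inr ⟨m, hm, rfl⟩⟩
  · push Not at h
    exact ⟨0, le_rfl, fun v hv => (hmax v hv).trans h.le, Or.inl rfl⟩

/-- **Star lemma**, abstract form. -/
theorem star_sum {E : Type*} {S : Finset E} {s y yh h L η : E → ℝ} {a D : ℝ}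
    (ha : 0 < a + D) (hD : D = ∑ e ∈ S, (yh e - s e)) (hs : ∀ e ∈ S, 0 ≤ s e)
    (hh : ∀ e ∈ S, 0 < h e + D) (hL : ∀ e ∈ S, h e + D ≤ L e)
    (hst : ∀ e ∈ S, s e * (a + D) ≤ (y e + η e + (yh e - s e)) * (h e + D))
    (hsum : ∑ e ∈ S, (y e + η e) ≤ a) : ∑ e ∈ S, s e / L e ≤ 1 := by
  have h1 : ∀ e ∈ S, s e / L e ≤ (y e + η e + (yh e - s e)) / (a + D) := by
    intro e he
    calc s e / L e ≤ s e / (h e + D) :=
          div_le_div_of_nonneg_left (hs e he) (hh e he) (hL e he)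
      _ ≤ (y e + η e + (yh e - s e)) / (a + D) := by
          rw [div_le_div_iff₀ (hh e he) ha]
          exact hst e he
  refine (sum_le_sum h1).trans ?_
  rw [← sum_div, div_le_one ha, sum_add_distrib, ← hD]
  linarith

/-- The numerical heart of the acceptance estimate. -/
theorem acc_num {c σ Q p X β W L n acc : ℝ} (hc : 0 < c) (hσ : 0 < σ) (hcσ : c * σ < 1)
    (hQ : 0 < Q) (hp : 0 < p) (hpQ : σ ≤ p * ((2 - c * σ) * Q)) (hX : 0 < X) (hX1 : X ≤ 1)
    (hβ : 0 < β) (hβ1 : β ≤ 1) (hW : 0 ≤ W) (hL : σ * L ≤ Q * W) (hn0 : 0 < n)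
    (hn : n ≤ β * (σ * X - W)) (hacc : Q - L ≤ acc) : n ≤ p * β * acc * (2 * X - c * n) := by
  set M := 2 - c * σ with hM
  have hM1 : 1 < M := by rw [hM]; linarith
  have hn1 : 0 < σ * X - W := by
    by_contra h
    push Not at h
    have := mul_nonneg hβ.le (sub_nonneg.2 h)
    nlinarith
  have hnn : n ≤ σ * X - W := hn.trans (by nlinarith)
  have hWσ : W ≤ σ := by nlinarith
  have hden : M * X + c * W ≤ 2 * X - c * n := by
    have := mul_le_mul_of_nonneg_left hnn hc.le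
    rw [hM]
    nlinarith
  have hden0 : 0 < M * X + c * W := by positivity
  -- p (Q - L) ≥ (σ - W) / M
  have h1 : (σ - W) ≤ p * (Q - L) * M := by
    have h2 : Q * (σ - W) ≤ (Q - L) * σ := by nlinarith
    have h3 : σ * (σ - W) ≤ p * (M * Q) * (σ - W) :=
      mul_le_mul_of_nonneg_right hpQ (by linarith)
    have h4 : p * M * (Q * (σ - W)) ≤ p * M * ((Q - L) * σ) :=
      mul_le_mul_of_nonneg_left h2 (by positivity)
    have h5 : σ * (σ - W) ≤ σ * (p * (Q - L) * M) := by nlinarith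
    exact le_of_mul_le_mul_left h5 hσ
  have hQL : 0 ≤ Q - L := by
    have h2 : Q * (σ - W) ≤ (Q - L) * σ := by nlinarith
    have h3 : 0 ≤ Q * (σ - W) := mul_nonneg hQ.le (by linarith)
    by_contra h
    push Not at h
    nlinarith
  have h2 : (σ * X - W) * M ≤ (σ - W) * (M * X + c * W) := by
    have h3 : (σ - W) * (M * X + c * W) - (σ * X - W) * M =
        W * (M * (1 - X) + c * (σ - W)) := by ring
    have h4 : 0 ≤ W * (M * (1 - X) + c * (σ - W)) := by
      apply mul_nonneg hW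
      have := mul_nonneg (by linarith : (0 : ℝ) ≤ M) (by linarith : 0 ≤ 1 - X)
      have := mul_nonneg hc.le (by linarith : 0 ≤ σ - W)
      linarith
    linarith
  have h3 : σ * X - W ≤ p * (Q - L) * (M * X + c * W) := by
    have h4 : (σ - W) * (M * X + c * W) ≤ p * (Q - L) * M * (M * X + c * W) :=
      mul_le_mul_of_nonneg_right h1 hden0.le
    have h5 : (σ * X - W) * M ≤ p * (Q - L) * (M * X + c * W) * M := by nlinarith
    exact le_of_mul_le_mul_right h5 (by linarith)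
  calc n ≤ β * (σ * X - W) := hn
    _ ≤ β * (p * (Q - L) * (M * X + c * W)) := mul_le_mul_of_nonneg_left h3 hβ.le
    _ ≤ β * (p * acc * (2 * X - c * n)) := by
        apply mul_le_mul_of_nonneg_left _ hβ.le
        apply mul_le_mul _ hden hden0.le (mul_nonneg hp.le (hQL.trans hacc))
        exact mul_le_mul_of_nonneg_left hacc hp.le
    _ = p * β * acc * (2 * X - c * n) := by ring

/-- The orphan estimate. -/
theorem orph_num {c σ g δ X x n : ℝ} (hc : 0 < c) (hg : 0 < g) (hδ : 0 ≤ δ) (hσ : 0 < σ)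
    (hcσ : c * σ < 1) (hX : 0 ≤ X) (hx : 0 ≤ x) (h6 : σ ^ 2 ≤ 4 * g * δ * (1 / c - σ))
    (hn : n ≤ σ * X - g * x) : x * n ≤ δ * X * (X / c - n) := by
  have hs : 0 < 1 / c - σ := by
    rw [sub_pos, lt_div_iff₀ hc]
    linarith
  have h1 : X * (1 / c - σ) ≤ X / c - n := by
    have : X / c = X * (1 / c) := by ring
    rw [this]
    have := mul_nonneg hg.le hx
    nlinarith
  have h2 : x * n ≤ x * (σ * X - g * x) := mul_le_mul_of_nonneg_left hn hx
  have h3 : 4 * g * (x * (σ * X - g * x)) ≤ (σ * X) ^ 2 := by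
    nlinarith [sq_nonneg (σ * X - 2 * g * x)]
  have h4 : (σ * X) ^ 2 ≤ 4 * g * (δ * X * (X * (1 / c - σ))) := by
    have := mul_le_mul_of_nonneg_right h6 (sq_nonneg X)
    nlinarith
  have h5 : x * (σ * X - g * x) ≤ δ * X * (X * (1 / c - σ)) := by
    have h6 : 4 * g * (x * (σ * X - g * x)) ≤ 4 * g * (δ * X * (X * (1 / c - σ))) := h3.trans h4
    exact le_of_mul_le_mul_left h6 (by positivity)
  refine h2.trans (h5.trans ?_)
  exact mul_le_mul_of_nonneg_left h1 (mul_nonneg hδ hX)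

/-- **Star cliques.** -/
theorem star_bound {E : Type*} {S : Finset E} {x κ z Hh L : E → ℝ} {orph : E → Prop}
    {c σ g δ X Db a kb : ℝ} (hc : 0 < c) (hg : 0 < g) (hδ : 0 ≤ δ) (hσ : 0 < σ)
    (hcσ : c * σ < 1) (h6 : σ ^ 2 ≤ 4 * g * δ * (1 / c - σ))
    (hx : ∀ e ∈ S, 0 ≤ x e) (hX : X = ∑ e ∈ S, x e) (hX0 : 0 < X) (ha : a = (1 + δ) * X / c)
    (hDb : (1 + kb) * X / c ≤ Db) (hκ : ∀ e ∈ S, 0 ≤ κ e ∧ κ e ≤ kb)
    (hz : ∀ e ∈ S, 0 ≤ z e ∧ z e ≤ 1) (hH : ∀ e ∈ S, 0 < Hh e)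
    (hnum : ∀ e ∈ S, (1 + κ e) * a - Hh e + κ e * Db ≤ σ * X - g * x e)
    (hzle : ∀ e ∈ S, x e ≠ 0 → ¬ orph e →
      ((1 + κ e) * a - Hh e + κ e * Db) / (a + Hh e) ≤ z e)
    (horph : ∀ e ∈ S, ∀ f ∈ S, x e ≠ 0 → x f ≠ 0 → orph e → orph f → e = f)
    (hL : ∀ e ∈ S, Hh e + ∑ f ∈ S, z f * (x f / c) ≤ L e) :
    ∑ e ∈ S, (1 + κ e - z e) * (x e / c) / L e ≤ 1 := by
  classical
  set D := ∑ f ∈ S, z f * (x f / c) with hD
  have hxc : ∀ e ∈ S, 0 ≤ x e / c := fun e he => div_nonneg (hx e he) hc.le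
  have hD0 : 0 ≤ D := sum_nonneg fun f hf => mul_nonneg (hz f hf).1 (hxc f hf)
  have ha0 : 0 < a := by
    rw [ha]
    exact div_pos (mul_pos (by linarith) hX0) hc
  have hDDb : D ≤ Db := by
    refine le_trans ?_ hDb
    rw [hD, hX, mul_div_assoc, sum_div, mul_sum]
    refine sum_le_sum fun f hf => mul_le_mul_of_nonneg_right ?_ (hxc f hf)
    have := (hκ f hf).1.trans (hκ f hf).2
    linarith [(hz f hf).2]
  refine star_sum (y := fun e => x e / c) (yh := fun e => (1 + κ e) * (x e / c)) (h := Hh)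
    (η := fun e => if x e ≠ 0 ∧ orph e then δ * X / c else 0) (a := a) (D := D) (by linarith)
    ?_ ?_ ?_ hL ?_ ?_
  · rw [hD]
    refine sum_congr rfl fun e _ => ?_
    ring
  · intro e he
    exact mul_nonneg (by linarith [(hκ e he).1, (hz e he).2]) (hxc e he)
  · intro e he
    linarith [hH e he]
  · intro e he
    obtain ⟨hκ0, hκ1⟩ := hκ e he
    obtain ⟨hz0, hz1⟩ := hz e he
    have hHe := hH e he
    have hxe := hxc e he
    have hn := hnum e he
    have hHD : 0 < Hh e + D := by linarith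
    have hmono : κ e * D ≤ κ e * Db := mul_le_mul_of_nonneg_left hDDb hκ0
    by_cases hx0 : x e = 0
    · rw [hx0]
      have h1 : (0 : ℝ) ≤ if (0 : ℝ) ≠ 0 ∧ orph e then δ * X / c else 0 := by simp
      simp
    by_cases ho : orph e
    · rw [if_pos ⟨hx0, ho⟩]
      -- orphan
      have h1 : x e * ((1 + κ e) * (a + D)) ≤ (x e + δ * X) * (Hh e + D) := by
        have h2 : (1 + κ e) * (a + D) ≤ (Hh e + D) + ((1 + κ e) * a - Hh e + κ e * Db) := by
          nlinarith
        have h3 := orph_num hc hg hδ hσ hcσ hX0.le (hx e he) h6 hn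
        have h4 : X / c ≤ a := by
          rw [ha]
          apply div_le_div_of_nonneg_right _ hc.le
          have := mul_nonneg hδ hX0.le
          linarith
        have h5 : X / c - ((1 + κ e) * a - Hh e + κ e * Db) ≤ Hh e + D := by
          have h6 : 0 ≤ κ e * a := mul_nonneg hκ0 ha0.le
          have h7 : 0 ≤ κ e * Db := mul_nonneg hκ0 (hD0.trans hDDb)
          nlinarith
        have h6 : δ * X * (X / c - ((1 + κ e) * a - Hh e + κ e * Db)) ≤
            δ * X * (Hh e + D) :=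
          mul_le_mul_of_nonneg_left h5 (mul_nonneg hδ hX0.le)
        have h7 := mul_le_mul_of_nonneg_left h2 (hx e he)
        nlinarith
      have h2 : (1 + κ e - z e) * (x e / c) * (a + D) ≤ (1 + κ e) * (x e / c) * (a + D) := by
        apply mul_le_mul_of_nonneg_right _ (by linarith)
        apply mul_le_mul_of_nonneg_right _ hxe
        linarith
      have h3 : (1 + κ e) * (x e / c) * (a + D) ≤ (x e / c + δ * X / c) * (Hh e + D) := by
        have e1 : (1 + κ e) * (x e / c) * (a + D) = x e * ((1 + κ e) * (a + D)) / c := by ring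
        have e2 : (x e / c + δ * X / c) * (Hh e + D) = (x e + δ * X) * (Hh e + D) / c := by ring
        rw [e1, e2]
        exact div_le_div_of_nonneg_right h1 hc.le
      have h4 : 0 ≤ ((1 + κ e) * (x e / c) - (1 + κ e - z e) * (x e / c)) * (Hh e + D) := by
        apply mul_nonneg _ hHD.le
        have : 0 ≤ z e * (x e / c) := mul_nonneg hz0 hxe
        linarith
      calc (1 + κ e - z e) * (x e / c) * (a + D) ≤ (x e / c + δ * X / c) * (Hh e + D) :=
            h2.trans h3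
        _ ≤ (x e / c + δ * X / c) * (Hh e + D) +
            ((1 + κ e) * (x e / c) - (1 + κ e - z e) * (x e / c)) * (Hh e + D) := by linarith
        _ = _ := by ring
    · rw [if_neg (fun h => ho h.2)]
      have h1 := hzle e he hx0 ho
      rw [div_le_iff₀ (by linarith)] at h1
      have h2 : (1 + κ e - z e) * (a + D) ≤ (1 + z e) * (Hh e + D) := by
        have h3 : 0 ≤ z e * D := mul_nonneg hz0 hD0
        nlinarith
      have h3 := mul_le_mul_of_nonneg_left h2 hxe
      calc (1 + κ e - z e) * (x e / c) * (a + D) = x e / c * ((1 + κ e - z e) * (a + D)) := by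
            ring
        _ ≤ x e / c * ((1 + z e) * (Hh e + D)) := h3
        _ = _ := by ring
  · rw [sum_add_distrib, ← sum_div, ← hX, ← sum_filter, sum_const, nsmul_eq_mul]
    have h1 : ((S.filter (fun e => x e ≠ 0 ∧ orph e)).card : ℝ) ≤ 1 := by
      have : (S.filter (fun e => x e ≠ 0 ∧ orph e)).card ≤ 1 := by
        rw [card_le_one]
        intro e he f hf
        obtain ⟨he1, he2, he3⟩ := mem_filter.1 he
        obtain ⟨hf1, hf2, hf3⟩ := mem_filter.1 hf
        exact horph e he1 f hf1 he2 hf2 he3 hf3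
      exact_mod_cast this
    have h2 := mul_le_mul_of_nonneg_right h1
      (div_nonneg (mul_nonneg hδ hX0.le) hc.le : 0 ≤ δ * X / c)
    rw [ha]
    have e1 : (1 + δ) * X / c = X / c + δ * X / c := by ring
    rw [e1]
    linarith

/-- The tent function of the requests. -/
noncomputable def tent (p ξ t : ℝ) : ℝ := p * t * max 0 (1 - t / ξ)

/-- **Acceptance.** -/
theorem accept {c σ Q p X g ξ x W L acc h a κ Db z : ℝ} (hc : 0 < c) (hσ : 0 < σ)
    (hcσ : c * σ < 1) (hg : 0 < g) (hξ : ξ = σ / g)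
    (hQ : 0 < Q) (hp : 0 < p) (hpQ : σ ≤ p * ((2 - c * σ) * Q)) (hX : 0 ≤ X) (hX1 : X ≤ 1)
    (hx : 0 ≤ x) (hW : 0 ≤ W) (hL : σ * L ≤ Q * W) (hh : 0 < h) (ha : X / c ≤ a)
    (hκ : 0 ≤ κ) (hDb : 0 ≤ Db) (hnum : (1 + κ) * a - h + κ * Db ≤ σ * X - g * x - W)
    (hz : z = ((1 + κ) * a - h + κ * Db) / (a + h)) (hz0 : 0 < z) (hacc : Q - L ≤ acc) :
    z * (x / c) ≤ tent p ξ x * acc := by
  have ha0 : 0 ≤ a := le_trans (div_nonneg hX hc.le) ha
  have hah : 0 < a + h := by linarith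
  set num := (1 + κ) * a - h + κ * Db with hnum'
  have hznum : z * (a + h) = num := by
    rw [hz, div_mul_cancel₀ _ hah.ne']
  have hnum0 : 0 < num := by
    rw [← hznum]
    exact mul_pos hz0 hah
  set n := σ * X - g * x - W with hn
  have hn0 : 0 < n := hnum0.trans_le hnum
  have hgx : 0 ≤ g * x := mul_nonneg hg.le hx
  have hX0 : 0 < X := by
    rcases hX.lt_or_eq with h1 | h1
    · exact h1
    · rw [← h1] at hn
      linarith
  have hgxσ : g * x < σ * X := by linarith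
  set β := 1 - x / ξ with hβ
  have hxξ : x / ξ = g * x / σ := by rw [hξ]; field_simp
  have hσβ : σ * β = σ - g * x := by
    rw [hβ, hxξ]
    field_simp
  have hσX : σ * X ≤ σ := by nlinarith
  have hβ0 : 0 < β := by
    have : 0 < σ * β := by rw [hσβ]; linarith
    exact (mul_pos_iff_of_pos_left hσ).1 this
  have hβ1 : β ≤ 1 := by
    rw [hβ, hxξ]
    have : 0 ≤ g * x / σ := by positivity
    linarith
  have hnβ : n ≤ β * (σ * X - W) := by
    have h1 : β * (σ * X - W) = X * (σ * β) - W * β := by ring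
    rw [h1, hσβ, hn]
    have h2 : W * β ≤ W := by nlinarith
    have h3 : X * (g * x) ≤ g * x := by nlinarith
    nlinarith
  have key := acc_num hc hσ hcσ hQ hp hpQ hX0 hX1 hβ0 hβ1 hW hL hn0 hnβ hacc
  have hden : 0 < 2 * X - c * n := by
    have h1 : c * n ≤ c * (σ * X) := mul_le_mul_of_nonneg_left (by linarith) hc.le
    have h2 : c * (σ * X) ≤ X := by nlinarith
    linarith
  have hah2 : 2 * X - c * n ≤ c * (a + h) := by
    have h1 : a - n ≤ h := by
      have h2 : 0 ≤ κ * a := mul_nonneg hκ ha0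
      have h3 : 0 ≤ κ * Db := mul_nonneg hκ hDb
      nlinarith
    have h4 : X ≤ c * a := by
      rw [div_le_iff₀ hc] at ha
      linarith
    have h5 := mul_le_mul_of_nonneg_left h1 hc.le
    nlinarith
  have hz2 : z * (2 * X - c * n) ≤ c * (p * β * acc) * (2 * X - c * n) := by
    calc z * (2 * X - c * n) ≤ z * (c * (a + h)) := mul_le_mul_of_nonneg_left hah2 hz0.le
      _ = c * num := by rw [← hznum]; ring
      _ ≤ c * n := mul_le_mul_of_nonneg_left hnum hc.le
      _ ≤ c * (p * β * acc * (2 * X - c * n)) := mul_le_mul_of_nonneg_left key hc.le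
      _ = _ := by ring
  have hz3 : z ≤ c * (p * β * acc) := le_of_mul_le_mul_right hz2 hden
  have htent : tent p ξ x = p * x * β := by
    unfold tent
    rw [← hβ, max_eq_right hβ0.le]
  rw [htent]
  have h1 := mul_le_mul_of_nonneg_right hz3 (div_nonneg hx hc.le : 0 ≤ x / c)
  refine h1.trans (le_of_eq ?_)
  field_simp

/-- The parameters of the step. -/
structure Par (k : ℕ) (c C c2 kb kb1 ρ ρ1 δ σ Q p φ : ℝ) : Prop where
  hk : 3 ≤ k
  hc : c = ck k
  hC : C = ck (k + 1) / (1 + kb1)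
  hc2 : c2 = ck (k + 2)
  kb0 : 0 ≤ kb
  kb10 : 0 ≤ kb1
  ρ0 : 0 ≤ ρ
  ρ10 : 0 ≤ ρ1
  δ0 : 0 ≤ δ
  σ0 : 0 < σ
  Q0 : 0 < Q
  p0 : 0 < p
  hkC : (k : ℝ) < C
  h2 : 2 / c - 2 + 2 * (k - 1) / C + (δ + kb) / c ≤ σ
  h3 : σ ≤ 2 / c - 2 / C
  h4 : Q ≤ 1 - (1 + kb) / c - (k - 2) / C
  h5a : σ * ((1 + kb) / c) ≤ Q * (2 / C - (1 + kb) / c)
  h5b : σ * (1 / c2) ≤ Q * (2 / C - 2 / c2)
  h6 : σ ^ 2 ≤ 4 * (2 * (k - 1) / C) * δ * (1 / c - σ)
  h7 : σ ≤ p * ((2 - c * σ) * Q)
  hφ : p * σ * C ≤ 8 * (k - 1) * φ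
  hφ0 : 0 ≤ φ
  hφ1 : k * φ < 1
  h8a : k * φ ≤ kb1 * (1 - k * φ)
  h8b : p ≤ ρ1 * (1 - k * φ)
  h9a : ρ * ((2 + δ + kb) / c) ≤ 2 / C
  h9b : 1 / 2 ≤ 2 * c / C - 1 - kb
  h9c : ρ * (kb / 2 * C + 2 * k) ≤ 2
  h10a : c * σ < 1
  h10b : k * p ≤ 1

variable {V E : Type} [Fintype V] [DecidableEq V] [DecidableEq E] [Fintype E]

/-- Lower bound for `2 l_e - Yh_e` in terms of one vertex `v` of `e`. -/
theorem head_star {H : E → Finset V} {x : E → ℝ} (hx : ∀ e, 0 ≤ x e)
    (hdeg : ∀ v, ∑ f with v ∈ H f, x f ≤ 1) {k : ℕ} {c C c2 kb : ℝ} (hc : 0 < c) (hC : 0 < C)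
    (hC2 : C ≤ c2) {F R' : Finset E} (hF : ∀ f ∈ F, (H f).card = k)
    (hR' : ∀ f ∈ R', k < (H f).card)
    {κ y1 : E → ℝ} (hκ : ∀ f ∈ F, κ f ≤ kb) (hy1 : ∀ f ∈ R', y1 f ≤ x f / C) {e : E}
    (he : e ∈ F) {T : Finset E} (hT : T ⊆ R')
    (hTe : ∀ f ∈ T, (H e ∩ H f).card = 1 ∧ y1 f ≤ x f / c2) {v : V} (hv : v ∈ H e) :
    2 - 2 * k / C + 2 / C * bsm H x k e + 2 * (k - 1) / C * x e +
      (2 / C - (1 + kb) / c) * ∑ f ∈ F with v ∈ H f, x f +
      (2 / C - (1 + kb) / c) * ∑ f ∈ F with (¬ Disjoint (H e) (H f) ∧ v ∉ H f), x f +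
      (2 / C - 2 / c2) * ∑ f ∈ T, x f ≤
      2 * (1 - ∑ f ∈ R' with ¬ Disjoint (H e) (H f), y1 f) -
        ∑ f ∈ F with ¬ Disjoint (H e) (H f), (1 + κ f) * (x f / c) := by
  classical
  refine le_trans ?_ (head_lower hx hdeg (c := c) hC hC2 hF hR' hy1 (hF e he) hT hTe)
  have hself : ¬ Disjoint (H e) (H e) := by
    rw [not_disjoint_iff]
    exact ⟨v, hv, hv⟩
  have h1 : ∑ f ∈ F with ¬ Disjoint (H e) (H f), ((2 / C - (1 + kb) / c) * x f +
      (if f = e then 2 * ((k : ℝ) - 1) / C * x f else 0)) ≤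
      ∑ f ∈ F with ¬ Disjoint (H e) (H f), x f * (2 / C * ((H e ∩ H f).card : ℝ) -
        (1 + κ f) / c) := by
    refine sum_le_sum fun f hf => ?_
    obtain ⟨hfF, hfe⟩ := mem_filter.1 hf
    have h2 : (1 + κ f) / c ≤ (1 + kb) / c :=
      div_le_div_of_nonneg_right (by linarith [hκ f hfF]) hc.le
    have h3 := mul_le_mul_of_nonneg_left h2 (hx f)
    split_ifs with hfe'
    · subst hfe'
      rw [inter_self, hF f hfF]
      have : 2 * ((k : ℝ) - 1) / C * x f = x f * (2 / C * k) - 2 / C * x f := by ring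
      rw [this]
      nlinarith
    · have h4 := one_le_inter hfe
      have h5 : 0 ≤ x f * (2 / C) := mul_nonneg (hx f) (by positivity)
      have h6 := mul_le_mul_of_nonneg_left h4 h5
      nlinarith
  have h2 : ∑ f ∈ F with ¬ Disjoint (H e) (H f), ((2 / C - (1 + kb) / c) * x f +
      (if f = e then 2 * ((k : ℝ) - 1) / C * x f else 0)) =
      (2 / C - (1 + kb) / c) * ∑ f ∈ F with v ∈ H f, x f +
      (2 / C - (1 + kb) / c) * ∑ f ∈ F with (¬ Disjoint (H e) (H f) ∧ v ∉ H f), x f +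
      2 * ((k : ℝ) - 1) / C * x e := by
    rw [sum_add_distrib, ← mul_sum, sum_ite_eq' (F.filter _) e, if_pos (mem_filter.2 ⟨he, hself⟩),
      ← mul_add]
    congr 2
    have h3 : F.filter (fun f => ¬ Disjoint (H e) (H f)) =
        F.filter (fun f => v ∈ H f) ∪ F.filter (fun f => ¬ Disjoint (H e) (H f) ∧ v ∉ H f) := by
      ext f
      simp only [mem_filter, mem_union]
      constructor
      · rintro ⟨h4, h5⟩
        by_cases h6 : v ∈ H f
        · exact Or.inl ⟨h4, h6⟩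
        · exact Or.inr ⟨h4, h5, h6⟩
      · rintro (⟨h4, h5⟩ | ⟨h4, h5, h6⟩)
        · exact ⟨h4, not_disjoint_iff.2 ⟨v, hv, h5⟩⟩
        · exact ⟨h4, h5⟩
    rw [h3, sum_union]
    rw [disjoint_left]
    intro f hf hf'
    exact (mem_filter.1 hf').2.2 (mem_filter.1 hf).2
  rw [h2] at h1
  linarith

/-- Lower bound for the acceptance probability. -/
theorem acc_lower {H : E → Finset V} {x : E → ℝ} (hx : ∀ e, 0 ≤ x e)
    (hdeg : ∀ v, ∑ f with v ∈ H f, x f ≤ 1) {k : ℕ} {c C c2 kb : ℝ} (hc : 0 < c) (hC : 0 < C)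
    (hcC : 1 / C ≤ (1 + kb) / c)
    (hC2 : 0 < c2) {F R' : Finset E} (hF : ∀ f ∈ F, (H f).card = k)
    (hR' : ∀ f ∈ R', k < (H f).card)
    {s y1 : E → ℝ} (hs : ∀ f ∈ F, s f ≤ (1 + kb) * (x f / c))
    (hy1 : ∀ f ∈ R', y1 f ≤ x f / C) (hy2 : ∀ f ∈ R', k + 1 < (H f).card → y1 f ≤ x f / c2)
    {e : E} (he : e ∈ F) {u v : V} (hu : u ∈ H e) (hv : v ∈ H e) (huv : v ≠ u) :
    1 - (1 + kb) / c - (k - 2) / C -
      ((1 + kb) / c * ∑ f ∈ F with (¬ Disjoint (H e) (H f) ∧ v ∉ H f), x f +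
      1 / c2 * ∑ f ∈ R' with (k + 1 < (H f).card ∧ H e ∩ H f = {u}), x f) ≤
      1 - ∑ f ∈ F with ¬ Disjoint (H e) (H f), s f -
        ∑ f ∈ R' with (¬ Disjoint (H e) (H f) ∧ ¬ ((H f).card = k + 1 ∧ H e ∩ H f = {u})),
          y1 f := by
  classical
  set X := ∑ f ∈ F with v ∈ H f, x f with hX
  set A := ∑ f ∈ F with (¬ Disjoint (H e) (H f) ∧ v ∉ H f), x f with hA
  set t := ∑ f ∈ R' with (k + 1 < (H f).card ∧ H e ∩ H f = {u}), x f with ht
  -- F part
  have h1 : ∑ f ∈ F with ¬ Disjoint (H e) (H f), s f ≤ (1 + kb) / c * (X + A) := by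
    have h2 : ∑ f ∈ F with ¬ Disjoint (H e) (H f), s f ≤
        ∑ f ∈ F with ¬ Disjoint (H e) (H f), (1 + kb) / c * x f := by
      refine sum_le_sum fun f hf => (hs f (mem_filter.1 hf).1).trans (le_of_eq ?_)
      ring
    refine h2.trans (le_of_eq ?_)
    rw [← mul_sum]
    congr 1
    have h3 : F.filter (fun f => ¬ Disjoint (H e) (H f)) =
        F.filter (fun f => v ∈ H f) ∪ F.filter (fun f => ¬ Disjoint (H e) (H f) ∧ v ∉ H f) := by
      ext f
      simp only [mem_filter, mem_union]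
      constructor
      · rintro ⟨h4, h5⟩
        by_cases h6 : v ∈ H f
        · exact Or.inl ⟨h4, h6⟩
        · exact Or.inr ⟨h4, h5, h6⟩
      · rintro (⟨h4, h5⟩ | ⟨h4, h5, h6⟩)
        · exact ⟨h4, not_disjoint_iff.2 ⟨v, hv, h5⟩⟩
        · exact ⟨h4, h5⟩
    rw [h3, sum_union]
    rw [disjoint_left]
    intro f hf hf'
    exact (mem_filter.1 hf').2.2 (mem_filter.1 hf).2
  -- R' part
  have h2 : ∑ f ∈ R' with (¬ Disjoint (H e) (H f) ∧ ¬ ((H f).card = k + 1 ∧ H e ∩ H f = {u})),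
      y1 f ≤ (∑ f ∈ R', x f * ((((H e).erase u) ∩ H f).card : ℝ)) / C + 1 / c2 * t := by
    rw [sum_filter, sum_div, ht, mul_sum, sum_filter, ← sum_add_distrib]
    refine sum_le_sum fun f hf => ?_
    have hxC : 0 ≤ x f * ((((H e).erase u) ∩ H f).card : ℝ) / C :=
      div_nonneg (mul_nonneg (hx f) (Nat.cast_nonneg _)) hC.le
    have hxc2 : 0 ≤ 1 / c2 * x f := mul_nonneg (by positivity) (hx f)
    by_cases hcond : ¬ Disjoint (H e) (H f) ∧ ¬ ((H f).card = k + 1 ∧ H e ∩ H f = {u})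
    · rw [if_pos hcond]
      by_cases hd : Disjoint ((H e).erase u) (H f)
      · -- meets only in u
        have h3 : H e ∩ H f = {u} := by
          obtain ⟨w, hw1, hw2⟩ := not_disjoint_iff.1 hcond.1
          have h4 : ∀ w ∈ H e, w ∈ H f → w = u := by
            intro w hw1 hw2
            by_contra hne
            exact disjoint_left.1 hd (mem_erase.2 ⟨hne, hw1⟩) hw2
          ext w'
          rw [mem_inter, mem_singleton]
          constructor
          · exact fun h => h4 w' h.1 h.2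
          · rintro rfl
            refine ⟨hu, ?_⟩
            rw [← h4 w hw1 hw2]
            exact hw2
        have h4 : k + 1 < (H f).card := by
          have := hR' f hf
          by_contra hlt
          exact hcond.2 ⟨by omega, h3⟩
        rw [if_pos ⟨h4, h3⟩]
        have := hy2 f hf h4
        have h5 : x f / c2 = 1 / c2 * x f := by ring
        linarith
      · have h3 := one_le_inter hd
        have h4 : x f / C ≤ x f * ((((H e).erase u) ∩ H f).card : ℝ) / C := by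
          apply div_le_div_of_nonneg_right _ hC.le
          have := mul_le_mul_of_nonneg_left h3 (hx f)
          linarith
        have h5 := hy1 f hf
        split_ifs
        · linarith
        · linarith
    · rw [if_neg hcond]
      split_ifs
      · linarith
      · linarith
  -- incidences on e minus u
  have h3 := sum_inc_le hdeg ((H e).erase u)
  have h4 : ((((H e).erase u).card : ℕ) : ℝ) = k - 1 := by
    rw [card_erase_of_mem hu, hF e he]
    have : 1 ≤ k := by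
      rw [← hF e he]
      exact card_pos.2 ⟨u, hu⟩
    rw [Nat.cast_sub this]
    simp
  rw [h4] at h3
  have h5 : X + ∑ f ∈ R', x f * ((((H e).erase u) ∩ H f).card : ℝ) ≤
      ∑ f, x f * ((((H e).erase u) ∩ H f).card : ℝ) := by
    have h6 : X ≤ ∑ f ∈ F, x f * ((((H e).erase u) ∩ H f).card : ℝ) := by
      rw [hX, sum_filter]
      refine sum_le_sum fun f hf => ?_
      split_ifs with h
      · have h7 : ¬ Disjoint ((H e).erase u) (H f) :=
          not_disjoint_iff.2 ⟨v, mem_erase.2 ⟨huv, hv⟩, h⟩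
        have := mul_le_mul_of_nonneg_left (one_le_inter h7) (hx f)
        linarith
      · exact mul_nonneg (hx f) (Nat.cast_nonneg _)
    have h7 : Disjoint F R' := by
      rw [disjoint_left]
      intro f hf hf'
      have := hF f hf
      have := hR' f hf'
      omega
    calc X + ∑ f ∈ R', x f * ((((H e).erase u) ∩ H f).card : ℝ) ≤
        ∑ f ∈ F, x f * ((((H e).erase u) ∩ H f).card : ℝ) +
          ∑ f ∈ R', x f * ((((H e).erase u) ∩ H f).card : ℝ) := by linarith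
      _ = ∑ f ∈ F ∪ R', x f * ((((H e).erase u) ∩ H f).card : ℝ) := (sum_union h7).symm
      _ ≤ _ := by
        apply sum_le_sum_of_subset_of_nonneg (subset_univ _)
        intro f _ _
        exact mul_nonneg (hx f) (Nat.cast_nonneg _)
  have h6 : (∑ f ∈ R', x f * ((((H e).erase u) ∩ H f).card : ℝ)) / C ≤ (k - 1 - X) / C :=
    div_le_div_of_nonneg_right (by linarith) hC.le
  have hX1 : X ≤ 1 := by
    refine le_trans ?_ (hdeg v)
    apply sum_le_sum_of_subset_of_nonneg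
    · exact filter_subset_filter _ (subset_univ _)
    · exact fun f _ _ => hx f
  have h7 := mul_le_mul_of_nonneg_left hcC (by linarith : 0 ≤ 1 - X)
  have h8 : ((k : ℝ) - 1 - X) / C = (k - 2) / C + (1 - X) * (1 / C) := by ring
  have h9 : (1 - X) * ((1 + kb) / c) = (1 + kb) / c - (1 + kb) / c * X := by ring
  rw [h8] at h6
  rw [h9] at h7
  nlinarith

theorem tent_nonneg {p ξ t : ℝ} (hp : 0 ≤ p) (ht : 0 ≤ t) : 0 ≤ tent p ξ t :=
  mul_nonneg (mul_nonneg hp ht) (le_max_left _ _)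

theorem tent_le {p ξ t : ℝ} (hp : 0 ≤ p) (hξ : 0 < ξ) (ht : 0 ≤ t) : tent p ξ t ≤ p * t := by
  unfold tent
  have h1 : max 0 (1 - t / ξ) ≤ 1 := by
    apply max_le (by norm_num)
    have : 0 ≤ t / ξ := div_nonneg ht hξ.le
    linarith
  have := mul_le_mul_of_nonneg_left h1 (mul_nonneg hp ht)
  linarith

theorem tent_le_max {p ξ t : ℝ} (hp : 0 ≤ p) (hξ : 0 < ξ) (ht : 0 ≤ t) :
    tent p ξ t ≤ p * ξ / 4 := by
  unfold tent
  rcases le_total (1 - t / ξ) 0 with h | h
  · rw [max_eq_left h, mul_zero]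
    positivity
  · rw [max_eq_right h]
    have h1 : p * ξ / 4 - p * t * (1 - t / ξ) = p / ξ * (t - ξ / 2) ^ 2 := by
      field_simp
      ring
    have h2 : 0 ≤ p / ξ * (t - ξ / 2) ^ 2 := by positivity
    linarith

end H34.FKS
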