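import Mathlib
import Pool.Agent.H34.FKS.StepOwn

/-!
# The step from level `k + 1` to level `k` with requests at the own leaf only
-/

set_option autoImplicit false
set_option linter.unusedSectionVars false
set_option linter.unusedVariables false

namespace H34.FKS

open Finset H4.FKS

variable {V E : Type} [Fintype V] [DecidableEq V] [DecidableEq E] [Fintype E]

/-- **The step** with requests at the own leaf only. -/
theorem step_own {H : E → Finset V} (hne : ∀ e, (H e).Nonempty) {x : E → ℝ}
    (hx : ∀ e, 0 ≤ x e) (hdeg : ∀ v, ∑ f with v ∈ H f, x f ≤ 1) {rep : E → V}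
    (hrep : ∀ e, x e ≠ 0 → rep e ∈ H e)
    (hinj : ∀ e f, x e ≠ 0 → x f ≠ 0 → rep e = rep f → e = f) {k : ℕ}
    {c C c2 kb kb1 ρ ρ1 δ σ Q p φ : ℝ} (P : Par k c C c2 kb kb1 ρ ρ1 δ σ Q p φ) {κ : E → ℝ}
    (hκ : ∀ e, (H e).card = k → 0 ≤ κ e ∧ κ e ≤ kb ∧ κ e ≤ ρ * bsm H x k e) :
    ∃ κ' : E → ℝ, (∀ g, (H g).card = k + 1 → 0 ≤ κ' g ∧ κ' g ≤ kb1 ∧
      κ' g ≤ ρ1 * bsm H x (k + 1) g) ∧ (Lvl H x κ' (k + 1) → Lvl H x κ k) := by
  classical
  obtain ⟨hk, hc, hC, hc2, kb0, kb10, ρ0, ρ10, δ0, σ0, Q0, p0, hkC, h2, h3, h4, h5a, h5b, h6, h7,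
    hφ, hφ0, hφ1, h8a, h8b, h9a, h9b, h9c, h10a, h10b⟩ := P
  have hk3 : (3 : ℝ) ≤ k := by exact_mod_cast hk
  have hC0 : 0 < C := by linarith
  have hc0 : 0 < c := by rw [hc]; exact ck_pos (by omega)
  have hc20 : 0 < c2 := by rw [hc2]; exact ck_pos (by omega)
  have hC1 : C ≤ ck (k + 1) := by
    rw [hC]
    exact div_le_self (ck_pos (by omega)).le (by linarith)
  have hCc2 : C ≤ c2 := hC1.trans (by rw [hc2]; exact ck_mono (by omega) (by omega))
  set g := 2 * ((k : ℝ) - 1) / C with hg
  have hg0 : 0 < g := by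
    rw [hg]
    exact div_pos (by linarith) hC0
  set ξ := σ / g with hξ
  have hξ0 : 0 < ξ := div_pos σ0 hg0
  have hpξ : p * ξ / 4 ≤ φ := by
    rw [hξ, hg]
    have h11 : p * (σ / (2 * (↑k - 1) / C)) / 4 = p * σ * C / (8 * (k - 1)) := by
      have : (k : ℝ) - 1 ≠ 0 := by linarith
      field_simp
      ring
    rw [h11, div_le_iff₀ (by linarith)]
    linarith
  set q := 1 / (1 - k * φ) with hq
  have hkφ : 0 < 1 - k * φ := by linarith
  have hq1 : 1 ≤ q := by
    rw [hq, le_div_iff₀ hkφ]
    have : 0 ≤ k * φ := mul_nonneg (by linarith) hφ0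
    linarith
  have hqφ : q * (k * φ) = q - 1 := by
    have : q * (1 - k * φ) = 1 := by rw [hq]; field_simp
    linarith
  -- requests
  set π0 : E → ℝ := fun e => if (H e).card = k then tent p ξ (x e) else 0 with hπ0
  have hπ00 : ∀ e, 0 ≤ π0 e := by
    intro e
    simp only [hπ0]
    split_ifs
    · exact tent_nonneg p0.le (hx e)
    · exact le_rfl
  have hπ0x : ∀ e, π0 e ≤ p * x e := by
    intro e
    simp only [hπ0]
    split_ifs
    · exact tent_le p0.le hξ0 (hx e)
    · exact mul_nonneg p0.le (hx e)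
  have hπ0φ : ∀ e, π0 e ≤ φ := by
    intro e
    simp only [hπ0]
    split_ifs
    · exact (tent_le_max p0.le hξ0 (hx e)).trans hpξ
    · exact hφ0
  set own : E → Finset E := fun g' => univ.filter (fun e => (H e).card = k ∧ x e ≠ 0 ∧ rep e ∈ H g')
    with hown
  set Φ : E → ℝ := fun g' => ∑ e ∈ own g', π0 e with hΦ
  have hΦ0 : ∀ g', 0 ≤ Φ g' := fun g' => sum_nonneg fun e _ => hπ00 e
  have hΦk : ∀ g', (H g').card = k + 1 → x g' ≠ 0 → Φ g' ≤ k * φ := by
    intro g' hg' hxg
    have h11 : (own g').card ≤ k := by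
      have h12 : (own g').card ≤ ((H g').erase (rep g')).card := by
        apply card_le_card_of_injOn rep
        · intro e he
          have he' := (mem_filter.1 he).2
          refine mem_coe.2 (mem_erase.2 ⟨fun h => ?_, he'.2.2⟩)
          have := hinj e g' he'.2.1 hxg h
          subst this
          omega
        · intro e he f hf hef
          exact hinj e f (mem_filter.1 he).2.2.1 (mem_filter.1 hf).2.2.1 hef
      rw [card_erase_of_mem (hrep g' hxg), hg'] at h12
      simpa using h12
    calc Φ g' ≤ (own g').card • φ := sum_le_card_nsmul _ _ _ fun e _ => hπ0φ e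
      _ = ((own g').card : ℝ) * φ := by rw [nsmul_eq_mul]
      _ ≤ k * φ := mul_le_mul_of_nonneg_right (by exact_mod_cast h11) hφ0
  have hΦb : ∀ g', Φ g' ≤ p * bsm H x (k + 1) g' := by
    intro g'
    simp only [hΦ, bsm]
    rw [mul_sum]
    refine (sum_le_sum (g := fun e => p * (x e * ((H g' ∩ H e).card : ℝ))) fun e he => ?_).trans ?_
    · have he' := (mem_filter.1 he).2
      refine (hπ0x e).trans ?_
      have hd : ¬ Disjoint (H g') (H e) :=
        not_disjoint_iff.2 ⟨rep e, he'.2.2, hrep e he'.2.1⟩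
      have h11 := mul_le_mul_of_nonneg_left (one_le_inter hd) (hx e)
      have h12 := mul_le_mul_of_nonneg_left h11 p0.le
      linarith
    · apply sum_le_sum_of_subset_of_nonneg
      · intro e he
        have he' := (mem_filter.1 he).2
        exact mem_filter.2 ⟨mem_univ _, by omega⟩
      · intro f _ _
        exact mul_nonneg p0.le (mul_nonneg (hx f) (Nat.cast_nonneg _))
  set κ' : E → ℝ := fun g' => if x g' = 0 then 0 else q * Φ g' with hκ'
  have hκ'0 : ∀ g', 0 ≤ κ' g' := by
    intro g'
    simp only [hκ']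
    split_ifs
    · exact le_rfl
    · exact mul_nonneg (by linarith) (hΦ0 g')
  have hκ'1 : ∀ g', (H g').card = k + 1 → κ' g' ≤ kb1 := by
    intro g' hg'
    simp only [hκ']
    split_ifs with h
    · exact kb10
    · have h11 := mul_le_mul_of_nonneg_left (hΦk g' hg' h) (by linarith : 0 ≤ q)
      refine h11.trans ?_
      have h12 : q * (k * φ) ≤ q * (kb1 * (1 - k * φ)) :=
        mul_le_mul_of_nonneg_left h8a (by linarith)
      refine h12.trans (le_of_eq ?_)
      rw [hq]
      field_simp
  refine ⟨κ', fun g' hg' => ⟨hκ'0 g', hκ'1 g' hg', ?_⟩, ?_⟩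
  · have hb0 := bsm_nonneg (H := H) hx (k + 1) g'
    simp only [hκ']
    split_ifs with h
    · exact mul_nonneg ρ10 hb0
    · have h11 := mul_le_mul_of_nonneg_left (hΦb g') (by linarith : 0 ≤ q)
      refine h11.trans ?_
      have h12 : q * p ≤ ρ1 := by
        have h13 : q * p ≤ q * (ρ1 * (1 - k * φ)) := mul_le_mul_of_nonneg_left h8b (by linarith)
        refine h13.trans (le_of_eq ?_)
        rw [hq]
        field_simp
      have := mul_le_mul_of_nonneg_right h12 hb0
      nlinarith
  intro hlvl R0 hR0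
  have hrefl : ∀ a, ¬ Disjoint (H a) (H a) := by
    intro a h
    rw [disjoint_self] at h
    exact (hne a).ne_empty h
  have hsymm : ∀ a b, ¬ Disjoint (H a) (H b) → ¬ Disjoint (H b) (H a) :=
    fun a b h h' => h (disjoint_comm.1 h')
  have hckpos : ∀ e, 0 < ck (H e).card := fun e => ck_pos (card_pos.2 (hne e))
  have hdem0 : ∀ e, 0 ≤ dem H x κ k e := by
    intro e
    unfold dem
    split_ifs with h
    · rw [← h]
      exact mul_nonneg (by linarith [(hκ e h).1]) (div_nonneg (hx e) (hckpos e).le)
    · exact div_nonneg (hx e) (hckpos e).le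
  apply real_reduce hrefl hsymm hdem0 (fun e => k ≤ (H e).card) _ R0 hR0
  intro R hR hgr
  set F := R.filter (fun e => (H e).card = k) with hFdef
  set R' := R.filter (fun e => k < (H e).card) with hR'def
  have hF : ∀ f ∈ F, (H f).card = k := fun f hf => (mem_filter.1 hf).2
  have hR' : ∀ f ∈ R', k < (H f).card := fun f hf => (mem_filter.1 hf).2
  have hRun : R' ∪ F = R := by
    ext e
    simp only [mem_union, hFdef, hR'def, mem_filter]
    constructor
    · rintro (h | h)
      · exact h.1
      · exact h.1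
    · intro h
      rcases lt_or_eq_of_le (hR e h) with h' | h'
      · exact Or.inl ⟨h, h'⟩
      · exact Or.inr ⟨h, h'.symm⟩
  have hdisj : Disjoint R' F := by
    rw [disjoint_left]
    intro f hf hf'
    have := hF f hf'
    have := hR' f hf
    omega
  have hgr' : ∀ e ∈ R, 1 < ∑ f ∈ R' with ¬ Disjoint (H e) (H f), dem H x κ k f +
      ∑ f ∈ F with ¬ Disjoint (H e) (H f), dem H x κ k f := by
    intro e he
    have h11 := hgr e he
    rw [← hRun, filter_union, sum_union (disjoint_filter_filter hdisj)] at h11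
    exact h11
  have hdF : ∀ f ∈ F, dem H x κ k f = (1 + κ f) * (x f / c) := by
    intro f hf
    rw [dem, if_pos (hF f hf), hc]
  have hdR : ∀ f ∈ R', dem H x κ k f = x f / ck (H f).card := by
    intro f hf
    rw [dem, if_neg (hR' f hf).ne']
  set y1 : E → ℝ := dem H x κ' (k + 1) with hy1def
  have hy1C : ∀ f ∈ R', y1 f ≤ x f / C := by
    intro f hf
    simp only [hy1def, dem]
    split_ifs with h
    · have h11 : (1 + κ' f) ≤ 1 + kb1 := by linarith [hκ'1 f h]
      have h12 : x f / C = (1 + kb1) * (x f / ck (k + 1)) := by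
        rw [hC]
        have := (ck_pos (show 1 ≤ k + 1 by omega)).ne'
        have : (1 + kb1) ≠ 0 := by linarith
        field_simp
      rw [h12]
      exact mul_le_mul_of_nonneg_right h11 (div_nonneg (hx f) (ck_pos (by omega)).le)
    · apply div_le_div_of_nonneg_left (hx f) hC0
      refine hC1.trans (ck_mono (by omega) ?_)
      have := hR' f hf
      omega
  have hy1c2 : ∀ f ∈ R', k + 1 < (H f).card → y1 f ≤ x f / c2 := by
    intro f hf h
    simp only [hy1def, dem]
    rw [if_neg h.ne']
    apply div_le_div_of_nonneg_left (hx f) hc20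
    rw [hc2]
    exact ck_mono (by omega) (by omega)
  have hy1ge : ∀ f ∈ R', dem H x κ k f ≤ y1 f := by
    intro f hf
    rw [hdR f hf]
    simp only [hy1def, dem]
    split_ifs with h
    · rw [h]
      have h11 : 0 ≤ x f / ck (k + 1) := div_nonneg (hx f) (ck_pos (by omega)).le
      have := mul_nonneg (hκ'0 f) h11
      linarith
    · exact le_rfl
  have hy10 : ∀ f, 0 ≤ y1 f := fun f => dem_nonneg hne hx hκ'0 (k + 1) f
  have hκF : ∀ f ∈ F, 0 ≤ κ f ∧ κ f ≤ kb ∧ κ f ≤ ρ * bsm H x k f := fun f hf => hκ f (hF f hf)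
  -- abbreviations
  set l : E → ℝ := fun e => 1 - ∑ f ∈ R' with ¬ Disjoint (H e) (H f), y1 f with hl
  set Yh : E → ℝ := fun e => ∑ f ∈ F with ¬ Disjoint (H e) (H f), (1 + κ f) * (x f / c) with hYh
  set Hh : E → ℝ := fun e => 2 * l e - Yh e with hHh
  set X : V → ℝ := fun v => ∑ f ∈ F with v ∈ H f, x f with hX
  set a : V → ℝ := fun v => (1 + δ) * X v / c with ha
  set Db : ℝ := (1 + kb) / c with hDb
  set A : E → V → ℝ := fun e v => ∑ f ∈ F with (¬ Disjoint (H e) (H f) ∧ v ∉ H f), x f with hA
  set T : E → Finset E := fun e =>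
    R'.filter (fun f => k + 1 < (H f).card ∧ H e ∩ H f = {rep e}) with hT
  set γA := 2 / C - (1 + kb) / c with hγA
  set γt := 2 / C - 2 / c2 with hγt
  set ℓA := (1 + kb) / c with hℓA
  set ℓt := 1 / c2 with hℓt
  have hX0 : ∀ v, 0 ≤ X v := fun v => sum_nonneg fun f _ => hx f
  have hX1 : ∀ v, X v ≤ 1 := by
    intro v
    refine le_trans ?_ (hdeg v)
    apply sum_le_sum_of_subset_of_nonneg
    · exact filter_subset_filter _ (subset_univ _)
    · exact fun f _ _ => hx f
  have hγA0 : 0 ≤ γA := by
    rw [hγA]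
    have h11 : (1 + kb) / c ≤ (2 * c / C - 1 / 2) / c :=
      div_le_div_of_nonneg_right (by linarith) hc0.le
    have h12 : (2 * c / C - 1 / 2) / c = 2 / C - 1 / (2 * c) := by
      field_simp
    rw [h12] at h11
    have : 0 < 1 / (2 * c) := by positivity
    linarith
  have hγt0 : 0 ≤ γt := by
    rw [hγt]
    have : 2 / c2 ≤ 2 / C := div_le_div_of_nonneg_left (by norm_num) hC0 hCc2
    linarith
  have hcC : 1 / C ≤ (1 + kb) / c := by
    have h11 : 1 / C ≤ 1 / c := by
      have : 0 < 2 / c - 2 / C := by linarith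
      have e1 : 2 / c = 2 * (1 / c) := by ring
      have e2 : 2 / C = 2 * (1 / C) := by ring
      rw [e1, e2] at this
      linarith
    refine h11.trans (div_le_div_of_nonneg_right (by linarith) hc0.le)
  have hTR : ∀ e, T e ⊆ R' := fun e => filter_subset _ _
  have hTe : ∀ e, ∀ f ∈ T e, (H e ∩ H f).card = 1 ∧ y1 f ≤ x f / c2 := by
    intro e f hf
    obtain ⟨h11, h12, h13⟩ := mem_filter.1 hf
    refine ⟨?_, hy1c2 f h11 h12⟩
    rw [h13, card_singleton]
  -- the general lower bound for a star
  have hstar : ∀ e ∈ F, ∀ v ∈ H e, 2 - 2 * k / C + 2 / C * bsm H x k e + g * x e +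
      γA * X v + γA * A e v + γt * ∑ f ∈ T e, x f ≤ Hh e := by
    intro e he v hv
    exact head_star hx hdeg hc0 hC0 hCc2 hF hR' (fun f hf => (hκF f hf).2.1) hy1C he (hTR e)
      (hTe e) hv
  have hbase : 0 < 2 - 2 * (k : ℝ) / C := by
    rw [sub_pos, div_lt_iff₀ hC0]
    linarith
  have hA0 : ∀ e v, 0 ≤ A e v := fun e v => sum_nonneg fun f _ => hx f
  have ht0 : ∀ e, 0 ≤ ∑ f ∈ T e, x f := fun e => sum_nonneg fun f _ => hx f
  have hHpos : ∀ e ∈ F, 0 < Hh e := by
    intro e he
    obtain ⟨v, hv⟩ := hne e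
    have h11 := hstar e he v hv
    have h12 := bsm_nonneg (H := H) hx k e
    have h13 : 0 ≤ 2 / C * bsm H x k e := by positivity
    have h14 := mul_nonneg hg0.le (hx e)
    have h15 := mul_nonneg hγA0 (hX0 v)
    have h16 := mul_nonneg hγA0 (hA0 e v)
    have h17 := mul_nonneg hγt0 (ht0 e)
    linarith
  have hH1 : ∀ e ∈ F, Hh e ≤ 1 := by
    intro e he
    have h11 := hgr' e ((mem_filter.1 he).1)
    have h12 : ∑ f ∈ R' with ¬ Disjoint (H e) (H f), dem H x κ k f ≤
        ∑ f ∈ R' with ¬ Disjoint (H e) (H f), y1 f :=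
      sum_le_sum fun f hf => hy1ge f (mem_filter.1 hf).1
    have h13 : ∑ f ∈ F with ¬ Disjoint (H e) (H f), dem H x κ k f = Yh e :=
      sum_congr rfl fun f hf => hdF f (mem_filter.1 hf).1
    have h14 : 0 ≤ ∑ f ∈ R' with ¬ Disjoint (H e) (H f), y1 f := sum_nonneg fun f _ => hy10 f
    simp only [hHh, hl]
    linarith
  -- the numerator bound
  set W : E → V → ℝ := fun e v => γA * A e v + γt * ∑ f ∈ T e, x f with hW
  have hW0 : ∀ e v, 0 ≤ W e v := fun e v =>
    add_nonneg (mul_nonneg hγA0 (hA0 e v)) (mul_nonneg hγt0 (ht0 e))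
  have hnum : ∀ e ∈ F, ∀ v ∈ H e,
      (1 + κ e) * a v - Hh e + κ e * Db ≤ σ * X v - g * x e - W e v := by
    intro e he v hv
    have h11 := hstar e he v hv
    obtain ⟨hκ0, hκ1, hκ2⟩ := hκF e he
    have h12 := bsm_nonneg (H := H) hx k e
    have h13 : κ e * ((1 + δ) * X v / c + Db) ≤ 2 / C * bsm H x k e := by
      have h14 : (1 + δ) * X v / c + Db ≤ (2 + δ + kb) / c := by
        rw [hDb, ← add_div]
        apply div_le_div_of_nonneg_right _ hc0.le
        have := mul_le_mul_of_nonneg_left (hX1 v) (by linarith : 0 ≤ 1 + δ)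
        linarith
      have h15 : 0 ≤ (2 + δ + kb) / c := div_nonneg (by linarith) hc0.le
      calc κ e * ((1 + δ) * X v / c + Db) ≤ κ e * ((2 + δ + kb) / c) :=
            mul_le_mul_of_nonneg_left h14 hκ0
        _ ≤ ρ * bsm H x k e * ((2 + δ + kb) / c) := mul_le_mul_of_nonneg_right hκ2 h15
        _ = ρ * ((2 + δ + kb) / c) * bsm H x k e := by ring
        _ ≤ 2 / C * bsm H x k e := mul_le_mul_of_nonneg_right h9a h12
    have h14 : X v * ((2 + δ + kb) / c - 2 / C) ≤ σ * X v + (2 - 2 * k / C) := by
      have h15 : (2 + δ + kb) / c - 2 / C ≤ σ + (2 - 2 * k / C) := by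
        have e1 : g = 2 * k / C - 2 / C := by rw [hg]; ring
        have e2 : (2 + δ + kb) / c = 2 / c + (δ + kb) / c := by ring
        rw [e1] at h2
        rw [e2]
        linarith
      have h16 := mul_le_mul_of_nonneg_left h15 (hX0 v)
      have h17 := mul_nonneg (sub_nonneg.2 (hX1 v)) hbase.le
      nlinarith
    have e3 : X v * ((2 + δ + kb) / c - 2 / C) = (1 + δ) * X v / c - γA * X v := by
      rw [hγA]; ring
    rw [e3] at h14
    simp only [ha, hW]
    linarith
  have hHlow : ∀ e ∈ F, ∀ v ∈ H e, X v / c - (σ * X v - g * x e - W e v) ≤ Hh e := by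
    intro e he v hv
    have h11 := hnum e he v hv
    obtain ⟨hκ0, hκ1, hκ2⟩ := hκF e he
    have h12 : X v / c ≤ a v := by
      simp only [ha]
      apply div_le_div_of_nonneg_right _ hc0.le
      have := mul_nonneg δ0 (hX0 v)
      linarith
    have h13 : 0 ≤ κ e * a v := mul_nonneg hκ0 (le_trans (div_nonneg (hX0 v) hc0.le) h12)
    have h14 : 0 ≤ κ e * Db := mul_nonneg hκ0 (div_nonneg (by linarith) hc0.le)
    linarith
  have haX : ∀ v, X v / c ≤ a v := by
    intro v
    simp only [ha]
    apply div_le_div_of_nonneg_right _ hc0.le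
    have := mul_nonneg δ0 (hX0 v)
    linarith
  have ha0 : ∀ v, 0 ≤ a v := fun v => le_trans (div_nonneg (hX0 v) hc0.le) (haX v)
  -- thinning
  choose z hz0 hzle hzeq using fun e => exists_top ((H e).erase (rep e))
    (fun v => ((1 + κ e) * a v - Hh e + κ e * Db) / (a v + Hh e))
  have hz1 : ∀ e ∈ F, z e ≤ 1 := by
    intro e he
    rcases hzeq e with h | ⟨v, hv, h⟩
    · rw [h]; norm_num
    · have hv' := mem_of_mem_erase hv
      rw [h, div_le_one (by linarith [ha0 v, hHpos e he])]
      have h11 := hnum e he v hv'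
      have h12 := hW0 e v
      have h13 := mul_nonneg hg0.le (hx e)
      have h14 : σ * X v ≤ X v / c := by
        rw [le_div_iff₀ hc0]
        have := mul_le_mul_of_nonneg_right h10a.le (hX0 v)
        nlinarith
      have h15 := haX v
      have h16 := hHpos e he
      linarith
  set s : E → ℝ := fun e => (1 + κ e - z e) * (x e / c) with hs
  have hxc : ∀ e, 0 ≤ x e / c := fun e => div_nonneg (hx e) hc0.le
  have hs0 : ∀ e ∈ F, 0 ≤ s e := fun e he =>
    mul_nonneg (by linarith [(hκF e he).1, hz1 e he]) (hxc e)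
  have hsle : ∀ e, s e ≤ (1 + κ e) * (x e / c) := fun e =>
    mul_le_mul_of_nonneg_right (by linarith [hz0 e]) (hxc e)
  have hsx : ∀ e, s e ≠ 0 → x e ≠ 0 := by
    intro e h h0
    apply h
    simp only [hs]
    rw [h0, zero_div, mul_zero]
  have hLge : ∀ e ∈ F, Hh e ≤ 2 * l e - ∑ f ∈ F with ¬ Disjoint (H e) (H f), s f := by
    intro e he
    have : ∑ f ∈ F with ¬ Disjoint (H e) (H f), s f ≤ Yh e := sum_le_sum fun f _ => hsle f
    simp only [hHh]
    linarith
  have hLpos : ∀ e ∈ F, 0 < 2 * l e - ∑ f ∈ F with ¬ Disjoint (H e) (H f), s f :=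
    fun e he => (hHpos e he).trans_le (hLge e he)
  set π : E → ℝ := fun e => if 0 < z e then π0 e else 0 with hπ
  have hπle : ∀ e, π e ≤ π0 e := by
    intro e
    simp only [hπ]
    split_ifs
    · exact le_rfl
    · exact hπ00 e
  have hπ_0 : ∀ e, 0 ≤ π e := by
    intro e
    simp only [hπ]
    split_ifs
    · exact hπ00 e
    · exact le_rfl
  rw [← hRun]
  refine real_step hrefl hsymm hdisj (y1 := y1) (s := s)
    (lam := fun e => s e / (2 * l e - ∑ f ∈ F with ¬ Disjoint (H e) (H f), s f)) (π := π)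
    (hlvl R' (fun e he => hR' e he)) hs0 (fun e he h => div_pos h (hLpos e he)) ?_ ?_ hπ_0 ?_
    (fun e f => (H f).card = k + 1 ∧ H e ∩ H f = {rep e}) (fun e _ => hdem0 e) ?_ ?_
  · -- cliques
    intro C0 hC0F hC0s hC0c
    rcases C0.eq_empty_or_nonempty with rfl | hC0ne
    · simp
    have hxpos : ∀ e ∈ C0, 0 < x e := by
      intro e he
      exact lt_of_le_of_ne (hx e) (Ne.symm (hsx e (hC0s e he).ne'))
    have hlam0 : ∀ e ∈ F, 0 ≤ s e / (2 * l e - ∑ f ∈ F with ¬ Disjoint (H e) (H f), s f) :=
      fun e he => div_nonneg (hs0 e he) (hLpos e he).le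
    by_cases hcen : ∃ v, ∀ f ∈ C0, v ∈ H f
    · -- star
      obtain ⟨v, hv⟩ := hcen
      set S := F.filter (fun f => v ∈ H f) with hS
      have hSF : ∀ e ∈ S, e ∈ F ∧ v ∈ H e := fun e he => mem_filter.1 he
      have hsub : C0 ⊆ S := fun e he => mem_filter.2 ⟨hC0F he, hv e he⟩
      refine (sum_le_sum_of_subset_of_nonneg hsub
        (fun e he _ => hlam0 e (hSF e he).1)).trans ?_
      obtain ⟨e0, he0⟩ := hC0ne
      have hXpos : 0 < X v := by
        refine lt_of_lt_of_le (hxpos e0 he0) ?_
        exact single_le_sum (f := x) (fun f _ => hx f) (hsub he0)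
      refine star_bound (orph := fun e => rep e = v) (Hh := Hh) (z := z) (κ := κ) (x := x)
        (X := X v) (a := a v) (Db := Db) (kb := kb) hc0 hg0 δ0 σ0 h10a h6
        (fun e _ => hx e) rfl hXpos rfl ?_ (fun e he => ⟨(hκF e (hSF e he).1).1,
          (hκF e (hSF e he).1).2.1⟩) (fun e he => ⟨hz0 e, hz1 e (hSF e he).1⟩)
        (fun e he => hHpos e (hSF e he).1) ?_ ?_ ?_ ?_
      · rw [hDb]
        apply div_le_div_of_nonneg_right _ hc0.le
        have := mul_le_mul_of_nonneg_left (hX1 v) (by linarith : 0 ≤ 1 + kb)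
        linarith
      · intro e he
        have := hnum e (hSF e he).1 v (hSF e he).2
        have := hW0 e v
        linarith
      · intro e he hxe ho
        exact hzle e v (mem_erase.2 ⟨fun h => ho h.symm, (hSF e he).2⟩)
      · intro e he f hf hxe hxf h11 h12
        exact hinj e f hxe hxf (h11.trans h12.symm)
      · intro e he
        obtain ⟨heF, hev⟩ := hSF e he
        have h11 : ∑ f ∈ F with ¬ Disjoint (H e) (H f), s f + ∑ f ∈ S, z f * (x f / c) ≤
            Yh e := by
          have h12 : ∑ f ∈ S, z f * (x f / c) ≤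
              ∑ f ∈ F with ¬ Disjoint (H e) (H f), z f * (x f / c) := by
            apply sum_le_sum_of_subset_of_nonneg
            · intro f hf
              obtain ⟨hfF, hfv⟩ := hSF f hf
              exact mem_filter.2 ⟨hfF, not_disjoint_iff.2 ⟨v, hev, hfv⟩⟩
            · intro f _ _
              exact mul_nonneg (hz0 f) (hxc f)
          have h13 : ∑ f ∈ F with ¬ Disjoint (H e) (H f), s f +
              ∑ f ∈ F with ¬ Disjoint (H e) (H f), z f * (x f / c) = Yh e := by
            rw [← sum_add_distrib]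
            refine sum_congr rfl fun f _ => ?_
            simp only [hs]
            ring
          linarith
        have e1 : Hh e = 2 * l e - Yh e := rfl
        rw [e1]
        linarith
    · -- no common vertex
      push Not at hcen
      have h11 : ∀ e ∈ C0, s e / (2 * l e - ∑ f ∈ F with ¬ Disjoint (H e) (H f), s f) ≤
          (1 + κ e) * (x e / c) / Hh e := by
        intro e he
        have heF := hC0F he
        exact div_le_div₀ (mul_nonneg (by linarith [(hκF e heF).1]) (hxc e)) (hsle e)
          (hHpos e heF) (hLge e heF)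
      refine (sum_le_sum h11).trans ?_
      refine nonstar_inflated (H := H) (C := C0) (k := k) (c := c) (cc := C) (ρ := ρ)
        (κm := kb) (pm := 1 / 2) (τ := 1 + kb / (4 * (1 / 2))) (y := fun e => x e / c)
        (h := Hh) (κ := κ) (b := bsm H x k) (by omega) (by rw [hc, ck]) hkC ?_
        (by norm_num) (by linarith) rfl kb0 ρ0 ?_ (fun f hf => (hF f (hC0F hf)).le) hC0c hcen
        (fun f hf => div_pos (hxpos f hf) hc0) (fun f hf => hHpos f (hC0F hf))
        (fun f hf => hH1 f (hC0F hf)) (fun f hf => (hκF f (hC0F hf)).1)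
        (fun f hf => (hκF f (hC0F hf)).2.1) (fun f _ => bsm_nonneg hx k f)
        (fun f hf => (hκF f (hC0F hf)).2.2) ?_
      · refine lt_of_le_of_lt hC1 ?_
        unfold ck
        push_cast
        have : 1 / ((k : ℝ) + 1) ≤ 1 := by
          rw [div_le_one (by linarith)]
          linarith
        linarith
      · have e1 : ρ * ((1 + kb / (4 * (1 / 2)) - 1) * C + 2 * k) =
            ρ * (kb / 2 * C + 2 * k) := by ring
        rw [e1]
        exact h9c
      · intro f hf
        have hfF := hC0F hf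
        have h12 := head_lower hx hdeg (c := c) hC0 hCc2 hF hR' hy1C (hF f hfF) (κ := κ)
          (T := ∅) (empty_subset _) (by simp)
        rw [sum_empty, mul_zero, add_zero] at h12
        refine le_trans ?_ h12
        have h13 : ∑ g' ∈ C0, x g' / c * (2 * c / C * ((H f ∩ H g').card : ℝ) - 1 - κ g') ≤
            ∑ g' ∈ F with ¬ Disjoint (H f) (H g'), x g' * (2 / C * ((H f ∩ H g').card : ℝ) -
              (1 + κ g') / c) := by
          have h14 : ∀ g' ∈ F, ¬ Disjoint (H f) (H g') →
              x g' / c * (2 * c / C * ((H f ∩ H g').card : ℝ) - 1 - κ g') =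
              x g' * (2 / C * ((H f ∩ H g').card : ℝ) - (1 + κ g') / c) ∧
              0 ≤ x g' * (2 / C * ((H f ∩ H g').card : ℝ) - (1 + κ g') / c) := by
            intro g' hg' hd
            constructor
            · field_simp
              ring
            · apply mul_nonneg (hx g')
              have h15 := one_le_inter hd
              have h16 : 2 / C * 1 ≤ 2 / C * ((H f ∩ H g').card : ℝ) :=
                mul_le_mul_of_nonneg_left h15 (by positivity)
              have h17 : (1 + κ g') / c ≤ (1 + kb) / c :=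
                div_le_div_of_nonneg_right (by linarith [(hκF g' hg').2.1]) hc0.le
              have h18 : γA = 2 / C - (1 + kb) / c := rfl
              linarith
          rw [sum_congr rfl fun g' hg' => (h14 g' (hC0F hg') (hC0c f hf g' hg')).1]
          apply sum_le_sum_of_subset_of_nonneg
          · intro g' hg'
            exact mem_filter.2 ⟨hC0F hg', hC0c f hf g' hg'⟩
          · intro g' hg' _
            exact (h14 g' (mem_filter.1 hg').1 (mem_filter.1 hg').2).2
        linarith
  · -- budget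
    intro e he h
    have h11 := (hLpos e he).ne'
    rw [div_div_cancel₀ h.ne']
    linarith
  · -- requests are sparse
    intro e he
    calc ∑ f ∈ F with ¬ Disjoint (H e) (H f), π f ≤
        ∑ f ∈ F with ¬ Disjoint (H e) (H f), p * (x f * ((H e ∩ H f).card : ℝ)) := by
          refine sum_le_sum fun f hf => ?_
          have h11 := (hπle f).trans (hπ0x f)
          have h12 := mul_le_mul_of_nonneg_left (one_le_inter (mem_filter.1 hf).2) (hx f)
          have h13 := mul_le_mul_of_nonneg_left h12 p0.le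
          linarith
      _ = p * ∑ f ∈ F with ¬ Disjoint (H e) (H f), (x f * ((H e ∩ H f).card : ℝ)) := by
          rw [mul_sum]
      _ ≤ p * ∑ f, (x f * ((H e ∩ H f).card : ℝ)) := by
          apply mul_le_mul_of_nonneg_left _ p0.le
          apply sum_le_sum_of_subset_of_nonneg (subset_univ _)
          intro f _ _
          exact mul_nonneg (hx f) (Nat.cast_nonneg _)
      _ ≤ p * k := by
          apply mul_le_mul_of_nonneg_left _ p0.le
          have := sum_inc_le hdeg (H e)
          rw [hF e he] at this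
          exact this
      _ ≤ 1 := by linarith
  · -- deletions
    intro g' hg'
    rw [hdR g' hg']
    simp only [hy1def, dem]
    have hck0 := hckpos g'
    by_cases hcard : (H g').card = k + 1
    · rw [if_pos hcard, show ck (H g').card = ck (k + 1) by rw [hcard]]
      by_cases hxg : x g' = 0
      · rw [hxg]; simp
      have h11 : ∑ e ∈ F with (¬ Disjoint (H e) (H g') ∧
          (H g').card = k + 1 ∧ H e ∩ H g' = {rep e}), π e ≤ Φ g' := by
        have h12 : ∑ e ∈ F with (¬ Disjoint (H e) (H g') ∧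
          (H g').card = k + 1 ∧ H e ∩ H g' = {rep e}), π e =
          ∑ e ∈ (F.filter (fun e => ¬ Disjoint (H e) (H g') ∧
          (H g').card = k + 1 ∧ H e ∩ H g' = {rep e})).filter (fun e => x e ≠ 0), π e := by
          symm
          apply sum_filter_of_ne
          intro e _ he h0
          apply he
          have h13 := hπle e
          have h14 := hπ0x e
          have h15 := hπ_0 e
          rw [h0] at h14
          linarith
        rw [h12]
        refine (sum_le_sum fun e _ => hπle e).trans ?_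
        apply sum_le_sum_of_subset_of_nonneg
        · intro e he
          simp only [mem_filter] at he
          obtain ⟨⟨he1, -, -, he4⟩, he5⟩ := he
          simp only [hown, mem_filter, mem_univ, true_and]
          refine ⟨hF e he1, he5, ?_⟩
          have : rep e ∈ H e ∩ H g' := by rw [he4]; exact mem_singleton_self _
          exact (mem_inter.1 this).2
        · intro e _ _
          exact hπ00 e
      have h12 : κ' g' = q * Φ g' := by simp only [hκ']; rw [if_neg hxg]
      rw [h12]
      have h13 := hΦ0 g'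
      have h14 := hΦk g' hcard hxg
      have h15 : 1 ≤ (1 + q * Φ g') * (1 - Φ g') := by
        have h16 : q * Φ g' ≤ q - 1 := by
          rw [← hqφ]
          exact mul_le_mul_of_nonneg_left h14 (by linarith)
        nlinarith
      have h16 : 0 ≤ x g' / ck (k + 1) := div_nonneg (hx g') (ck_pos (by omega)).le
      have h17 : 1 ≤ (1 + q * Φ g') * (1 - ∑ e ∈ F with (¬ Disjoint (H e) (H g') ∧
          (H g').card = k + 1 ∧ H e ∩ H g' = {rep e}), π e) := by
        refine h15.trans (mul_le_mul_of_nonneg_left (by linarith) ?_)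
        have := mul_nonneg (by linarith : 0 ≤ q) h13
        linarith
      have h18 := mul_le_mul_of_nonneg_left h17 h16
      nlinarith
    · rw [if_neg hcard]
      have h11 : ∑ e ∈ F with (¬ Disjoint (H e) (H g') ∧
          (H g').card = k + 1 ∧ H e ∩ H g' = {rep e}), π e = 0 := by
        apply sum_eq_zero
        intro e he
        exact absurd (mem_filter.1 he).2.2.1 hcard
      rw [h11, sub_zero, mul_one]
  · -- acceptance
    intro e he
    rw [hdF e he]
    have e1 : s e = (1 + κ e) * (x e / c) - z e * (x e / c) := by simp only [hs]; ring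
    rcases hzeq e with hz' | ⟨v, hv, hz'⟩
    · have e2 : π e = 0 := by simp only [hπ]; rw [if_neg (by rw [hz']; exact lt_irrefl _)]
      rw [e1, e2, hz']
      linarith
    by_cases hzpos : 0 < z e
    swap
    · have h11 : z e = 0 := le_antisymm (not_lt.1 hzpos) (hz0 e)
      have e2 : π e = 0 := by simp only [hπ]; rw [if_neg hzpos]
      rw [e1, e2, h11]
      linarith
    have e2 : π e = tent p ξ (x e) := by
      simp only [hπ, hπ0]; rw [if_pos hzpos, if_pos (hF e he)]
    by_cases hxe : x e = 0
    · rw [e1, e2, hxe]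
      simp [tent]
    obtain ⟨hvne, hvH⟩ := mem_erase.1 hv
    have hacc := acc_lower (kb := kb) hx hdeg hc0 hC0 hcC hc20 hF hR' (s := s)
      (fun f hf => (hsle f).trans (mul_le_mul_of_nonneg_right
        (by linarith [(hκF f hf).2.1]) (hxc f))) hy1C hy1c2 he (hrep e hxe) hvH hvne
    have hkey := accept (L := ℓA * A e v + ℓt * ∑ f ∈ T e, x f) (W := W e v)
      (acc := 1 - ∑ f ∈ F with ¬ Disjoint (H e) (H f), s f -
        ∑ f ∈ R' with (¬ Disjoint (H e) (H f) ∧ ¬ ((H f).card = k + 1 ∧ H e ∩ H f = {rep e})),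
          y1 f) hc0 σ0 h10a hg0 hξ Q0 p0 h7 (hX0 v) (hX1 v) (hx e) (hW0 e v) ?_
      (hHpos e he) (haX v) (hκF e he).1 (div_nonneg (by linarith) hc0.le)
      (hnum e he v hvH) hz' hzpos ?_
    · rw [e1, e2]
      linarith
    · have h11 := mul_le_mul_of_nonneg_right h5a (hA0 e v)
      have h12 := mul_le_mul_of_nonneg_right h5b (ht0 e)
      have e3 : σ * (ℓA * A e v + ℓt * ∑ f ∈ T e, x f) =
          σ * ℓA * A e v + σ * ℓt * ∑ f ∈ T e, x f := by ring
      have e4 : Q * W e v = Q * γA * A e v + Q * γt * ∑ f ∈ T e, x f := by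
        simp only [hW]; ring
      rw [e3, e4]
      linarith
    · refine le_trans ?_ hacc
      have : Q ≤ 1 - (1 + kb) / c - (k - 2) / C := h4
      linarith

end H34.FKS
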