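import Mathlib
import Pool.Agent.H34.FKS.StepOwn2

/-!
# Numbers for the steps at `k ≥ 4`

`kbar k = 9/(4 (k-1)^4)` and `rbar k = 19/(20 k)`; the parameters `Par` exist for every `k ≥ 4`,
hence every good inflation of the `k`-edges (`k ≥ 4`) is served: `lvl_of_good`.
-/

set_option autoImplicit false
set_option linter.unusedSectionVars false
set_option linter.unusedVariables false

namespace H34.FKS

open Finset H4.FKS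

/-- Maximal inflation at level `k`. -/
noncomputable def kbar (k : ℕ) : ℝ := 9 / (4 * ((k : ℝ) - 1) ^ 4)

/-- Maximal slope of the inflation at level `k`. -/
noncomputable def rbar (k : ℕ) : ℝ := 19 / (20 * (k : ℝ))

/-- Constructor of the parameters in terms of `w = 1/c`, `u = 1/C`, `w2 = 1/c2`. -/
theorem par_mk {k : ℕ} (hk : 3 ≤ k) {kb kb1 ρ ρ1 δ σ Q p φ w u w2 : ℝ}
    (hw : 1 / ck k = w) (hu : 1 / (ck (k + 1) / (1 + kb1)) = u) (hw2 : 1 / ck (k + 2) = w2)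
    (kb0 : 0 ≤ kb) (kb10 : 0 ≤ kb1) (ρ0 : 0 ≤ ρ) (ρ10 : 0 ≤ ρ1) (δ0 : 0 ≤ δ) (σ0 : 0 < σ)
    (Q0 : 0 < Q) (p0 : 0 < p) (hφ0 : 0 ≤ φ)
    (hkC : k * u < 1)
    (h2 : 2 * w - 2 + 2 * (k - 1) * u + (δ + kb) * w ≤ σ)
    (h3 : σ ≤ 2 * w - 2 * u)
    (h4 : Q ≤ 1 - (1 + kb) * w - (k - 2) * u)
    (h5a : σ * ((1 + kb) * w) ≤ Q * (2 * u - (1 + kb) * w))
    (h5b : σ * w2 ≤ Q * (2 * u - 2 * w2))
    (h6 : σ ^ 2 ≤ 4 * (2 * (k - 1) * u) * δ * (w - σ))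
    (h7 : σ ≤ p * ((2 - ck k * σ) * Q))
    (hφ : p * σ ≤ 8 * (k - 1) * φ * u)
    (hφ1 : k * φ < 1)
    (h8a : k * φ ≤ kb1 * (1 - k * φ))
    (h8b : p ≤ ρ1 * (1 - k * φ))
    (h9a : ρ * ((2 + δ + kb) * w) ≤ 2 * u)
    (h9b : 1 / 2 ≤ 2 * ck k * u - 1 - kb)
    (h9c : ρ * (kb / 2 + 2 * k * u) ≤ 2 * u)
    (h10a : ck k * σ < 1)
    (h10b : k * p ≤ 1) :
    Par k (ck k) (ck (k + 1) / (1 + kb1)) (ck (k + 2)) kb kb1 ρ ρ1 δ σ Q p φ := by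
  have hc0 : 0 < ck k := ck_pos (by omega)
  have hC0 : 0 < ck (k + 1) / (1 + kb1) := div_pos (ck_pos (by omega)) (by linarith)
  have hu0 : 0 < u := by rw [← hu]; positivity
  set c := ck k with hc
  set C := ck (k + 1) / (1 + kb1) with hC
  have huC : u * C = 1 := by rw [← hu]; field_simp
  have e1 : ∀ t : ℝ, t / c = t * w := fun t => by rw [← hw]; ring
  have e2 : ∀ t : ℝ, t / C = t * u := fun t => by rw [← hu]; ring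
  have e3 : ∀ t : ℝ, t / ck (k + 2) = t * w2 := fun t => by rw [← hw2]; ring
  refine ⟨hk, rfl, rfl, rfl, kb0, kb10, ρ0, ρ10, δ0, σ0, Q0, p0, ?_, ?_, ?_, ?_, ?_, ?_, ?_, h7,
    ?_, hφ0, hφ1, h8a, h8b, ?_, ?_, ?_, h10a, h10b⟩
  · have h := mul_lt_mul_of_pos_right hkC hC0
    rw [mul_assoc, huC, mul_one, one_mul] at h
    exact h
  · rw [e1, e2, e1]; exact h2
  · rw [e1, e2]; exact h3
  · rw [e1, e2]; exact h4
  · rw [e1, e2]; exact h5a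
  · rw [e2, e3, e3, one_mul]; exact h5b
  · rw [e1, e2, one_mul]; exact h6
  · have h := mul_le_mul_of_nonneg_right hφ hC0.le
    calc p * σ * C ≤ 8 * (↑k - 1) * φ * u * C := h
      _ = 8 * (↑k - 1) * φ * (u * C) := by ring
      _ = _ := by rw [huC, mul_one]
  · rw [e1, e2]; exact h9a
  · rw [e2]
    exact h9b
  · have h := mul_le_mul_of_nonneg_right h9c hC0.le
    calc ρ * (kb / 2 * C + 2 * k) = ρ * (kb / 2 * C + 2 * k * (u * C)) := by rw [huC, mul_one]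
      _ = ρ * (kb / 2 + 2 * k * u) * C := by ring
      _ ≤ 2 * u * C := h
      _ = 2 * (u * C) := by ring
      _ = 2 := by rw [huC, mul_one]

/-- Parameters for `k = 4`. -/
theorem par_four : Par 4 (ck 4) (ck (4 + 1) / (1 + kbar (4 + 1))) (ck (4 + 2)) (kbar 4)
    (kbar (4 + 1)) (rbar 4) (rbar (4 + 1)) (33 / 10000) (662 / 10000) (2033 / 10000)
    (184 / 1000) (215 / 100000) := by
  apply par_mk (by norm_num) (w := 4 / 13) (u := 5165 / 21504) (w2 := 6 / 31) <;>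
    norm_num [ck, kbar, rbar]

theorem num_hkC {m : ℝ} (hm : 0 ≤ m) :
    (m + 5) * ((1 + (9 / 4 / (m + 5) ^ 4)) * (m + 6) / (m ^ 2 + 11 * m + 31)) <
      1 := by
  have e : 1 - ((m + 5) * ((1 + (9 / 4 / (m + 5) ^ 4)) * (m + 6) / (m ^ 2 + 11 * m + 31))) =
      (1115 / 2 + 1901 / 4 * m + 591 / 4 * m ^ 2 + 20 * m ^ 3 + 1 * m ^ 4) / ((m + 5) ^ 4 * (m ^ 2
          + 11 * m + 31)) := by
    field_simp
    ring
  have h : 0 < (1115 / 2 + 1901 / 4 * m + 591 / 4 * m ^ 2 + 20 * m ^ 3 + 1 * m ^ 4) / ((m + 5) ^ 4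
      * (m ^ 2 + 11 * m + 31)) := by positivity
  rw [← e] at h
  linarith

theorem num_h2 {m : ℝ} (hm : 0 ≤ m) :
    2 * ((m + 5) / (m ^ 2 + 9 * m + 21)) - 2 + 2 * ((m + 5) - 1) * ((1 + (9 / 4 / (m + 5) ^ 4)) *
        (m + 6) / (m ^ 2 + 11 * m + 31)) + ((3 / (m + 5) ^ 5) + (9 / 4 / (m + 4) ^ 4)) * ((m + 5)
        / (m ^ 2 + 9 * m + 21)) ≤
      (41 / 10 / (m + 5) ^ 3) := by
  have e : (41 / 10 / (m + 5) ^ 3) - (2 * ((m + 5) / (m ^ 2 + 9 * m + 21)) - 2 + 2 * ((m + 5) - 1)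
      * ((1 + (9 / 4 / (m + 5) ^ 4)) * (m + 6) / (m ^ 2 + 11 * m + 31)) + ((3 / (m + 5) ^ 5) + (9
      / 4 / (m + 4) ^ 4)) * ((m + 5) / (m ^ 2 + 9 * m + 21))) =
      (681265 / 4 + 2722035 / 4 * m + 4160823 / 5 * m ^ 2 + 10427197 / 20 * m ^ 3 + 1985367 / 10 *
          m ^ 4 + 993749 / 20 * m ^ 5 + 84933 / 10 * m ^ 6 + 20099 / 20 * m ^ 7 + 1619 / 20 * m ^
          8 + 41 / 10 * m ^ 9 + 1 / 10 * m ^ 10) / ((m + 4) ^ 4 * (m + 5) ^ 5 * (m ^ 2 + 9 * m +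
          21) * (m ^ 2 + 11 * m + 31)) := by
    field_simp
    ring
  have h : 0 ≤ (681265 / 4 + 2722035 / 4 * m + 4160823 / 5 * m ^ 2 + 10427197 / 20 * m ^ 3 +
      1985367 / 10 * m ^ 4 + 993749 / 20 * m ^ 5 + 84933 / 10 * m ^ 6 + 20099 / 20 * m ^ 7 + 1619
      / 20 * m ^ 8 + 41 / 10 * m ^ 9 + 1 / 10 * m ^ 10) / ((m + 4) ^ 4 * (m + 5) ^ 5 * (m ^ 2 + 9
      * m + 21) * (m ^ 2 + 11 * m + 31)) := by positivity
  rw [← e] at h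
  linarith

theorem num_h3 {m : ℝ} (hm : 0 ≤ m) :
    (41 / 10 / (m + 5) ^ 3) ≤
      2 * ((m + 5) / (m ^ 2 + 9 * m + 21)) - 2 * ((1 + (9 / 4 / (m + 5) ^ 4)) * (m + 6) / (m ^ 2 +
          11 * m + 31)) := by
  have e : 2 * ((m + 5) / (m ^ 2 + 9 * m + 21)) - 2 * ((1 + (9 / 4 / (m + 5) ^ 4)) * (m + 6) / (m
      ^ 2 + 11 * m + 31)) - ((41 / 10 / (m + 5) ^ 3)) =
      (44675 / 2 + 146442 / 5 * m + 15696 * m ^ 2 + 22132 / 5 * m ^ 3 + 1391 / 2 * m ^ 4 + 579 /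
          10 * m ^ 5 + 2 * m ^ 6) / ((m + 5) ^ 4 * (m ^ 2 + 9 * m + 21) * (m ^ 2 + 11 * m + 31))
          := by
    field_simp
    ring
  have h : 0 ≤ (44675 / 2 + 146442 / 5 * m + 15696 * m ^ 2 + 22132 / 5 * m ^ 3 + 1391 / 2 * m ^ 4
      + 579 / 10 * m ^ 5 + 2 * m ^ 6) / ((m + 5) ^ 4 * (m ^ 2 + 9 * m + 21) * (m ^ 2 + 11 * m +
      31)) := by positivity
  rw [← e] at h
  linarith

theorem num_h4 {m : ℝ} (hm : 0 ≤ m) :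
    (((m + 5) ^ 2 - 3) / (m + 5) ^ 3) ≤
      1 - (1 + (9 / 4 / (m + 4) ^ 4)) * ((m + 5) / (m ^ 2 + 9 * m + 21)) - ((m + 5) - 2) * ((1 +
          (9 / 4 / (m + 5) ^ 4)) * (m + 6) / (m ^ 2 + 11 * m + 31)) := by
  have e : 1 - (1 + (9 / 4 / (m + 4) ^ 4)) * ((m + 5) / (m ^ 2 + 9 * m + 21)) - ((m + 5) - 2) *
      ((1 + (9 / 4 / (m + 5) ^ 4)) * (m + 6) / (m ^ 2 + 11 * m + 31)) - ((((m + 5) ^ 2 - 3) / (m +
      5) ^ 3)) =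
      (448573 / 4 + 511583 / 2 * m + 453963 / 2 * m ^ 2 + 429447 / 4 * m ^ 3 + 120855 / 4 * m ^ 4
          + 20913 / 4 * m ^ 5 + 545 * m ^ 6 + 125 / 4 * m ^ 7 + 3 / 4 * m ^ 8) / ((m + 4) ^ 4 * (m
          + 5) ^ 4 * (m ^ 2 + 9 * m + 21) * (m ^ 2 + 11 * m + 31)) := by
    field_simp
    ring
  have h : 0 ≤ (448573 / 4 + 511583 / 2 * m + 453963 / 2 * m ^ 2 + 429447 / 4 * m ^ 3 + 120855 / 4
      * m ^ 4 + 20913 / 4 * m ^ 5 + 545 * m ^ 6 + 125 / 4 * m ^ 7 + 3 / 4 * m ^ 8) / ((m + 4) ^ 4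
      * (m + 5) ^ 4 * (m ^ 2 + 9 * m + 21) * (m ^ 2 + 11 * m + 31)) := by positivity
  rw [← e] at h
  linarith

theorem num_h5a {m : ℝ} (hm : 0 ≤ m) :
    (41 / 10 / (m + 5) ^ 3) * ((1 + (9 / 4 / (m + 4) ^ 4)) * ((m + 5) / (m ^ 2 + 9 * m + 21))) ≤
      (((m + 5) ^ 2 - 3) / (m + 5) ^ 3) * (2 * ((1 + (9 / 4 / (m + 5) ^ 4)) * (m + 6) / (m ^ 2 +
          11 * m + 31)) - (1 + (9 / 4 / (m + 4) ^ 4)) * ((m + 5) / (m ^ 2 + 9 * m + 21))) := by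
  have e : (((m + 5) ^ 2 - 3) / (m + 5) ^ 3) * (2 * ((1 + (9 / 4 / (m + 5) ^ 4)) * (m + 6) / (m ^
      2 + 11 * m + 31)) - (1 + (9 / 4 / (m + 4) ^ 4)) * ((m + 5) / (m ^ 2 + 9 * m + 21))) - ((41 /
      10 / (m + 5) ^ 3) * ((1 + (9 / 4 / (m + 4) ^ 4)) * ((m + 5) / (m ^ 2 + 9 * m + 21)))) =
      (1898114877 / 8 + 3009161281 / 4 * m + 1077569861 * m ^ 2 + 7423383995 / 8 * m ^ 3 +
          4301689277 / 8 * m ^ 4 + 4438194151 / 20 * m ^ 5 + 1344074079 / 20 * m ^ 6 + 605521699 /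
          40 * m ^ 7 + 25383427 / 10 * m ^ 8 + 6262129 / 20 * m ^ 9 + 138139 / 5 * m ^ 10 + 16519
          / 10 * m ^ 11 + 60 * m ^ 12 + 1 * m ^ 13) / ((m + 4) ^ 4 * (m + 5) ^ 7 * (m ^ 2 + 9 * m
          + 21) * (m ^ 2 + 11 * m + 31)) := by
    field_simp
    ring
  have h : 0 ≤ (1898114877 / 8 + 3009161281 / 4 * m + 1077569861 * m ^ 2 + 7423383995 / 8 * m ^ 3
      + 4301689277 / 8 * m ^ 4 + 4438194151 / 20 * m ^ 5 + 1344074079 / 20 * m ^ 6 + 605521699 /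
      40 * m ^ 7 + 25383427 / 10 * m ^ 8 + 6262129 / 20 * m ^ 9 + 138139 / 5 * m ^ 10 + 16519 / 10
      * m ^ 11 + 60 * m ^ 12 + 1 * m ^ 13) / ((m + 4) ^ 4 * (m + 5) ^ 7 * (m ^ 2 + 9 * m + 21) *
      (m ^ 2 + 11 * m + 31)) := by positivity
  rw [← e] at h
  linarith

theorem num_h5b {m : ℝ} (hm : 0 ≤ m) :
    (41 / 10 / (m + 5) ^ 3) * ((m + 7) / (m ^ 2 + 13 * m + 43)) ≤
      (((m + 5) ^ 2 - 3) / (m + 5) ^ 3) * (2 * ((1 + (9 / 4 / (m + 5) ^ 4)) * (m + 6) / (m ^ 2 +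
          11 * m + 31)) - 2 * ((m + 7) / (m ^ 2 + 13 * m + 43))) := by
  have e : (((m + 5) ^ 2 - 3) / (m + 5) ^ 3) * (2 * ((1 + (9 / 4 / (m + 5) ^ 4)) * (m + 6) / (m ^
      2 + 11 * m + 31)) - 2 * ((m + 7) / (m ^ 2 + 13 * m + 43))) - ((41 / 10 / (m + 5) ^ 3) * ((m
      + 7) / (m ^ 2 + 13 * m + 43))) =
      (1193959 / 2 + 1073989 * m + 815357 * m ^ 2 + 344452 * m ^ 3 + 445294 / 5 * m ^ 4 + 144827 /
          10 * m ^ 5 + 7251 / 5 * m ^ 6 + 819 / 10 * m ^ 7 + 2 * m ^ 8) / ((m + 5) ^ 7 * (m ^ 2 +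
          11 * m + 31) * (m ^ 2 + 13 * m + 43)) := by
    field_simp
    ring
  have h : 0 ≤ (1193959 / 2 + 1073989 * m + 815357 * m ^ 2 + 344452 * m ^ 3 + 445294 / 5 * m ^ 4 +
      144827 / 10 * m ^ 5 + 7251 / 5 * m ^ 6 + 819 / 10 * m ^ 7 + 2 * m ^ 8) / ((m + 5) ^ 7 * (m ^
      2 + 11 * m + 31) * (m ^ 2 + 13 * m + 43)) := by positivity
  rw [← e] at h
  linarith

theorem num_h6 {m : ℝ} (hm : 0 ≤ m) :
    (41 / 10 / (m + 5) ^ 3) ^ 2 ≤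
      4 * (2 * ((m + 5) - 1) * ((1 + (9 / 4 / (m + 5) ^ 4)) * (m + 6) / (m ^ 2 + 11 * m + 31))) *
          (3 / (m + 5) ^ 5) * (((m + 5) / (m ^ 2 + 9 * m + 21)) - (41 / 10 / (m + 5) ^ 3)) := by
  have e : 4 * (2 * ((m + 5) - 1) * ((1 + (9 / 4 / (m + 5) ^ 4)) * (m + 6) / (m ^ 2 + 11 * m +
      31))) * (3 / (m + 5) ^ 5) * (((m + 5) / (m ^ 2 + 9 * m + 21)) - (41 / 10 / (m + 5) ^ 3)) -
      ((41 / 10 / (m + 5) ^ 3) ^ 2) =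
      (474263913 / 20 + 322518168 / 5 * m + 72142271 * m ^ 2 + 226310282 / 5 * m ^ 3 + 71774237 /
          4 * m ^ 4 + 47403323 / 10 * m ^ 5 + 84972169 / 100 * m ^ 6 + 102380 * m ^ 7 + 397477 /
          50 * m ^ 8 + 719 / 2 * m ^ 9 + 719 / 100 * m ^ 10) / ((m + 5) ^ 12 * (m ^ 2 + 9 * m +
          21) * (m ^ 2 + 11 * m + 31)) := by
    field_simp
    ring
  have h : 0 ≤ (474263913 / 20 + 322518168 / 5 * m + 72142271 * m ^ 2 + 226310282 / 5 * m ^ 3 +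
      71774237 / 4 * m ^ 4 + 47403323 / 10 * m ^ 5 + 84972169 / 100 * m ^ 6 + 102380 * m ^ 7 +
      397477 / 50 * m ^ 8 + 719 / 2 * m ^ 9 + 719 / 100 * m ^ 10) / ((m + 5) ^ 12 * (m ^ 2 + 9 * m
      + 21) * (m ^ 2 + 11 * m + 31)) := by positivity
  rw [← e] at h
  linarith

theorem num_h7 {m : ℝ} (hm : 0 ≤ m) :
    (41 / 10 / (m + 5) ^ 3) ≤
      (13 / 5 / (m + 5) ^ 2) * ((2 - ((m ^ 2 + 9 * m + 21) / (m + 5)) * (41 / 10 / (m + 5) ^ 3)) *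
          (((m + 5) ^ 2 - 3) / (m + 5) ^ 3)) := by
  have e : (13 / 5 / (m + 5) ^ 2) * ((2 - ((m ^ 2 + 9 * m + 21) / (m + 5)) * (41 / 10 / (m + 5) ^
      3)) * (((m + 5) ^ 2 - 3) / (m + 5) ^ 3)) - ((41 / 10 / (m + 5) ^ 3)) =
      (125629 / 50 + 211893 / 25 * m + 163868 / 25 * m ^ 2 + 111773 / 50 * m ^ 3 + 9656 / 25 * m ^
          4 + 33 * m ^ 5 + 11 / 10 * m ^ 6) / ((m + 5) ^ 9) := by
    field_simp
    ring
  have h : 0 ≤ (125629 / 50 + 211893 / 25 * m + 163868 / 25 * m ^ 2 + 111773 / 50 * m ^ 3 + 9656 /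
      25 * m ^ 4 + 33 * m ^ 5 + 11 / 10 * m ^ 6) / ((m + 5) ^ 9) := by positivity
  rw [← e] at h
  linarith

theorem num_hphi {m : ℝ} (hm : 0 ≤ m) :
    (13 / 5 / (m + 5) ^ 2) * (41 / 10 / (m + 5) ^ 3) ≤
      8 * ((m + 5) - 1) * (7 / 4 / (m + 5) ^ 5) * ((1 + (9 / 4 / (m + 5) ^ 4)) * (m + 6) / (m ^ 2
          + 11 * m + 31)) := by
  have e : 8 * ((m + 5) - 1) * (7 / 4 / (m + 5) ^ 5) * ((1 + (9 / 4 / (m + 5) ^ 4)) * (m + 6) / (m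
      ^ 2 + 11 * m + 31)) - ((13 / 5 / (m + 5) ^ 2) * (41 / 10 / (m + 5) ^ 3)) =
      (8437 / 2 + 34595 / 2 * m + 14320 * m ^ 2 + 25959 / 5 * m ^ 3 + 48067 / 50 * m ^ 4 + 4477 /
          50 * m ^ 5 + 167 / 50 * m ^ 6) / ((m + 5) ^ 9 * (m ^ 2 + 11 * m + 31)) := by
    field_simp
    ring
  have h : 0 ≤ (8437 / 2 + 34595 / 2 * m + 14320 * m ^ 2 + 25959 / 5 * m ^ 3 + 48067 / 50 * m ^ 4
      + 4477 / 50 * m ^ 5 + 167 / 50 * m ^ 6) / ((m + 5) ^ 9 * (m ^ 2 + 11 * m + 31)) := by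
      positivity
  rw [← e] at h
  linarith

theorem num_hphi1 {m : ℝ} (hm : 0 ≤ m) :
    (m + 5) * (7 / 4 / (m + 5) ^ 5) <
      1 := by
  have e : 1 - ((m + 5) * (7 / 4 / (m + 5) ^ 5)) =
      (12465 / 4 + 12493 / 4 * m + 1250 * m ^ 2 + 250 * m ^ 3 + 25 * m ^ 4 + 1 * m ^ 5) / ((m + 5)
          ^ 5) := by
    field_simp
    ring
  have h : 0 < (12465 / 4 + 12493 / 4 * m + 1250 * m ^ 2 + 250 * m ^ 3 + 25 * m ^ 4 + 1 * m ^ 5) /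
      ((m + 5) ^ 5) := by positivity
  rw [← e] at h
  linarith

theorem num_h8a {m : ℝ} (hm : 0 ≤ m) :
    (m + 5) * (7 / 4 / (m + 5) ^ 5) ≤
      (9 / 4 / (m + 5) ^ 4) * (1 - (m + 5) * (7 / 4 / (m + 5) ^ 5)) := by
  have e : (9 / 4 / (m + 5) ^ 4) * (1 - (m + 5) * (7 / 4 / (m + 5) ^ 5)) - ((m + 5) * (7 / 4 / (m
      + 5) ^ 5)) =
      (24685 / 16 + 24937 / 16 * m + 625 * m ^ 2 + 125 * m ^ 3 + 25 / 2 * m ^ 4 + 1 / 2 * m ^ 5) /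
          ((m + 5) ^ 9) := by
    field_simp
    ring
  have h : 0 ≤ (24685 / 16 + 24937 / 16 * m + 625 * m ^ 2 + 125 * m ^ 3 + 25 / 2 * m ^ 4 + 1 / 2 *
      m ^ 5) / ((m + 5) ^ 9) := by positivity
  rw [← e] at h
  linarith

theorem num_h8b {m : ℝ} (hm : 0 ≤ m) :
    (13 / 5 / (m + 5) ^ 2) ≤
      (19 / 20 / (m + 6)) * (1 - (m + 5) * (7 / 4 / (m + 5) ^ 5)) := by
  have e : (19 / 20 / (m + 6)) * (1 - (m + 5) * (7 / 4 / (m + 5) ^ 5)) - ((13 / 5 / (m + 5) ^ 2))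
      =
      (16167 / 16 + 117767 / 80 * m + 1517 / 2 * m ^ 2 + 1829 / 10 * m ^ 3 + 423 / 20 * m ^ 4 + 19
          / 20 * m ^ 5) / ((m + 5) ^ 5 * (m + 6)) := by
    field_simp
    ring
  have h : 0 ≤ (16167 / 16 + 117767 / 80 * m + 1517 / 2 * m ^ 2 + 1829 / 10 * m ^ 3 + 423 / 20 * m
      ^ 4 + 19 / 20 * m ^ 5) / ((m + 5) ^ 5 * (m + 6)) := by positivity
  rw [← e] at h
  linarith

theorem num_h9a {m : ℝ} (hm : 0 ≤ m) :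
    (19 / 20 / (m + 5)) * ((2 + (3 / (m + 5) ^ 5) + (9 / 4 / (m + 4) ^ 4)) * ((m + 5) / (m ^ 2 + 9
        * m + 21))) ≤
      2 * ((1 + (9 / 4 / (m + 5) ^ 4)) * (m + 6) / (m ^ 2 + 11 * m + 31)) := by
  have e : 2 * ((1 + (9 / 4 / (m + 5) ^ 4)) * (m + 6) / (m ^ 2 + 11 * m + 31)) - ((19 / 20 / (m +
      5)) * ((2 + (3 / (m + 5) ^ 5) + (9 / 4 / (m + 4) ^ 4)) * ((m + 5) / (m ^ 2 + 9 * m + 21))))
      =
      (12398085767 / 16 + 177690774537 / 80 * m + 58673023521 / 20 * m ^ 2 + 189133608571 / 80 * m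
          ^ 3 + 6485158876 / 5 * m ^ 4 + 40924700391 / 80 * m ^ 5 + 1492276467 / 10 * m ^ 6 +
          2607932897 / 80 * m ^ 7 + 426634173 / 80 * m ^ 8 + 3226274 / 5 * m ^ 9 + 280634 / 5 * m
          ^ 10 + 33237 / 10 * m ^ 11 + 1201 / 10 * m ^ 12 + 2 * m ^ 13) / ((m + 4) ^ 4 * (m + 5) ^
          6 * (m ^ 2 + 9 * m + 21) * (m ^ 2 + 11 * m + 31)) := by
    field_simp
    ring
  have h : 0 ≤ (12398085767 / 16 + 177690774537 / 80 * m + 58673023521 / 20 * m ^ 2 + 189133608571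
      / 80 * m ^ 3 + 6485158876 / 5 * m ^ 4 + 40924700391 / 80 * m ^ 5 + 1492276467 / 10 * m ^ 6 +
      2607932897 / 80 * m ^ 7 + 426634173 / 80 * m ^ 8 + 3226274 / 5 * m ^ 9 + 280634 / 5 * m ^ 10
      + 33237 / 10 * m ^ 11 + 1201 / 10 * m ^ 12 + 2 * m ^ 13) / ((m + 4) ^ 4 * (m + 5) ^ 6 * (m ^
      2 + 9 * m + 21) * (m ^ 2 + 11 * m + 31)) := by positivity
  rw [← e] at h
  linarith

theorem num_h9b {m : ℝ} (hm : 0 ≤ m) :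
    1 / 2 ≤
      2 * ((m ^ 2 + 9 * m + 21) / (m + 5)) * ((1 + (9 / 4 / (m + 5) ^ 4)) * (m + 6) / (m ^ 2 + 11
          * m + 31)) - 1 - (9 / 4 / (m + 4) ^ 4) := by
  have e : 2 * ((m ^ 2 + 9 * m + 21) / (m + 5)) * ((1 + (9 / 4 / (m + 5) ^ 4)) * (m + 6) / (m ^ 2
      + 11 * m + 31)) - 1 - (9 / 4 / (m + 4) ^ 4) - (1 / 2) =
      (12188733 / 4 + 17824479 / 2 * m + 22818699 / 2 * m ^ 2 + 34186151 / 4 * m ^ 3 + 16763979 /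
          4 * m ^ 4 + 2836643 / 2 * m ^ 5 + 677715 / 2 * m ^ 6 + 228987 / 4 * m ^ 7 + 13419 / 2 *
          m ^ 8 + 520 * m ^ 9 + 24 * m ^ 10 + 1 / 2 * m ^ 11) / ((m + 4) ^ 4 * (m + 5) ^ 5 * (m ^
          2 + 11 * m + 31)) := by
    field_simp
    ring
  have h : 0 ≤ (12188733 / 4 + 17824479 / 2 * m + 22818699 / 2 * m ^ 2 + 34186151 / 4 * m ^ 3 +
      16763979 / 4 * m ^ 4 + 2836643 / 2 * m ^ 5 + 677715 / 2 * m ^ 6 + 228987 / 4 * m ^ 7 + 13419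
      / 2 * m ^ 8 + 520 * m ^ 9 + 24 * m ^ 10 + 1 / 2 * m ^ 11) / ((m + 4) ^ 4 * (m + 5) ^ 5 * (m
      ^ 2 + 11 * m + 31)) := by positivity
  rw [← e] at h
  linarith

theorem num_h9c {m : ℝ} (hm : 0 ≤ m) :
    (19 / 20 / (m + 5)) * ((9 / 4 / (m + 4) ^ 4) / 2 + 2 * (m + 5) * ((1 + (9 / 4 / (m + 5) ^ 4))
        * (m + 6) / (m ^ 2 + 11 * m + 31))) ≤
      2 * ((1 + (9 / 4 / (m + 5) ^ 4)) * (m + 6) / (m ^ 2 + 11 * m + 31)) := by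
  have e : 2 * ((1 + (9 / 4 / (m + 5) ^ 4)) * (m + 6) / (m ^ 2 + 11 * m + 31)) - ((19 / 20 / (m +
      5)) * ((9 / 4 / (m + 4) ^ 4) / 2 + 2 * (m + 5) * ((1 + (9 / 4 / (m + 5) ^ 4)) * (m + 6) / (m
      ^ 2 + 11 * m + 31)))) =
      (14752671 / 32 + 162951731 / 160 * m + 160291747 / 160 * m ^ 2 + 46387421 / 80 * m ^ 3 +
          35064701 / 160 * m ^ 4 + 9055047 / 160 * m ^ 5 + 1619337 / 160 * m ^ 6 + 6191 / 5 * m ^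
          7 + 496 / 5 * m ^ 8 + 47 / 10 * m ^ 9 + 1 / 10 * m ^ 10) / ((m + 4) ^ 4 * (m + 5) ^ 5 *
          (m ^ 2 + 11 * m + 31)) := by
    field_simp
    ring
  have h : 0 ≤ (14752671 / 32 + 162951731 / 160 * m + 160291747 / 160 * m ^ 2 + 46387421 / 80 * m
      ^ 3 + 35064701 / 160 * m ^ 4 + 9055047 / 160 * m ^ 5 + 1619337 / 160 * m ^ 6 + 6191 / 5 * m
      ^ 7 + 496 / 5 * m ^ 8 + 47 / 10 * m ^ 9 + 1 / 10 * m ^ 10) / ((m + 4) ^ 4 * (m + 5) ^ 5 * (m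
      ^ 2 + 11 * m + 31)) := by positivity
  rw [← e] at h
  linarith

theorem num_h10a {m : ℝ} (hm : 0 ≤ m) :
    ((m ^ 2 + 9 * m + 21) / (m + 5)) * (41 / 10 / (m + 5) ^ 3) <
      1 := by
  have e : 1 - (((m ^ 2 + 9 * m + 21) / (m + 5)) * (41 / 10 / (m + 5) ^ 3)) =
      (5389 / 10 + 4631 / 10 * m + 1459 / 10 * m ^ 2 + 20 * m ^ 3 + 1 * m ^ 4) / ((m + 5) ^ 4) :=
          by
    field_simp
    ring
  have h : 0 < (5389 / 10 + 4631 / 10 * m + 1459 / 10 * m ^ 2 + 20 * m ^ 3 + 1 * m ^ 4) / ((m + 5)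
      ^ 4) := by positivity
  rw [← e] at h
  linarith

theorem num_h10b {m : ℝ} (hm : 0 ≤ m) :
    (m + 5) * (13 / 5 / (m + 5) ^ 2) ≤
      1 := by
  have e : 1 - ((m + 5) * (13 / 5 / (m + 5) ^ 2)) =
      (12 + 37 / 5 * m + 1 * m ^ 2) / ((m + 5) ^ 2) := by
    field_simp
    ring
  have h : 0 ≤ (12 + 37 / 5 * m + 1 * m ^ 2) / ((m + 5) ^ 2) := by positivity
  rw [← e] at h
  linarith


end H34.FKS
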