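import Mathlib
import Pool.Agent.H34.FKS.StepNum

/-!
# All levels `k ≥ 4`
-/

set_option autoImplicit false
set_option linter.unusedSectionVars false
set_option linter.unusedVariables false

namespace H34.FKS

open Finset H4.FKS

/-- Parameters for `k ≥ 5`. -/
theorem par_five {k : ℕ} (hk : 5 ≤ k) : Par k (ck k) (ck (k + 1) / (1 + kbar (k + 1)))
    (ck (k + 2)) (kbar k) (kbar (k + 1)) (rbar k) (rbar (k + 1)) (3 / (k : ℝ) ^ 5)
    (41 / 10 / (k : ℝ) ^ 3) (((k : ℝ) ^ 2 - 3) / (k : ℝ) ^ 3) (13 / 5 / (k : ℝ) ^ 2)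
    (7 / 4 / (k : ℝ) ^ 5) := by
  have hk5 : (5 : ℝ) ≤ k := by exact_mod_cast hk
  obtain ⟨m, hm0, hm⟩ : ∃ m : ℝ, 0 ≤ m ∧ (k : ℝ) = m + 5 := ⟨k - 5, by linarith, by ring⟩
  have e1 : kbar k = 9 / 4 / (m + 4) ^ 4 := by
    rw [kbar, hm, show m + 5 - 1 = m + 4 by ring]
    field_simp
  have e2 : kbar (k + 1) = 9 / 4 / (m + 5) ^ 4 := by
    rw [kbar]
    push_cast
    rw [hm, show m + 5 + 1 - 1 = m + 5 by ring]
    field_simp
  have e3 : rbar k = 19 / 20 / (m + 5) := by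
    rw [rbar, hm]
    field_simp
  have e4 : rbar (k + 1) = 19 / 20 / (m + 6) := by
    rw [rbar]
    push_cast
    rw [hm, show m + 5 + 1 = m + 6 by ring]
    field_simp
  have e5 : ck k = (m ^ 2 + 9 * m + 21) / (m + 5) := by
    rw [ck, hm]
    field_simp
    ring
  have e6 : ck (k + 1) = (m ^ 2 + 11 * m + 31) / (m + 6) := by
    rw [ck]
    push_cast
    rw [hm, show m + 5 + 1 = m + 6 by ring]
    field_simp
    ring
  have e7 : ck (k + 2) = (m ^ 2 + 13 * m + 43) / (m + 7) := by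
    rw [ck]
    push_cast
    rw [hm, show m + 5 + 2 = m + 7 by ring]
    field_simp
    ring
  apply par_mk (w := (m + 5) / (m ^ 2 + 9 * m + 21))
    (u := (1 + 9 / 4 / (m + 5) ^ 4) * (m + 6) / (m ^ 2 + 11 * m + 31))
    (w2 := (m + 7) / (m ^ 2 + 13 * m + 43)) (by omega)
  · rw [e5]; field_simp
  · rw [e2, e6]; field_simp
  · rw [e7]; field_simp
  · rw [e1]; positivity
  · rw [e2]; positivity
  · rw [e3]; positivity
  · rw [e4]; positivity
  · positivity
  · positivity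
  · rw [hm]
    apply div_pos
    · nlinarith
    · positivity
  · positivity
  · positivity
  · rw [hm]; exact num_hkC hm0
  · rw [hm, e1]; exact num_h2 hm0
  · rw [hm]; exact num_h3 hm0
  · rw [hm, e1]; exact num_h4 hm0
  · rw [hm, e1]; exact num_h5a hm0
  · rw [hm]; exact num_h5b hm0
  · rw [hm]; exact num_h6 hm0
  · rw [hm, e5]; exact num_h7 hm0
  · rw [hm]; exact num_hphi hm0
  · rw [hm]; exact num_hphi1 hm0
  · rw [hm, e2]; exact num_h8a hm0
  · rw [hm, e4]; exact num_h8b hm0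
  · rw [hm, e1, e3]; exact num_h9a hm0
  · rw [e1, e5]; exact num_h9b hm0
  · rw [hm, e1, e3]; exact num_h9c hm0
  · rw [hm, e5]; exact num_h10a hm0
  · rw [hm]; exact num_h10b hm0

/-- Parameters for `k ≥ 4`. -/
theorem par_all {k : ℕ} (hk : 4 ≤ k) : ∃ δ σ Q p φ : ℝ,
    Par k (ck k) (ck (k + 1) / (1 + kbar (k + 1)))
    (ck (k + 2)) (kbar k) (kbar (k + 1)) (rbar k) (rbar (k + 1)) δ σ Q p φ := by
  rcases Nat.eq_or_lt_of_le hk with h | h
  · subst h
    exact ⟨_, _, _, _, _, par_four⟩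
  · exact ⟨_, _, _, _, _, par_five h⟩

variable {V E : Type} [Fintype V] [DecidableEq V] [DecidableEq E] [Fintype E]

/-- The admissible inflations at level `k`. -/
def Good (H : E → Finset V) (x : E → ℝ) (k : ℕ) (κ : E → ℝ) : Prop :=
  ∀ e, (H e).card = k → 0 ≤ κ e ∧ κ e ≤ kbar k ∧ κ e ≤ rbar k * bsm H x k e

/-- **All levels `k ≥ 4`**: every good inflation of the `k`-edges is served. -/
theorem lvl_of_good {H : E → Finset V} (hne : ∀ e, (H e).Nonempty) {x : E → ℝ}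
    (hx : ∀ e, 0 ≤ x e) (hdeg : ∀ v, ∑ f with v ∈ H f, x f ≤ 1) {rep : E → V}
    (hrep : ∀ e, x e ≠ 0 → rep e ∈ H e)
    (hinj : ∀ e f, x e ≠ 0 → x f ≠ 0 → rep e = rep f → e = f) {k : ℕ} (hk : 4 ≤ k)
    {κ : E → ℝ} (hκ : Good H x k κ) : Lvl H x κ k := by
  have key : ∀ d : ℕ, ∀ k : ℕ, 4 ≤ k → Fintype.card V < k + d → ∀ κ : E → ℝ, Good H x k κ →
      Lvl H x κ k := by
    intro d
    induction d with
    | zero =>
      intro k hk hd κ hκ R hR
      have : R = ∅ := by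
        rw [eq_empty_iff_forall_notMem]
        intro e he
        have h1 := hR e he
        have h2 := card_le_univ (H e)
        omega
      rw [this]
      exact real_empty _ _
    | succ d ih =>
      intro k hk hd κ hκ
      obtain ⟨δ, σ, Q, p, φ, P⟩ := par_all hk
      obtain ⟨κ', h1, h2⟩ := step_own hne hx hdeg hrep hinj P hκ
      exact h2 (ih (k + 1) (by omega) (by omega) κ' h1)
  exact key (Fintype.card V + 1) k hk (by omega) κ hκ

/-- **All levels `k ≥ 4`**, version with `H84.FKS.HasSDR`. -/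
theorem lvl_of_good' {H : E → Finset V} (hne : ∀ e, (H e).Nonempty) {x : E → ℝ}
    (hx : ∀ e, 0 ≤ x e) (hdeg : ∀ v, ∑ f with v ∈ H f, x f ≤ 1)
    (hsdr : ∃ ρ : E → V, (∀ e, x e ≠ 0 → ρ e ∈ H e) ∧
      ∀ e f, x e ≠ 0 → x f ≠ 0 → ρ e = ρ f → e = f) {k : ℕ} (hk : 4 ≤ k)
    {κ : E → ℝ} (hκ : Good H x k κ) : Lvl H x κ k := by
  obtain ⟨ρ, h1, h2⟩ := hsdr
  exact lvl_of_good hne hx hdeg h1 h2 hk hκ

end H34.FKS
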