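import Mathlib

/-!
# The trace inequality for weighted families of sets
-/

set_option autoImplicit false
set_option linter.unusedSectionVars false

namespace Pool.Agent.H34.FKS

open Finset

variable {V E : Type} [Fintype V] [DecidableEq V]

/-- weighted codegree -/
def codeg (H : E → Finset V) (F : Finset E) (z : E → ℝ) (p : V × V) : ℝ :=
  ∑ f ∈ F, z f * ((if p.1 ∈ H f then 1 else 0) * (if p.2 ∈ H f then 1 else 0))

/-- weighted degree -/
def deg (H : E → Finset V) (F : Finset E) (z : E → ℝ) (v : V) : ℝ :=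
  ∑ f ∈ F, z f * (if v ∈ H f then 1 else 0)

lemma sum_ind (S : Finset V) (φ : V → ℝ) :
    ∑ v, (if v ∈ S then (1 : ℝ) else 0) * φ v = ∑ v ∈ S, φ v := by
  simp [ite_mul, sum_ite_mem]

lemma card_inter_ind (S T : Finset V) :
    ((S ∩ T).card : ℝ) = ∑ v, (if v ∈ S then (1 : ℝ) else 0) * (if v ∈ T then (1 : ℝ) else 0) := by
  have : S ∩ T = univ.filter (fun v => v ∈ S ∧ v ∈ T) := by
    ext v; simp
  rw [this, card_filter, Nat.cast_sum]
  refine sum_congr rfl fun v _ => ?_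
  by_cases h1 : v ∈ S <;> by_cases h2 : v ∈ T <;> simp [h1, h2]

/-- `∑_v φ_v²`. -/
lemma sum_deg_sq (H : E → Finset V) (F : Finset E) (z : E → ℝ) :
    ∑ v, deg H F z v ^ 2 = ∑ f ∈ F, ∑ h ∈ F, z f * z h * ((H f ∩ H h).card : ℝ) := by
  unfold deg
  simp only [card_inter_ind, mul_sum, sq, sum_mul]
  rw [sum_comm]
  refine sum_congr rfl fun f _ => ?_
  rw [sum_comm]
  refine sum_congr rfl fun h _ => sum_congr rfl fun v _ => by ring

/-- `∑_{v ∈ H f} φ_v`. -/
lemma sum_deg_edge (H : E → Finset V) (F : Finset E) (z : E → ℝ) (f : E) :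
    ∑ v ∈ H f, deg H F z v = ∑ h ∈ F, z h * ((H f ∩ H h).card : ℝ) := by
  rw [← sum_ind]
  unfold deg
  simp only [card_inter_ind, mul_sum]
  rw [sum_comm]
  refine sum_congr rfl fun h _ => sum_congr rfl fun v _ => by ring

lemma sum_offDiag_codeg_sq (H : E → Finset V) (F : Finset E) (z : E → ℝ) :
    ∑ p ∈ (univ : Finset V).offDiag, codeg H F z p ^ 2 =
      ∑ f ∈ F, ∑ h ∈ F, z f * z h *
        (((H f ∩ H h).card * ((H f ∩ H h).card - 1) : ℕ) : ℝ) := by
  have h1 : ∀ f h : E, (((H f ∩ H h).card * ((H f ∩ H h).card - 1) : ℕ) : ℝ) =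
      ∑ p ∈ (univ : Finset V).offDiag,
        (((if p.1 ∈ H f then (1 : ℝ) else 0) * (if p.2 ∈ H f then (1 : ℝ) else 0)) *
         ((if p.1 ∈ H h then (1 : ℝ) else 0) * (if p.2 ∈ H h then (1 : ℝ) else 0))) := by
    intro f h
    rw [Nat.mul_sub_one, ← offDiag_card, card_eq_sum_ones, Nat.cast_sum]
    have : (H f ∩ H h).offDiag = (univ : Finset V).offDiag.filter
        (fun p => (p.1 ∈ H f ∧ p.2 ∈ H f) ∧ (p.1 ∈ H h ∧ p.2 ∈ H h)) := by
      ext p
      simp only [mem_offDiag, mem_inter, mem_filter, mem_univ, true_and]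
      tauto
    rw [this, sum_filter]
    refine sum_congr rfl fun p _ => ?_
    by_cases a1 : p.1 ∈ H f <;> by_cases a2 : p.2 ∈ H f <;> by_cases a3 : p.1 ∈ H h <;>
      by_cases a4 : p.2 ∈ H h <;> simp [a1, a2, a3, a4]
  simp only [h1, mul_sum]
  unfold codeg
  simp only [sq, sum_mul, mul_sum]
  rw [sum_comm]
  refine sum_congr rfl fun f _ => ?_
  rw [sum_comm]
  refine sum_congr rfl fun h _ => sum_congr rfl fun p _ => by ring

/-- The trace inequality. -/
theorem trace_ineq (H : E → Finset V) (F : Finset E) (z : E → ℝ) (hz : ∀ f ∈ F, 0 ≤ z f)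
    (hdeg : ∀ v, deg H F z v ≤ 1)
    (hX : 0 < ∑ f ∈ F, z f)
    (hW : ∑ f ∈ F, z f ≤ ∑ f ∈ F, ∑ h ∈ F, z f * z h * ((H f ∩ H h).card : ℝ)) :
    (∑ f ∈ F, ∑ h ∈ F, z f * z h * ((H f ∩ H h).card : ℝ) - ∑ f ∈ F, z f) ^ 2 ≤
      (∑ f ∈ F, ∑ h ∈ F, z f * z h *
        (((H f ∩ H h).card * ((H f ∩ H h).card - 1) : ℕ) : ℝ)) * (∑ f ∈ F, z f) ^ 2 := by
  classical
  rw [← sum_offDiag_codeg_sq]
  set X := ∑ f ∈ F, z f with hXdef
  set φ := deg H F z with hφ
  have hφ0 : ∀ v, 0 ≤ φ v := by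
    intro v
    refine sum_nonneg fun f hf => ?_
    have := hz f hf
    split_ifs <;> simp [this]
  set W := ∑ f ∈ F, ∑ h ∈ F, z f * z h * ((H f ∩ H h).card : ℝ) with hWdef
  have hW2 : ∑ v, φ v ^ 2 = W := sum_deg_sq H F z
  have hWpos : 0 < W := lt_of_lt_of_le hX hW
  let Φ : E → ℝ := fun f => ∑ v ∈ H f, φ v
  have hΦW : ∑ f ∈ F, z f * Φ f = W := by
    simp only [Φ, hφ, sum_deg_edge, mul_sum, hWdef]
    refine sum_congr rfl fun f _ => sum_congr rfl fun h _ => by ring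
  -- Cauchy–Schwarz on the edges
  have hCS1 : W ^ 2 ≤ X * ∑ f ∈ F, z f * Φ f ^ 2 := by
    have h1 := sum_mul_sq_le_sq_mul_sq F (fun f => Real.sqrt (z f))
      (fun f => Real.sqrt (z f) * Φ f)
    have h2 : ∑ f ∈ F, Real.sqrt (z f) * (Real.sqrt (z f) * Φ f) = W := by
      rw [← hΦW]
      refine sum_congr rfl fun f hf => ?_
      rw [← mul_assoc, Real.mul_self_sqrt (hz f hf)]
    have h3 : ∑ f ∈ F, Real.sqrt (z f) ^ 2 = X :=
      sum_congr rfl fun f hf => Real.sq_sqrt (hz f hf)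
    have h4 : ∑ f ∈ F, (Real.sqrt (z f) * Φ f) ^ 2 = ∑ f ∈ F, z f * Φ f ^ 2 :=
      sum_congr rfl fun f hf => by rw [mul_pow, Real.sq_sqrt (hz f hf)]
    rw [h2, h3, h4] at h1
    exact h1
  -- the quadratic form
  have hQ : ∑ p ∈ (univ : Finset V).offDiag, codeg H F z p * (φ p.1 * φ p.2) =
      ∑ f ∈ F, z f * Φ f ^ 2 - ∑ v, φ v * φ v ^ 2 := by
    have h1 : ∑ p : V × V, codeg H F z p * (φ p.1 * φ p.2) = ∑ f ∈ F, z f * Φ f ^ 2 := by
      unfold codeg
      simp only [sum_mul]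
      rw [sum_comm]
      refine sum_congr rfl fun f _ => ?_
      have h2 : Φ f = ∑ v, (if v ∈ H f then (1 : ℝ) else 0) * φ v := (sum_ind (H f) φ).symm
      rw [h2, sq, sum_mul_sum, mul_sum, Fintype.sum_prod_type]
      refine sum_congr rfl fun u _ => ?_
      rw [mul_sum]
      refine sum_congr rfl fun v _ => by ring
    have h2 : ∑ p ∈ (univ : Finset V).diag, codeg H F z p * (φ p.1 * φ p.2) =
        ∑ v, φ v * φ v ^ 2 := by
      rw [sum_diag]
      refine sum_congr rfl fun v _ => ?_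
      have : codeg H F z (v, v) = φ v := by
        unfold codeg
        rw [hφ]; unfold deg
        refine sum_congr rfl fun f _ => ?_
        by_cases h : v ∈ H f <;> simp [h]
      rw [this]; ring
    rw [← h1, ← h2, eq_sub_iff_add_eq, add_comm, ← sum_union (disjoint_diag_offDiag _),
      diag_union_offDiag, univ_product_univ]
  have h3 : ∑ v, φ v * φ v ^ 2 ≤ W := by
    rw [← hW2]
    refine sum_le_sum fun v _ => ?_
    have h4 := hdeg v
    nlinarith [sq_nonneg (φ v)]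
  set Q := ∑ p ∈ (univ : Finset V).offDiag, codeg H F z p * (φ p.1 * φ p.2) with hQdef
  have hQlow : W ^ 2 - X * W ≤ X * Q := by
    rw [hQ]; nlinarith
  -- Cauchy–Schwarz on pairs
  have hCS2 : Q ^ 2 ≤ (∑ p ∈ (univ : Finset V).offDiag, codeg H F z p ^ 2) * W ^ 2 := by
    have h1 := sum_mul_sq_le_sq_mul_sq (univ : Finset V).offDiag (codeg H F z)
      (fun p => φ p.1 * φ p.2)
    refine h1.trans ?_
    refine mul_le_mul_of_nonneg_left ?_ (sum_nonneg fun _ _ => sq_nonneg _)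
    have h2 : W ^ 2 = ∑ p : V × V, (φ p.1 * φ p.2) ^ 2 := by
      rw [← hW2, sq, sum_mul_sum, Fintype.sum_prod_type]
      refine sum_congr rfl fun u _ => sum_congr rfl fun v _ => by ring
    rw [h2]
    exact sum_le_sum_of_subset_of_nonneg (subset_univ _) fun _ _ _ => sq_nonneg _
  set U := ∑ p ∈ (univ : Finset V).offDiag, codeg H F z p ^ 2 with hU
  have h5 : 0 ≤ W ^ 2 - X * W := by nlinarith
  have h6 : (W ^ 2 - X * W) ^ 2 ≤ (X * Q) ^ 2 := pow_le_pow_left₀ h5 hQlow 2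
  have h7 : W ^ 2 * (W - X) ^ 2 ≤ W ^ 2 * (U * X ^ 2) := by
    calc W ^ 2 * (W - X) ^ 2 = (W ^ 2 - X * W) ^ 2 := by ring
      _ ≤ (X * Q) ^ 2 := h6
      _ = X ^ 2 * Q ^ 2 := by ring
      _ ≤ X ^ 2 * (U * W ^ 2) := mul_le_mul_of_nonneg_left hCS2 (sq_nonneg _)
      _ = _ := by ring
  exact le_of_mul_le_mul_left h7 (by positivity)

end Pool.Agent.H34.FKS
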