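import Pool.Agent.H34.FKS.Avg
import Pool.Agent.H34.FKS.Trace

/-!
# The local defect is bounded below
-/

set_option autoImplicit false
set_option linter.unusedSectionVars false

namespace Pool.Agent.H34.FKS

open Finset

variable {V E Ω : Type} [Fintype V] [DecidableEq V] [Fintype E] [DecidableEq E] [Fintype Ω]

/-- Two edge occurrences touch if their edges intersect. -/
def touch (H : E → Finset V) (e f : E) : Prop := ¬ Disjoint (H e) (H f)

instance (H : E → Finset V) : DecidableRel (touch H) := fun e f => by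
  unfold touch; infer_instance

lemma touch_symm (H : E → Finset V) (e f : E) (h : touch H e f) : touch H f e :=
  fun h' => h h'.symm

lemma T_le_card (H : E → Finset V) (e f : E) :
    T (touch H) e f ≤ ((H e ∩ H f).card : ℝ) := by
  unfold T
  split_ifs with h
  · unfold touch at h
    rw [disjoint_iff_inter_eq_empty] at h
    have : 0 < (H e ∩ H f).card := card_pos.2 (nonempty_iff_ne_empty.2 h)
    exact_mod_cast this
  · positivity

/-- The purely numerical end of the argument. -/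
lemma numeric {ε σ ρ NA A1 A2 β u : ℝ} (hε0 : 0 < ε) (hε1 : ε ≤ 1 / 2) (hσ : σ = ε ^ 2 / 8)
    (hρ : (ρ - 1) ^ 2 ≤ σ ^ 2) (hNA : NA ≤ ρ ^ 2 - ρ * (1 - σ / 2) + σ / 2 + σ ^ 2)
    (hA1 : ε * ρ ≤ A1) (hA2 : A2 ≤ A1) (hA2' : ε * A1 ≤ A2)
    (hL : ρ * A2 - A1 ^ 2 ≤ σ ^ 2 + NA / 2) (hβ0 : 0 ≤ β) (hβ : 31 * β ≤ ε)
    (hu : u ≤ β)
    (key : 0 ≤ A1 ^ 2 - NA - u * A1 →
      (A1 ^ 2 - NA - u * A1) ^ 2 ≤ (1 + β) * (A2 - ε * A1) * A1 ^ 2) :
    False := by
  have hσ0 : 0 < σ := by rw [hσ]; positivity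
  have hσ1 : σ ≤ ε / 16 := by
    have : ε * ε ≤ ε * (1 / 2) := mul_le_mul_of_nonneg_left hε1 hε0.le
    rw [hσ, sq]; linarith
  have hσ2 : σ ≤ 1 / 32 := by linarith
  obtain ⟨hρ2, hρ1⟩ := abs_le_of_sq_le_sq' hρ hσ0.le
  have hσσ : σ ^ 2 ≤ σ / 32 := by
    rw [sq]
    calc σ * σ ≤ σ * (1 / 32) := mul_le_mul_of_nonneg_left hσ2 hσ0.le
      _ = σ / 32 := by ring
  have hρpos : 0 < ρ := by linarith
  have hρσ : ρ * σ ≤ σ + σ ^ 2 := by
    calc ρ * σ ≤ (1 + σ) * σ := mul_le_mul_of_nonneg_right (by linarith) hσ0.le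
      _ = _ := by ring
  have hN1 : NA ≤ 21 / 10 * σ := by
    have h1 : ρ ^ 2 - ρ * (1 - σ / 2) + σ / 2 + σ ^ 2 =
        (ρ - 1) ^ 2 + (ρ - 1) + ρ * σ / 2 + σ / 2 + σ ^ 2 := by ring
    rw [h1] at hNA
    linarith
  have hA1lo : 96 / 100 * ε ≤ A1 := by
    have h1 : 96 / 100 ≤ ρ := by linarith
    have h2 : ε * (96 / 100) ≤ ε * ρ := mul_le_mul_of_nonneg_left h1 hε0.le
    linarith
  have hA1pos : 0 < A1 := by linarith
  have hεA1 : 0 < ε * A1 := by positivity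
  have hA2pos : 0 < A2 := by linarith
  have hA2up : A2 ≤ A1 ^ 2 + 109 / 100 * σ + σ * A1 := by
    have h1 : (1 - ρ) * A2 ≤ σ * A2 := mul_le_mul_of_nonneg_right (by linarith) hA2pos.le
    have h2 : σ * A2 ≤ σ * A1 := mul_le_mul_of_nonneg_left hA2 hσ0.le
    linarith
  have huA : u * A1 ≤ β * A1 := mul_le_mul_of_nonneg_right hu hA1pos.le
  have hβA : β * A1 ≤ ε * A1 / 31 := by
    have : β ≤ ε / 31 := by linarith
    calc β * A1 ≤ ε / 31 * A1 := mul_le_mul_of_nonneg_right this hA1pos.le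
      _ = _ := by ring
  have hεε : 96 / 100 * ε ^ 2 ≤ ε * A1 := by
    calc 96 / 100 * ε ^ 2 = ε * (96 / 100 * ε) := by ring
      _ ≤ ε * A1 := mul_le_mul_of_nonneg_left hA1lo hε0.le
  have hAA : 96 / 100 * (ε * A1) ≤ A1 ^ 2 := by
    calc 96 / 100 * (ε * A1) = (96 / 100 * ε) * A1 := by ring
      _ ≤ A1 * A1 := mul_le_mul_of_nonneg_right hA1lo hA1pos.le
      _ = _ := by ring
  have hσε : σ = ε ^ 2 / 8 := hσ
  have hq : 0 ≤ A1 ^ 2 - NA - u * A1 := by linarith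
  have h1 := key hq
  have h2 : A1 ^ 2 * (A1 ^ 2 - 2 * (NA + u * A1)) ≤ A1 ^ 2 * ((1 + β) * (A2 - ε * A1)) := by
    have h3 : A1 ^ 2 * (A1 ^ 2 - 2 * (NA + u * A1)) =
        (A1 ^ 2 - NA - u * A1) ^ 2 - (NA + u * A1) ^ 2 := by ring
    have h4 : 0 ≤ (NA + u * A1) ^ 2 := sq_nonneg _
    have h5 : A1 ^ 2 * ((1 + β) * (A2 - ε * A1)) = (1 + β) * (A2 - ε * A1) * A1 ^ 2 := by ring
    linarith
  have h3 : A1 ^ 2 - 2 * (NA + u * A1) ≤ (1 + β) * (A2 - ε * A1) :=
    le_of_mul_le_mul_left h2 (by positivity)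
  have h4 : β * (A2 - ε * A1) ≤ β * A1 := mul_le_mul_of_nonneg_left (by linarith) hβ0
  have h5 : ε * A1 ≤ 529 / 100 * σ + 3 * (β * A1) + σ * A1 := by linarith
  have h7 : σ * A1 ≤ ε * A1 / 16 := by
    calc σ * A1 ≤ ε / 16 * A1 := mul_le_mul_of_nonneg_right hσ1 hA1pos.le
      _ = _ := by ring
  linarith

theorem Z_lower (H : E → Finset V) {F : Finset E} {μ : Ω → ℝ} {A : Ω → E → ℝ} {r : E → ℝ}
    {k : ℕ} {g ε β : ℝ}
    (hμ0 : ∀ s, 0 ≤ μ s) (hA : ∀ s e, A s e = 0 ∨ A s e = 1)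
    (hr : ∀ e ∈ F, 0 < r e)
    (hl0 : ∀ f ∈ F, ε ≤ ell μ A f) (hl1 : ∀ f ∈ F, ell μ A f ≤ 1)
    (hk : ∀ f ∈ F, (H f).card = k)
    (hdeg : ∀ v, ∑ f ∈ F, g * (r f * ell μ A f) * (if v ∈ H f then 1 else 0) ≤ 1)
    (hQ : ∀ f ∈ F, ∑ h ∈ F, g * (r h * ell μ A h) * (((H f ∩ H h).card - 1 : ℕ) : ℝ) ≤
      ell μ A f - ε)
    (hg : 0 < g) (hkg : (k : ℝ) ≤ (1 + β) * g) (hug : 1 ≤ β * g)
    (hε0 : 0 < ε) (hε1 : ε ≤ 1 / 2) (hβ : 31 * β ≤ ε) (s : Ω) (e : E) :
    ε ^ 4 / 64 ≤ Z (touch H) F μ A r s e := by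
  by_contra hcon
  push Not at hcon
  set t := touch H with ht
  have tsymm : ∀ e f, t e f → t f e := touch_symm H
  set σ : ℝ := ε ^ 2 / 8 with hσ
  have hσ0 : 0 < σ := by positivity
  have hσsq : ε ^ 4 / 64 = σ ^ 2 := by rw [hσ]; ring
  rw [hσsq] at hcon
  let w : E → ℝ := fun f => T t e f * (A s f * r f)
  have hw0 : ∀ f ∈ F, 0 ≤ w f := fun f hf => mul_nonneg (T_nonneg t _ _)
    (mul_nonneg (A_nonneg hA _ _) (hr f hf).le)
  have hwr : ∀ f ∈ F, w f ≤ r f := by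
    intro f hf
    have h1 := T_le_one t e f
    have h2 := A_le_one hA s f
    have h3 := T_nonneg t e f
    have h4 := A_nonneg hA s f
    have h5 := (hr f hf).le
    calc w f = (T t e f * A s f) * r f := by simp only [w]; ring
      _ ≤ 1 * r f := mul_le_mul_of_nonneg_right (mul_le_one₀ h1 h4 h2) h5
      _ = r f := one_mul _
  set ρ := Rs t F A r s e with hρ
  have hρw : ρ = ∑ f ∈ F, w f := rfl
  set Θ := Ths t F A r s e with hΘ
  have hΘ0 : 0 ≤ Θ := Ths_nonneg t hA hr s e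
  let R : E → ℝ := fun f => Rs t F A r s f
  let M : E → ℝ := fun f => mm t F μ A r f
  have hM0 : ∀ f, 0 ≤ M f := fun f => mm_nonneg t hμ0 hA hr f
  have hZ : Z t F μ A r s e = (ρ - 1) ^ 2 + Θ + ∑ f ∈ F, w f * ((R f - 1) ^ 2 + M f) := rfl
  have hZ2 : ∑ f ∈ F, w f * ((R f - 1) ^ 2 + M f) =
      ∑ f ∈ F, w f * (R f - 1) ^ 2 + ∑ f ∈ F, w f * M f := by
    rw [← sum_add_distrib]; exact sum_congr rfl fun f _ => by ring
  rw [hZ, hZ2] at hcon
  have hV0 : 0 ≤ ∑ f ∈ F, w f * (R f - 1) ^ 2 :=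
    sum_nonneg fun f hf => mul_nonneg (hw0 f hf) (sq_nonneg _)
  have hMM0 : 0 ≤ ∑ f ∈ F, w f * M f := sum_nonneg fun f hf => mul_nonneg (hw0 f hf) (hM0 f)
  have b1 : (ρ - 1) ^ 2 ≤ σ ^ 2 := by linarith
  have hsq := sq_nonneg (ρ - 1)
  have b2 : Θ ≤ σ ^ 2 := by linarith
  have b3 : ∑ f ∈ F, w f * (R f - 1) ^ 2 ≤ σ ^ 2 := by linarith
  have b4 : ∑ f ∈ F, w f * M f ≤ σ ^ 2 := by linarith
  -- nonadjacent pairs
  set NA := ∑ f ∈ F, ∑ h ∈ F, w f * w h * (1 - T t f h) with hNA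
  have hNA0 : 0 ≤ NA := by
    refine sum_nonneg fun f hf => sum_nonneg fun h hh => ?_
    have h1 := T_le_one t f h
    have := hw0 f hf
    have := hw0 h hh
    have : 0 ≤ 1 - T t f h := by linarith
    positivity
  have hwR : ∑ f ∈ F, w f * R f = ∑ f ∈ F, ∑ h ∈ F, w f * w h * T t f h + Θ := by
    rw [hΘ]; unfold Ths
    rw [← sum_add_distrib]
    refine sum_congr rfl fun f _ => ?_
    simp only [R]; unfold Rs
    rw [mul_sum, ← sum_add_distrib]
    refine sum_congr rfl fun h _ => ?_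
    simp only [w]; ring
  have hρ2 : ρ ^ 2 = ∑ f ∈ F, ∑ h ∈ F, w f * w h * T t f h + NA := by
    rw [hρw, hNA, sq, sum_mul_sum, ← sum_add_distrib]
    refine sum_congr rfl fun f _ => ?_
    rw [← sum_add_distrib]
    refine sum_congr rfl fun h _ => by ring
  have hwR2 : ρ * (1 - σ / 2) - σ / 2 ≤ ∑ f ∈ F, w f * R f := by
    have h1 : ∀ f ∈ F, w f * (1 - σ / 2) - w f * (R f - 1) ^ 2 / (2 * σ) ≤ w f * R f := by
      intro f hf
      have h2 := hw0 f hf
      have h3 : 1 - σ / 2 - (R f - 1) ^ 2 / (2 * σ) ≤ R f := by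
        have : R f - (1 - σ / 2 - (R f - 1) ^ 2 / (2 * σ)) = (R f - 1 + σ) ^ 2 / (2 * σ) := by
          field_simp; ring
        have h4 : 0 ≤ (R f - 1 + σ) ^ 2 / (2 * σ) := by positivity
        linarith
      calc w f * (1 - σ / 2) - w f * (R f - 1) ^ 2 / (2 * σ) =
          w f * (1 - σ / 2 - (R f - 1) ^ 2 / (2 * σ)) := by ring
        _ ≤ w f * R f := mul_le_mul_of_nonneg_left h3 h2
    refine le_trans ?_ (sum_le_sum h1)
    rw [sum_sub_distrib, ← sum_mul, ← sum_div, ← hρw]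
    have h2 : (∑ f ∈ F, w f * (R f - 1) ^ 2) / (2 * σ) ≤ σ / 2 := by
      rw [div_le_iff₀ (by positivity)]; nlinarith
    linarith
  have hNAle : NA ≤ ρ ^ 2 - ρ * (1 - σ / 2) + σ / 2 + σ ^ 2 := by linarith
  -- the lists have nearly constant size
  let l : E → ℝ := fun f => ell μ A f
  have hlmax : ∀ f h, max (l h - l f) 0 ≤ ∑ s, μ s * (A s h * (1 - A s f)) := by
    intro f h
    refine max_le ?_ ?_
    · simp only [l]; unfold ell
      rw [← sum_sub_distrib]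
      refine sum_le_sum fun s _ => ?_
      have h1 := hμ0 s
      have h2 := A_le_one hA s h
      have h3 := A_nonneg hA s f
      have : 0 ≤ μ s * (A s f * (1 - A s h)) :=
        mul_nonneg h1 (mul_nonneg h3 (by linarith))
      linarith
    · refine sum_nonneg fun s _ => mul_nonneg (hμ0 s) (mul_nonneg (A_nonneg hA _ _) ?_)
      have := A_le_one hA s f
      linarith
  have hM : ∀ f ∈ F, ∑ h ∈ F, w h * T t f h * max (l h - l f) 0 ≤ M f := by
    intro f _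
    simp only [M]; unfold mm
    refine sum_le_sum fun h hh => ?_
    have h1 := hlmax f h
    have h2 : 0 ≤ max (l h - l f) 0 := le_max_right _ _
    have h3 := T_nonneg t f h
    have h4 := hwr h hh
    have h5 := hw0 h hh
    have h6 := (hr h hh).le
    calc w h * T t f h * max (l h - l f) 0 ≤ r h * T t f h * max (l h - l f) 0 := by gcongr
      _ ≤ r h * T t f h * ∑ s, μ s * (A s h * (1 - A s f)) := by gcongr
      _ = _ := by ring
  have hL1 : ∑ f ∈ F, ∑ h ∈ F, w f * w h * T t f h * |l f - l h| ≤ 2 * σ ^ 2 := by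
    have h1 : ∑ f ∈ F, ∑ h ∈ F, w f * w h * T t f h * max (l h - l f) 0 ≤ σ ^ 2 := by
      refine le_trans ?_ b4
      refine sum_le_sum fun f hf => ?_
      calc ∑ h ∈ F, w f * w h * T t f h * max (l h - l f) 0 =
          w f * ∑ h ∈ F, w h * T t f h * max (l h - l f) 0 := by
            rw [mul_sum]; exact sum_congr rfl fun h _ => by ring
        _ ≤ w f * M f := mul_le_mul_of_nonneg_left (hM f hf) (hw0 f hf)
    have h2 : ∑ f ∈ F, ∑ h ∈ F, w f * w h * T t f h * max (l f - l h) 0 ≤ σ ^ 2 := by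
      rw [sum_comm]
      refine le_trans (le_of_eq ?_) h1
      refine sum_congr rfl fun f _ => sum_congr rfl fun h _ => ?_
      rw [T_comm t tsymm h f]; ring
    have h3 : ∑ f ∈ F, ∑ h ∈ F, w f * w h * T t f h * |l f - l h| =
        ∑ f ∈ F, ∑ h ∈ F, w f * w h * T t f h * max (l h - l f) 0 +
        ∑ f ∈ F, ∑ h ∈ F, w f * w h * T t f h * max (l f - l h) 0 := by
      rw [← sum_add_distrib]
      refine sum_congr rfl fun f _ => ?_
      rw [← sum_add_distrib]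
      refine sum_congr rfl fun h _ => ?_
      rw [← mul_add]
      congr 1
      rcases le_total (l f) (l h) with h4 | h4
      · rw [abs_of_nonpos (by linarith), max_eq_left (by linarith), max_eq_right (by linarith)]
        ring
      · rw [abs_of_nonneg (by linarith), max_eq_right (by linarith), max_eq_left (by linarith)]
        ring
    rw [h3]; linarith
  have hL2 : ∑ f ∈ F, ∑ h ∈ F, w f * w h * (l f - l h) ^ 2 ≤ 2 * σ ^ 2 + NA := by
    refine le_trans ?_ (add_le_add_left hL1 NA)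
    rw [hNA, ← sum_add_distrib]
    refine sum_le_sum fun f hf => ?_
    rw [← sum_add_distrib]
    refine sum_le_sum fun h hh => ?_
    have h1 := hl0 f hf
    have h2 := hl0 h hh
    have h3 := hl1 f hf
    have h4 := hl1 h hh
    have h5 : |l f - l h| ≤ 1 := by
      rw [abs_le]; constructor <;> simp only [l] <;> linarith
    have h6 : 0 ≤ |l f - l h| := abs_nonneg _
    have h7 : (l f - l h) ^ 2 ≤ T t f h * |l f - l h| + (1 - T t f h) := by
      rw [← sq_abs]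
      rcases T_cases t f h with h8 | h8 <;> rw [h8] <;> nlinarith
    have h9 : 0 ≤ w f * w h := mul_nonneg (hw0 f hf) (hw0 h hh)
    calc w f * w h * (l f - l h) ^ 2 ≤
        w f * w h * (T t f h * |l f - l h| + (1 - T t f h)) := mul_le_mul_of_nonneg_left h7 h9
      _ = _ := by ring
  set A1 := ∑ f ∈ F, w f * l f with hA1
  set A2 := ∑ f ∈ F, w f * l f ^ 2 with hA2
  have hL3 : ∑ f ∈ F, ∑ h ∈ F, w f * w h * (l f - l h) ^ 2 = 2 * (ρ * A2 - A1 ^ 2) := by
    have h1 : ∑ f ∈ F, ∑ h ∈ F, w f * w h * (l f - l h) ^ 2 =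
        (∑ f ∈ F, w f * l f ^ 2) * (∑ h ∈ F, w h) + (∑ f ∈ F, w f) * (∑ h ∈ F, w h * l h ^ 2) -
        2 * ((∑ f ∈ F, w f * l f) * (∑ h ∈ F, w h * l h)) := by
      rw [sum_mul_sum, sum_mul_sum, sum_mul_sum, mul_sum, ← sum_add_distrib, ← sum_sub_distrib]
      refine sum_congr rfl fun f _ => ?_
      rw [mul_sum, ← sum_add_distrib, ← sum_sub_distrib]
      refine sum_congr rfl fun h _ => by ring
    rw [h1, ← hρw, ← hA1, ← hA2]; ring
  -- the trace inequality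
  let z : E → ℝ := fun f => g * (w f * l f)
  have hl0' : ∀ f ∈ F, 0 ≤ l f := fun f hf => hε0.le.trans (hl0 f hf)
  have hz0 : ∀ f ∈ F, 0 ≤ z f := fun f hf =>
    mul_nonneg hg.le (mul_nonneg (hw0 f hf) (hl0' f hf))
  have hzx : ∀ f ∈ F, z f ≤ g * (r f * ell μ A f) := by
    intro f hf
    exact mul_le_mul_of_nonneg_left (mul_le_mul_of_nonneg_right (hwr f hf) (hl0' f hf)) hg.le
  have hzdeg : ∀ v, deg H F z v ≤ 1 := by
    intro v
    refine le_trans ?_ (hdeg v)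
    unfold deg
    refine sum_le_sum fun f hf => ?_
    refine mul_le_mul_of_nonneg_right (hzx f hf) ?_
    split_ifs <;> norm_num
  have hX : ∑ f ∈ F, z f = g * A1 := by
    rw [hA1, mul_sum]
  have hA1lo : ε * ρ ≤ A1 := by
    rw [hρw, hA1, mul_sum]
    refine sum_le_sum fun f hf => ?_
    have h1 := hl0 f hf
    have h2 := hw0 f hf
    rw [mul_comm]
    exact mul_le_mul_of_nonneg_left h1 h2
  have hA21 : A2 ≤ A1 := by
    rw [hA1, hA2]
    refine sum_le_sum fun f hf => mul_le_mul_of_nonneg_left ?_ (hw0 f hf)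
    have h1 := hl1 f hf
    have h2 := hl0' f hf
    show l f ^ 2 ≤ l f
    nlinarith
  have hA2lo : ε * A1 ≤ A2 := by
    rw [hA1, hA2, mul_sum]
    refine sum_le_sum fun f hf => ?_
    have h1 := hl0 f hf
    have h2 := hl0' f hf
    have h3 := hw0 f hf
    have : 0 ≤ w f * l f * (l f - ε) := mul_nonneg (mul_nonneg h3 h2) (sub_nonneg.2 h1)
    nlinarith
  set W := ∑ f ∈ F, ∑ h ∈ F, z f * z h * ((H f ∩ H h).card : ℝ) with hW
  have hWlo : g ^ 2 * (A1 ^ 2 - NA) ≤ W := by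
    have h1 : g ^ 2 * (A1 ^ 2 - NA) = ∑ f ∈ F, ∑ h ∈ F,
        (g ^ 2 * ((w f * l f) * (w h * l h)) - g ^ 2 * (w f * w h * (1 - T t f h))) := by
      rw [hA1, hNA, sq (∑ f ∈ F, w f * l f), sum_mul_sum, mul_sub, mul_sum, mul_sum,
        ← sum_sub_distrib]
      refine sum_congr rfl fun f _ => ?_
      rw [mul_sum, mul_sum, ← sum_sub_distrib]
    rw [h1, hW]
    refine sum_le_sum fun f hf => sum_le_sum fun h hh => ?_
    have h2 := T_le_card H f h
    have h3 := hw0 f hf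
    have h4 := hw0 h hh
    have h5 := hl0' f hf
    have h6 := hl0' h hh
    have h7 : l f * l h ≤ 1 := mul_le_one₀ (hl1 f hf) h6 (hl1 h hh)
    have h8 := T_le_one t f h
    have h9 := T_nonneg t f h
    have h10 : z f * z h * T t f h ≤ z f * z h * ((H f ∩ H h).card : ℝ) :=
      mul_le_mul_of_nonneg_left h2 (mul_nonneg (hz0 f hf) (hz0 h hh))
    refine le_trans ?_ h10
    simp only [z]
    have h11 : 0 ≤ g ^ 2 * (w f * w h) * ((1 - T t f h) * (1 - l f * l h)) :=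
      mul_nonneg (mul_nonneg (sq_nonneg g) (mul_nonneg h3 h4))
        (mul_nonneg (by linarith) (by linarith))
    have h12 : g * (w f * l f) * (g * (w h * l h)) * T t f h -
        (g ^ 2 * ((w f * l f) * (w h * l h)) - g ^ 2 * (w f * w h * (1 - T t f h))) =
        g ^ 2 * (w f * w h) * ((1 - T t f h) * (1 - l f * l h)) := by ring
    linarith
  have hUle : ∑ f ∈ F, ∑ h ∈ F, z f * z h *
        (((H f ∩ H h).card * ((H f ∩ H h).card - 1) : ℕ) : ℝ) ≤ k * g * (A2 - ε * A1) := by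
    have h1 : (k : ℝ) * g * (A2 - ε * A1) = ∑ f ∈ F, z f * (k * (l f - ε)) := by
      rw [hA1, hA2, mul_sub, mul_sum, mul_sum, mul_sum, ← sum_sub_distrib]
      refine sum_congr rfl fun f _ => ?_
      simp only [z]; ring
    rw [h1]
    refine sum_le_sum fun f hf => ?_
    have h2 : ∑ h ∈ F, z f * z h * (((H f ∩ H h).card * ((H f ∩ H h).card - 1) : ℕ) : ℝ) ≤
        z f * (k * ∑ h ∈ F, g * (r h * ell μ A h) * (((H f ∩ H h).card - 1 : ℕ) : ℝ)) := by
      rw [mul_sum, mul_sum]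
      refine sum_le_sum fun h hh => ?_
      rw [Nat.cast_mul]
      have h3 : ((H f ∩ H h).card : ℝ) ≤ k := by
        rw [← hk f hf]
        exact_mod_cast card_le_card inter_subset_left
      have h4 := hz0 f hf
      have h5 := hz0 h hh
      have h6 := hzx h hh
      have h7 : (0 : ℝ) ≤ (((H f ∩ H h).card - 1 : ℕ) : ℝ) := Nat.cast_nonneg _
      have h8 : (0 : ℝ) ≤ ((H f ∩ H h).card : ℝ) := Nat.cast_nonneg _
      calc z f * z h * (((H f ∩ H h).card : ℝ) * (((H f ∩ H h).card - 1 : ℕ) : ℝ))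
          ≤ z f * (g * (r h * ell μ A h)) * (k * (((H f ∩ H h).card - 1 : ℕ) : ℝ)) :=
            mul_le_mul (mul_le_mul_of_nonneg_left h6 h4) (mul_le_mul_of_nonneg_right h3 h7)
              (mul_nonneg h8 h7) (mul_nonneg h4 (h5.trans h6))
        _ = _ := by ring
    refine h2.trans (mul_le_mul_of_nonneg_left ?_ (hz0 f hf))
    exact mul_le_mul_of_nonneg_left (hQ f hf) (Nat.cast_nonneg _)
  have hug' : 1 / g ≤ β := by rw [div_le_iff₀ hg]; exact hug
  have hβ0 : 0 ≤ β := le_trans (by positivity) hug'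
  refine numeric (ρ := ρ) (NA := NA) (A1 := A1) (A2 := A2) (β := β) (u := 1 / g) hε0 hε1 hσ b1
    hNAle hA1lo hA21 hA2lo (by linarith) hβ0 hβ hug' ?_
  intro hq
  have hρpos : 0 < ρ := by
    have h1 : σ ≤ 1 / 32 := by
      have : ε * ε ≤ (1 / 2) * (1 / 2) := mul_le_mul hε1 hε1 hε0.le (by norm_num)
      rw [hσ, sq]; linarith
    obtain ⟨h2, h3⟩ := abs_le_of_sq_le_sq' b1 hσ0.le
    linarith
  have hA1pos : 0 < A1 := lt_of_lt_of_le (by positivity) hA1lo
  have hXpos : 0 < ∑ f ∈ F, z f := by rw [hX]; positivity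
  have hWX : g ^ 2 * (A1 ^ 2 - NA - 1 / g * A1) ≤ W - ∑ f ∈ F, z f := by
    rw [hX]
    have : g ^ 2 * (A1 ^ 2 - NA - 1 / g * A1) = g ^ 2 * (A1 ^ 2 - NA) - g * A1 := by
      field_simp
    linarith
  have hWX0 : 0 ≤ W - ∑ f ∈ F, z f := le_trans (by positivity) hWX
  have htr := trace_ineq H F z hz0 hzdeg hXpos (by linarith)
  rw [← hW] at htr
  have h1 : (g ^ 2 * (A1 ^ 2 - NA - 1 / g * A1)) ^ 2 ≤ (W - ∑ f ∈ F, z f) ^ 2 :=
    pow_le_pow_left₀ (by positivity) hWX 2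
  have h2 : (g ^ 2 * (A1 ^ 2 - NA - 1 / g * A1)) ^ 2 ≤ k * g * (A2 - ε * A1) * (g * A1) ^ 2 := by
    refine h1.trans (htr.trans ?_)
    rw [hX]
    exact mul_le_mul_of_nonneg_right hUle (sq_nonneg _)
  have h3 : k * g * (A2 - ε * A1) * (g * A1) ^ 2 ≤
      ((1 + β) * g) * g * (A2 - ε * A1) * (g * A1) ^ 2 := by
    have : 0 ≤ A2 - ε * A1 := by linarith
    gcongr
  have h4 : g ^ 4 * (A1 ^ 2 - NA - 1 / g * A1) ^ 2 ≤
      g ^ 4 * ((1 + β) * (A2 - ε * A1) * A1 ^ 2) := by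
    calc g ^ 4 * (A1 ^ 2 - NA - 1 / g * A1) ^ 2 =
        (g ^ 2 * (A1 ^ 2 - NA - 1 / g * A1)) ^ 2 := by ring
      _ ≤ _ := h2.trans h3
      _ = _ := by ring
  exact le_of_mul_le_mul_left h4 (by positivity)

end Pool.Agent.H34.FKS
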